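import Pool.Agent.W25.UB.Stm
import Pool.Agent.H442R2.KF.Poi
import Pool.Agent.H442R2.KF.Summ

/-!
UB-GAU: Gaussian sums of expandable functions (helper505).
-/

set_option autoImplicit false

namespace Pool.Agent.W505.UBGAU

open Finset Filter Topology
open Pool.Agent.W25.UB
open Pool.Agent.H442R2.KF

theorem one_class : ∃ N₀ : ℕ, ∀ N : ℕ, N₀ ≤ N → ∀ m : ℕ, 1 ≤ m → (m : ℝ) * Real.log N ≤ N →
    ∀ c : ℤ, |(∑' n : ℤ, (if (m : ℤ) ∣ n - c then Wt N n else 0)) - (N : ℝ) / m| ≤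
      1 / (N : ℝ) ^ 5 := by
  obtain ⟨N₀, h⟩ := poisson_trunc
  refine ⟨max N₀ 3, fun N hN m hm hmN c => ?_⟩
  have hN3 : 3 ≤ N := (le_max_right _ _).trans hN
  have hN1 : (3 : ℝ) ≤ N := by exact_mod_cast hN3
  have hl1 : 1 ≤ Real.log N := by
    rw [Real.le_log_iff_exp_le (by linarith)]
    have := Real.exp_one_lt_d9
    linarith
  have hm0 : (0 : ℝ) ≤ m := Nat.cast_nonneg _
  have hmN' : (m : ℝ) ≤ (N : ℝ) ^ 3 := by
    have h1 : (m : ℝ) ≤ N := by nlinarith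
    have h2 : (N : ℝ) ≤ (N : ℝ) ^ 3 := by nlinarith [sq_nonneg ((N : ℝ) - 1)]
    linarith
  have h1 := h N ((le_max_left _ _).trans hN) m hm hmN' c 0 (by simpa using hmN)
  have h2 : ((N : ℝ) / m : ℝ) * ∑ j ∈ Icc (-((0 : ℕ) : ℤ)) ((0 : ℕ) : ℤ),
        ((Real.exp (-Real.pi * ((j : ℝ) * N / m) ^ 2) : ℝ) : ℂ) * e ((j : ℝ) * c / m) =
      (((N : ℝ) / m : ℝ) : ℂ) := by
    have e0 : Icc (-((0 : ℕ) : ℤ)) ((0 : ℕ) : ℤ) = {0} := by simp
    rw [e0, Finset.sum_singleton]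
    simp [e]
  rw [h2, ← Complex.ofReal_sub, Complex.norm_real, Real.norm_eq_abs] at h1
  exact h1

theorem summable_cl (N : ℕ) (hN : 1 ≤ N) (m : ℤ) (c : ℤ) :
    Summable (fun n : ℤ => if m ∣ n - c then Wt N n else 0) := by
  refine Summable.of_norm_bounded (TaskS.summable_Wt N hN) fun n => ?_
  have h0 : 0 < Wt N n := Real.exp_pos _
  split_ifs
  · rw [Real.norm_eq_abs, abs_of_pos h0]
  · rw [norm_zero]; exact h0.le

theorem main : St_GAU := by
  intro ε hε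
  obtain ⟨N₀, h⟩ := one_class
  have h1 : ∀ᶠ x : ℝ in atTop, Real.log x ≤ x ^ ε := by
    have := isLittleO_log_rpow_atTop hε
    filter_upwards [this.bound (by norm_num : (0 : ℝ) < 1), eventually_ge_atTop 1] with x hx hx1
    rw [one_mul, Real.norm_eq_abs, Real.norm_eq_abs, abs_of_nonneg (Real.log_nonneg hx1),
      abs_of_nonneg (Real.rpow_nonneg (by linarith) _)] at hx
    exact hx
  have h2 := (tendsto_natCast_atTop_atTop (R := ℝ)).eventually h1
  obtain ⟨N₁, hN₁⟩ := eventually_atTop.1 h2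
  refine ⟨max N₀ (max N₁ 3), fun X hX S Y R Φ m hEx hR => ?_⟩
  have hX0 : N₀ ≤ X := (le_max_left _ _).trans hX
  have hX1 : N₁ ≤ X := ((le_max_left _ _).trans (le_max_right _ _)).trans hX
  have hX3 : 3 ≤ X := ((le_max_right _ _).trans (le_max_right _ _)).trans hX
  have hXr : (3 : ℝ) ≤ X := by exact_mod_cast hX3
  obtain ⟨s, φ, hΦ, hφ, hs, hm⟩ := hEx
  have hY : 0 ≤ Y := (Finset.sum_nonneg fun _ _ => abs_nonneg _).trans hφ
  have hlog := hN₁ X hX1
  -- one term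
  have hq : ∀ x ∈ s, (x.1 : ℝ) * Real.log X ≤ X := by
    intro x hx
    obtain ⟨hx1, hxR, -⟩ := hs x hx
    calc (x.1 : ℝ) * Real.log X ≤ (X : ℝ) ^ (1 - ε) * (X : ℝ) ^ ε :=
          mul_le_mul (hxR.trans hR) hlog (Real.log_nonneg (by linarith))
            (Real.rpow_nonneg (by linarith) _)
      _ = X := by
        rw [← Real.rpow_add (by linarith), sub_add_cancel, Real.rpow_one]
  have hterm : ∀ n : ℤ, Wt X n * Φ n =
      ∑ x ∈ s, φ x * (if (x.1 : ℤ) ∣ n - x.2 then Wt X n else 0) := by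
    intro n
    rw [hΦ, Finset.mul_sum]
    refine Finset.sum_congr rfl fun x _ => ?_
    split_ifs <;> ring
  have hsum : ∀ x ∈ s, Summable fun n : ℤ => φ x * (if (x.1 : ℤ) ∣ n - x.2 then Wt X n else 0) :=
    fun x _ => (summable_cl X (by omega) x.1 x.2).mul_left _
  have hS : Summable (fun n : ℤ => Wt X n * Φ n) := by
    simp_rw [hterm]
    exact summable_sum hsum
  refine ⟨hS, ?_⟩
  have e1 : ∑' n : ℤ, Wt X n * Φ n =
      ∑ x ∈ s, φ x * ∑' n : ℤ, (if (x.1 : ℤ) ∣ n - x.2 then Wt X n else 0) := by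
    simp_rw [hterm]
    rw [Summable.tsum_finsetSum hsum]
    refine Finset.sum_congr rfl fun x _ => ?_
    rw [tsum_mul_left]
  have e2 : (X : ℝ) * m = ∑ x ∈ s, φ x * ((X : ℝ) / x.1) := by
    rw [hm, Finset.mul_sum]
    refine Finset.sum_congr rfl fun x _ => ?_
    ring
  rw [e1, e2, ← Finset.sum_sub_distrib]
  have h5 : (0 : ℝ) < (X : ℝ) ^ 5 := by positivity
  calc |∑ x ∈ s, (φ x * ∑' n : ℤ, (if (x.1 : ℤ) ∣ n - x.2 then Wt X n else 0) -
          φ x * ((X : ℝ) / x.1))|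
      ≤ ∑ x ∈ s, |φ x| * (1 / (X : ℝ) ^ 5) := by
        refine (Finset.abs_sum_le_sum_abs _ _).trans (Finset.sum_le_sum fun x hx => ?_)
        rw [← mul_sub, abs_mul]
        exact mul_le_mul_of_nonneg_left (h X hX0 x.1 (hs x hx).1 (hq x hx) x.2) (abs_nonneg _)
    _ = (∑ x ∈ s, |φ x|) * (1 / (X : ℝ) ^ 5) := by rw [Finset.sum_mul]
    _ ≤ Y * (1 / (X : ℝ) ^ 5) := mul_le_mul_of_nonneg_right hφ (by positivity)
    _ ≤ Y / (X : ℝ) ^ 4 := by
      rw [mul_one_div]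
      apply div_le_div_of_nonneg_left hY (by positivity)
      exact pow_le_pow_right₀ (by linarith) (by norm_num)

end Pool.Agent.W505.UBGAU
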