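import Mathlib

set_option autoImplicit false

/-!
# Phragmén-Lindelöf with polynomial weights
-/

namespace Pool.Agent.W505.PL

open Complex Filter Asymptotics Set

/-- `exp (x ^ ρ)` grows slower than `exp (exp (c x))`. -/
theorem rpow_le_exp (ρ D c : ℝ) (hc : 0 < c) : ∃ B : ℝ, 0 ≤ B ∧ ∀ x : ℝ, 0 ≤ x →
    (D + x) ^ ρ ≤ B * Real.exp (c * x) ∨ D + x < 1 := by
  -- bound by a natural power
  obtain ⟨n, hn⟩ := exists_nat_ge ρ
  -- `(D + x)^n ≤ n! / c^n * exp (c (D + x))`
  refine ⟨(n.factorial : ℝ) / c ^ n * Real.exp (c * D), by positivity, fun x hx => ?_⟩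
  by_cases h : D + x < 1
  · exact Or.inr h
  left
  push Not at h
  have h1 : (D + x) ^ ρ ≤ (D + x) ^ (n : ℝ) := Real.rpow_le_rpow_of_exponent_le h hn
  rw [Real.rpow_natCast] at h1
  have h2 : (c * (D + x)) ^ n / (n.factorial : ℝ) ≤ Real.exp (c * (D + x)) :=
    Real.pow_div_factorial_le_exp _ (by nlinarith) n
  have h3 : (0 : ℝ) < n.factorial := by exact_mod_cast n.factorial_pos
  have h4 : 0 < c ^ n := by positivity
  rw [mul_pow, div_le_iff₀ h3] at h2
  calc (D + x) ^ ρ ≤ (D + x) ^ n := h1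
    _ = (c ^ n * (D + x) ^ n) / c ^ n := by field_simp
    _ ≤ (Real.exp (c * (D + x)) * n.factorial) / c ^ n := by gcongr
    _ = (n.factorial : ℝ) / c ^ n * Real.exp (c * D) * Real.exp (c * x) := by
        rw [mul_add, Real.exp_add]; ring

/-- we may take the exponent non-negative -/
theorem growth_nonneg {F : ℂ → ℂ} (hF : Differentiable ℂ F) {ρ C : ℝ}
    (hgr : ∀ s : ℂ, ‖F s‖ ≤ C * Real.exp (‖s‖ ^ ρ)) :
    ∃ C' : ℝ, ∀ s : ℂ, ‖F s‖ ≤ C' * Real.exp (‖s‖ ^ |ρ|) := by
  obtain ⟨M, hM⟩ := (isCompact_closedBall (0 : ℂ) 1).exists_bound_of_continuousOn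
    hF.continuous.continuousOn
  have hC : 0 ≤ C := by
    have := (norm_nonneg _).trans (hgr 0)
    by_contra h
    push Not at h
    have h4 := mul_neg_of_neg_of_pos h (Real.exp_pos (‖(0:ℂ)‖ ^ ρ))
    linarith
  have hM0 : 0 ≤ M := (norm_nonneg _).trans (hM 0 (by simp))
  refine ⟨C + M, fun s => ?_⟩
  have he : 1 ≤ Real.exp (‖s‖ ^ |ρ|) := Real.one_le_exp (Real.rpow_nonneg (norm_nonneg _) _)
  by_cases h : 1 ≤ ‖s‖
  · calc ‖F s‖ ≤ C * Real.exp (‖s‖ ^ ρ) := hgr s
      _ ≤ C * Real.exp (‖s‖ ^ |ρ|) := by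
          gcongr
          exact le_abs_self ρ
      _ ≤ (C + M) * Real.exp (‖s‖ ^ |ρ|) := by gcongr; linarith
  · push Not at h
    have h1 := hM s (by simp [h.le])
    calc ‖F s‖ ≤ M := h1
      _ ≤ (C + M) * 1 := by linarith
      _ ≤ (C + M) * Real.exp (‖s‖ ^ |ρ|) := by gcongr

theorem strip {F : ℂ → ℂ} (hF : Differentiable ℂ F) {ρ C : ℝ} (h0 : 0 ≤ ρ)
    (hgr : ∀ s : ℂ, ‖F s‖ ≤ C * Real.exp (‖s‖ ^ ρ)) {a b K B : ℝ} {N : ℕ} (hab : a < b)
    (hK : 1 ≤ a + K)
    (ha : ∀ s : ℂ, s.re = a → ‖F s‖ ≤ B * ‖s + K‖ ^ N)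
    (hb : ∀ s : ℂ, s.re = b → ‖F s‖ ≤ B * ‖s + K‖ ^ N) {s : ℂ} (h1 : a ≤ s.re) (h2 : s.re ≤ b) :
    ‖F s‖ ≤ B * ‖s + K‖ ^ N := by
  have hne : ∀ z : ℂ, a ≤ z.re → z + (K : ℂ) ≠ 0 := by
    intro z hz h
    have : (z + (K : ℂ)).re = 0 := by rw [h]; rfl
    simp at this
    linarith
  have hone : ∀ z : ℂ, a ≤ z.re → 1 ≤ ‖z + (K : ℂ)‖ := by
    intro z hz
    have h3 : (z + (K : ℂ)).re ≤ ‖z + (K : ℂ)‖ := (le_abs_self _).trans (Complex.abs_re_le_norm _)
    simp at h3
    linarith
  set G : ℂ → ℂ := fun z => F z / (z + K) ^ N with hG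
  have hC : 0 ≤ C := by
    have := (norm_nonneg _).trans (hgr 0)
    by_contra h
    push Not at h
    have h4 := mul_neg_of_neg_of_pos h (Real.exp_pos (‖(0:ℂ)‖ ^ ρ))
    linarith
  have key : ‖G s‖ ≤ B := by
    refine PhragmenLindelof.vertical_strip (a := a) (b := b) (C := B) (f := G) (z := s) ?_ ?_ ?_ ?_ h1 h2
    · -- differentiable
      apply DifferentiableOn.diffContOnCl
      intro z hz
      apply DifferentiableAt.differentiableWithinAt
      have hz' : a ≤ z.re := by
        have hcl : closure (re ⁻¹' Ioo a b) ⊆ re ⁻¹' Icc a b :=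
          closure_minimal (fun w hw => ⟨hw.1.le, hw.2.le⟩) (isClosed_Icc.preimage continuous_re)
        exact (hcl hz).1
      exact (hF z).div (((differentiableAt_id).add_const _).pow _) (pow_ne_zero _ (hne z hz'))
    · -- growth
      have hba : 0 < b - a := by linarith
      obtain ⟨D, hD⟩ : ∃ D : ℝ, D = |a| + |b| + 1 := ⟨_, rfl⟩
      obtain ⟨B', hB', h⟩ := rpow_le_exp ρ D (Real.pi / (2 * (b - a))) (by positivity)
      refine ⟨Real.pi / (2 * (b - a)), ?_, B' + 1, ?_⟩
      · rw [div_lt_div_iff₀ (by positivity) hba]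
        nlinarith [Real.pi_pos]
      · refine IsBigO.of_bound C ?_
        rw [eventually_inf_principal]
        filter_upwards with z hz
        have hz1 : a ≤ z.re := hz.1.le
        have hz2 : z.re ≤ b := hz.2.le
        have hnz : ‖z‖ ≤ D + |z.im| := by
          refine (Complex.norm_le_abs_re_add_abs_im z).trans ?_
          have : |z.re| ≤ |a| + |b| := by
            rcases le_total 0 z.re with h0 | h0
            · rw [abs_of_nonneg h0]
              have := le_abs_self b
              have := abs_nonneg a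
              linarith
            · rw [abs_of_nonpos h0]
              have := neg_abs_le a
              have := abs_nonneg b
              linarith
          linarith
        rw [hG]
        simp only
        rw [norm_div, norm_pow, Real.norm_eq_abs, abs_of_pos (Real.exp_pos _)]
        have h5 : 1 ≤ ‖z + (K : ℂ)‖ ^ N := one_le_pow₀ (hone z hz1)
        have h6 : ‖F z‖ / ‖z + (K : ℂ)‖ ^ N ≤ ‖F z‖ := div_le_self (norm_nonneg _) h5
        refine h6.trans ((hgr z).trans ?_)
        have h7 : ‖z‖ ^ ρ ≤ (B' + 1) * Real.exp (Real.pi / (2 * (b - a)) * |z.im|) := by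
          have he : 1 ≤ Real.exp (Real.pi / (2 * (b - a)) * |z.im|) :=
            Real.one_le_exp (by positivity)
          have hm : ‖z‖ ^ ρ ≤ (D + |z.im|) ^ ρ := Real.rpow_le_rpow (norm_nonneg _) hnz h0
          rcases h |z.im| (abs_nonneg _) with h8 | h8
          · have := mul_le_mul_of_nonneg_right (show B' ≤ B' + 1 by linarith) (Real.exp_pos (Real.pi / (2 * (b - a)) * |z.im|)).le
            linarith
          · exfalso
            have h9 : 0 ≤ |z.im| := abs_nonneg _
            have h10 : 0 ≤ |a| := abs_nonneg _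
            have h11 : 0 ≤ |b| := abs_nonneg _
            linarith
        gcongr
    · intro z hz
      rw [hG]
      simp only
      rw [norm_div, norm_pow]
      have h5 : 0 < ‖z + (K : ℂ)‖ ^ N := by
        have := hone z hz.ge
        positivity
      rw [div_le_iff₀ h5]
      exact ha z hz
    · intro z hz
      rw [hG]
      simp only
      rw [norm_div, norm_pow]
      have h5 : 0 < ‖z + (K : ℂ)‖ ^ N := by
        have := hone z (by linarith)
        positivity
      rw [div_le_iff₀ h5]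
      exact hb z hz
  rw [hG] at key
  simp only at key
  rw [norm_div, norm_pow] at key
  have h5 : 0 < ‖s + (K : ℂ)‖ ^ N := by
    have := hone s h1
    positivity
  rwa [div_le_iff₀ h5] at key

end Pool.Agent.W505.PL
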