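import Mathlib
import Pool.Agent.H469R10.HO.Final
import Pool.Agent.W505.PL

set_option autoImplicit false

/-!
# Polynomial growth on vertical strips of the entire function of `H902R3.I469`
-/

namespace Pool.Agent.W505.AS

open Finset Pool.Agent.H469R10.HO Pool.Agent.H902R3.I469 Complex

/-- `Γ(z + N) = Γ(z) ∏_{j < N} (z + j)` divided by `Γ(z)`. -/
theorem gamma_ratio (z : ℂ) (N : ℕ) (h : ∀ n : ℕ, z ≠ -(n : ℂ)) :
    Gamma (z + N) * (Gamma z)⁻¹ = ∏ j ∈ range N, (z + j) := by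
  have hz := Gamma_ne_zero h
  induction N with
  | zero => simp [mul_inv_cancel₀ hz]
  | succ n ih =>
    rw [Finset.prod_range_succ, ← ih]
    have h1 : z + n ≠ 0 := by
      intro h2
      exact h n (by linear_combination h2)
    push_cast
    rw [← add_assoc, Gamma_add_one _ h1]
    ring

theorem norm_gamma_ratio_le (z : ℂ) (N : ℕ) :
    ‖Gamma (z + N)‖ * ‖(Gamma z)⁻¹‖ ≤ (‖z‖ + N) ^ N := by
  by_cases h : ∀ n : ℕ, z ≠ -(n : ℂ)
  · rw [← norm_mul, gamma_ratio z N h, norm_prod]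
    calc ∏ j ∈ range N, ‖z + (j : ℂ)‖ ≤ ∏ _j ∈ range N, (‖z‖ + N) := by
          apply Finset.prod_le_prod
          · intro _ _; exact norm_nonneg _
          · intro j hj
            refine (norm_add_le _ _).trans ?_
            rw [Complex.norm_natCast]
            have : (j : ℝ) ≤ N := by exact_mod_cast (Finset.mem_range.1 hj).le
            linarith
      _ = (‖z‖ + N) ^ N := by simp
  · push Not at h
    obtain ⟨n, hn⟩ := h
    have : Gamma z = 0 := by rw [hn]; exact Complex.Gamma_neg_nat_eq_zero n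
    rw [this]
    simp only [inv_zero, norm_zero, mul_zero]
    positivity

/-- bound on the half plane of absolute convergence -/
theorem bdd_right {m : ℕ} {β : ℕ → ℝ} {F : ℂ → ℂ}
    (hβ : ∀ p : ℕ, p.Prime → |β p| ≤ (p : ℝ) ^ (-(1 / 2 + m / lamOf m)))
    (hF : ∀ s : ℂ, 1 < s.re → F s = LSeries (ff m β) s) :
    ∃ B : ℝ, 0 ≤ B ∧ ∀ s : ℂ, 2 ≤ s.re → ‖F s‖ ≤ B := by
  have hs2 : LSeriesSummable (ff m β) 2 := summable_term hβ (by norm_num)
  refine ⟨∑' n, ‖LSeries.term (ff m β) 2 n‖, tsum_nonneg fun _ => norm_nonneg _, fun s hs => ?_⟩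
  rw [hF s (by linarith)]
  have hss : LSeriesSummable (ff m β) s := summable_term hβ (by linarith)
  refine (norm_tsum_le_tsum_norm hss.norm).trans ?_
  exact hss.norm.tsum_le_tsum (fun n => LSeries.norm_term_le_of_re_le_re _ (by simpa using hs) n) hs2.norm

/-- the left line -/
theorem left_line {m : ℕ} {c : ℝ} {Λ : ℂ → ℂ} {ε : ℝ} (hε : ε = 1 ∨ ε = -1)
    (hfe : ∀ z : ℂ, Λ ((2 * m + 2 : ℝ) - z) = ε * Λ z) {N : ℕ} {s : ℂ}
    (hs : 2 * lamOf m * s.re = lamOf m - N) :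
    ‖FF m c Λ s‖ ≤ Real.exp (-(N * Real.log c)) * ‖FF m c Λ (1 - s)‖ *
      (‖(lamOf m : ℂ) * s + 1 / 6‖ + N) ^ N := by
  obtain ⟨z, hz⟩ : ∃ z : ℂ, z = (lamOf m : ℂ) * s + 1 / 6 := ⟨_, rfl⟩
  have hk : (lamOf m : ℂ) * (1 - s) + 1 / 6 = (2 * m + 2 : ℝ) - z := by
    rw [hz]
    unfold lamOf
    push_cast
    ring
  have hzre : z.re = lamOf m * s.re + 1 / 6 := by
    rw [hz]; simp
  have hl : lamOf m = 2 * m + 2 - 1 / 3 := rfl
  have hzN : 2 * z.re = 2 * m + 2 - N := by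
    rw [hzre]; linarith
  have hm0 : (0 : ℝ) ≤ m := Nat.cast_nonneg m
  have hN0 : (0 : ℝ) ≤ N := Nat.cast_nonneg N
  -- conjugation
  have hconj : starRingEnd ℂ (((2 * m + 2 : ℝ) : ℂ) - z) = z + N := by
    apply Complex.ext
    · simp
      linarith
    · simp
  have hG : ‖Gamma (((2 * m + 2 : ℝ) : ℂ) - z)‖ = ‖Gamma (z + N)‖ := by
    rw [← hconj, Complex.Gamma_conj, Complex.norm_conj]
  have hGne : Gamma (((2 * m + 2 : ℝ) : ℂ) - z) ≠ 0 := by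
    apply Complex.Gamma_ne_zero_of_re_pos
    simp
    linarith
  have hΛ : ‖Λ z‖ = ‖Λ (((2 * m + 2 : ℝ) : ℂ) - z)‖ := by
    rw [hfe, norm_mul, Complex.norm_real]
    rcases hε with h | h <;> rw [h] <;> simp
  -- values
  have e1 : FF m c Λ s = Complex.exp ((Real.log c : ℂ) * (z - 2 * m - 1)) * (Λ z * (Gamma z)⁻¹) := by
    unfold FF
    rw [← hz]
  have e2 : FF m c Λ (1 - s) = Complex.exp ((Real.log c : ℂ) * (((2 * m + 2 : ℝ) - z) - 2 * m - 1)) *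
      (Λ (((2 * m + 2 : ℝ) : ℂ) - z) * (Gamma (((2 * m + 2 : ℝ) : ℂ) - z))⁻¹) := by
    unfold FF
    rw [← hk]
  rw [e1, e2, ← hz]
  simp only [norm_mul, Complex.norm_exp]
  rw [hΛ]
  have r1 : ((Real.log c : ℂ) * (z - 2 * m - 1)).re = Real.log c * (z.re - 2 * m - 1) := by
    rw [Complex.re_ofReal_mul]
    have : (z - 2 * (m : ℂ) - 1).re = z.re - 2 * m - 1 := by simp
    rw [this]
  have r2 : ((Real.log c : ℂ) * (((2 * m + 2 : ℝ) - z) - 2 * m - 1)).re =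
      Real.log c * (1 - z.re) := by
    rw [Complex.re_ofReal_mul]
    have : ((((2 * m + 2 : ℝ) : ℂ) - z) - 2 * (m : ℂ) - 1).re = 1 - z.re := by
      simp
      ring
    rw [this]
  rw [r1, r2]
  have r3 : Real.exp (Real.log c * (z.re - 2 * m - 1)) =
      Real.exp (-(N * Real.log c)) * Real.exp (Real.log c * (1 - z.re)) := by
    rw [← Real.exp_add]
    congr 1
    have : z.re = m + 1 - N / 2 := by linarith
    rw [this]
    ring
  rw [r3]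
  have r4 : ‖(Gamma z)⁻¹‖ ≤ ‖(Gamma (((2 * m + 2 : ℝ) : ℂ) - z))⁻¹‖ * (‖z‖ + N) ^ N := by
    have h1 := norm_gamma_ratio_le z N
    rw [← hG] at h1
    have h2 : 0 < ‖Gamma (((2 * m + 2 : ℝ) : ℂ) - z)‖ := norm_pos_iff.2 hGne
    rw [norm_inv (Gamma (((2 * m + 2 : ℝ) : ℂ) - z))]
    calc ‖(Gamma z)⁻¹‖ = ‖Gamma (((2 * m + 2 : ℝ) : ℂ) - z)‖⁻¹ *
          (‖Gamma (((2 * m + 2 : ℝ) : ℂ) - z)‖ * ‖(Gamma z)⁻¹‖) := by
          rw [← mul_assoc, inv_mul_cancel₀ h2.ne', one_mul]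
      _ ≤ ‖Gamma (((2 * m + 2 : ℝ) : ℂ) - z)‖⁻¹ * (‖z‖ + N) ^ N := by gcongr
  calc Real.exp (-(N * Real.log c)) * Real.exp (Real.log c * (1 - z.re)) *
        (‖Λ (((2 * m + 2 : ℝ) : ℂ) - z)‖ * ‖(Gamma z)⁻¹‖)
      ≤ Real.exp (-(N * Real.log c)) * Real.exp (Real.log c * (1 - z.re)) *
        (‖Λ (((2 * m + 2 : ℝ) : ℂ) - z)‖ *
          (‖(Gamma (((2 * m + 2 : ℝ) : ℂ) - z))⁻¹‖ * (‖z‖ + N) ^ N)) := by gcongr
    _ = _ := by ring

theorem FF_strip {m : ℕ} {c : ℝ} {Λ : ℂ → ℂ} {ε : ℝ} {β : ℕ → ℝ} (hε : ε = 1 ∨ ε = -1)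
    (hd : Differentiable ℂ (FF m c Λ))
    (hgr : ∃ ρ C' : ℝ, ∀ s : ℂ, ‖FF m c Λ s‖ ≤ C' * Real.exp (‖s‖ ^ ρ))
    (hβ : ∀ p : ℕ, p.Prime → |β p| ≤ (p : ℝ) ^ (-(1 / 2 + m / lamOf m)))
    (hF : ∀ s : ℂ, 1 < s.re → FF m c Λ s = LSeries (ff m β) s)
    (hfe : ∀ z : ℂ, Λ ((2 * m + 2 : ℝ) - z) = ε * Λ z) (σ₁ σ₂ : ℝ) :
    ∃ M C : ℝ, ∀ s : ℂ, σ₁ ≤ s.re → s.re ≤ σ₂ → ‖FF m c Λ s‖ ≤ C * (1 + |s.im|) ^ M := by
  obtain ⟨B, hB0, hB⟩ := bdd_right hβ hF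
  obtain ⟨ρ, C₀, hgr⟩ := hgr
  obtain ⟨C₁, hgr⟩ := Pool.Agent.W505.PL.growth_nonneg hd hgr
  have hl := lam_pos m
  -- choose `N`
  obtain ⟨N, hN⟩ := exists_nat_ge (lamOf m * (2 * |σ₁| + 2 * |σ₂| + 4))
  obtain ⟨a, ha⟩ : ∃ a : ℝ, a = (1 - N / lamOf m) / 2 := ⟨_, rfl⟩
  have hNl : 2 * |σ₁| + 2 * |σ₂| + 4 ≤ N / lamOf m := by
    rw [le_div_iff₀ hl]; linarith
  have haσ : a ≤ σ₁ := by
    have := neg_abs_le σ₁
    have := abs_nonneg σ₂
    linarith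
  have hbσ : σ₂ ≤ 1 - a := by
    have := le_abs_self σ₂
    have := abs_nonneg σ₁
    linarith
  have hb2 : 2 ≤ 1 - a := by
    have := abs_nonneg σ₁
    have := abs_nonneg σ₂
    linarith
  have ham : a ≤ -1 := by linarith
  obtain ⟨K, hK⟩ : ∃ K : ℝ, K = 1 - a := ⟨_, rfl⟩
  have hK0 : 0 ≤ K := by linarith
  obtain ⟨E, hE⟩ : ∃ E : ℝ, E = Real.exp (-(N * Real.log c)) := ⟨_, rfl⟩
  have hE0 : 0 < E := by rw [hE]; exact Real.exp_pos _
  obtain ⟨L, hL⟩ : ∃ L : ℝ, L = lamOf m + lamOf m * K + 1 + N := ⟨_, rfl⟩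
  have hL1 : 1 ≤ L := by
    have : 0 ≤ lamOf m * K := mul_nonneg hl.le hK0
    have : (0 : ℝ) ≤ N := Nat.cast_nonneg N
    linarith
  have hone : ∀ z : ℂ, a ≤ z.re → 1 ≤ ‖z + (K : ℂ)‖ := by
    intro z hz
    have h3 : (z + (K : ℂ)).re ≤ ‖z + (K : ℂ)‖ := (le_abs_self _).trans (Complex.abs_re_le_norm _)
    simp at h3
    linarith
  have key : ∀ s : ℂ, a ≤ s.re → s.re ≤ 1 - a → ‖FF m c Λ s‖ ≤ ((E + 1) * B * L ^ N) * ‖s + K‖ ^ N := by
    intro s h1 h2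
    refine Pool.Agent.W505.PL.strip hd (abs_nonneg ρ) hgr (a := a) (b := 1 - a) (K := K)
      (by linarith) (by linarith) ?_ ?_ h1 h2
    · intro s hs
      have h3 : 2 * lamOf m * s.re = lamOf m - N := by
        rw [hs, ha]; field_simp
      have h4 := left_line (c := c) hε hfe h3
      have h5 : ‖FF m c Λ (1 - s)‖ ≤ B := by
        apply hB
        simp
        linarith
      have h6 := hone s hs.ge
      have h7 : ‖(lamOf m : ℂ) * s + 1 / 6‖ + N ≤ L * ‖s + K‖ := by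
        have h8 : ‖(lamOf m : ℂ) * s + 1 / 6‖ ≤ lamOf m * ‖s‖ + 1 / 6 := by
          refine (norm_add_le _ _).trans ?_
          rw [norm_mul, Complex.norm_real, Real.norm_of_nonneg hl.le, norm_div, norm_one]
          norm_num
        have h9 : ‖s‖ ≤ ‖s + K‖ + K := by
          calc ‖s‖ = ‖(s + K) - K‖ := by simp
            _ ≤ ‖s + K‖ + ‖(K : ℂ)‖ := norm_sub_le _ _
            _ = ‖s + K‖ + K := by rw [Complex.norm_real, Real.norm_of_nonneg hK0]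
        have h10 : lamOf m * ‖s‖ ≤ lamOf m * ‖s + K‖ + lamOf m * K := by nlinarith
        have h11 : lamOf m * K ≤ lamOf m * K * ‖s + K‖ :=
          le_mul_of_one_le_right (mul_nonneg hl.le hK0) h6
        have h12 : (N : ℝ) ≤ N * ‖s + K‖ := le_mul_of_one_le_right (Nat.cast_nonneg N) h6
        rw [hL]
        linarith
      calc ‖FF m c Λ s‖ ≤ E * ‖FF m c Λ (1 - s)‖ * (‖(lamOf m : ℂ) * s + 1 / 6‖ + N) ^ N := by
            rw [hE]; exact h4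
        _ ≤ E * B * (L * ‖s + K‖) ^ N := by gcongr
        _ = (E * B * L ^ N) * ‖s + K‖ ^ N := by rw [mul_pow]; ring
        _ ≤ ((E + 1) * B * L ^ N) * ‖s + K‖ ^ N := by gcongr; linarith
    · intro s hs
      have h5 : ‖FF m c Λ s‖ ≤ B := hB s (by linarith)
      have h6 := hone s (by linarith)
      have h7 : 1 ≤ ‖s + (K : ℂ)‖ ^ N := one_le_pow₀ h6
      have h8 : 1 ≤ L ^ N := one_le_pow₀ hL1
      have h9 : 1 ≤ (E + 1) := by linarith
      calc ‖FF m c Λ s‖ ≤ B := h5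
        _ = 1 * B * 1 * 1 := by ring
        _ ≤ ((E + 1) * B * L ^ N) * ‖s + K‖ ^ N := by gcongr
  refine ⟨N, ((E + 1) * B * L ^ N) * (|a| + |1 - a| + K + 1) ^ N, fun s h1 h2 => ?_⟩
  have h3 := key s (haσ.trans h1) (h2.trans hbσ)
  have h4 : ‖s + (K : ℂ)‖ ≤ (|a| + |1 - a| + K + 1) * (1 + |s.im|) := by
    refine (norm_add_le _ _).trans ?_
    rw [Complex.norm_real, Real.norm_of_nonneg hK0]
    have h5 := Complex.norm_le_abs_re_add_abs_im s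
    have h6 : |s.re| ≤ |a| + |1 - a| := by
      rcases le_total 0 s.re with h0 | h0
      · rw [abs_of_nonneg h0]
        have := le_abs_self (1 - a)
        have := abs_nonneg a
        linarith [h2.trans hbσ]
      · rw [abs_of_nonpos h0]
        have := neg_abs_le a
        have := abs_nonneg (1 - a)
        linarith [haσ.trans h1]
    have h7 : 0 ≤ |a| := abs_nonneg _
    have h8 : 0 ≤ |1 - a| := abs_nonneg _
    have h9 : 0 ≤ |s.im| := abs_nonneg _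
    nlinarith [mul_nonneg h7 h9, mul_nonneg h8 h9, mul_nonneg hK0 h9]
  rw [Real.rpow_natCast]
  calc ‖FF m c Λ s‖ ≤ ((E + 1) * B * L ^ N) * ‖s + K‖ ^ N := h3
    _ ≤ ((E + 1) * B * L ^ N) * ((|a| + |1 - a| + K + 1) * (1 + |s.im|)) ^ N := by gcongr
    _ = _ := by rw [mul_pow]; ring

end Pool.Agent.W505.AS
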