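import Mathlib
import Pool.Agent.W505.AS1

set_option autoImplicit false

/-!
# Package: an entire Dirichlet series of non-integer degree, with polynomial growth on strips
-/

namespace Pool.Agent.W505.AS

open Finset Pool.Agent.H469R10.HO Pool.Agent.H902R3.I469 Complex

/-- everything about the example -/
theorem exists_example : ∃ (m : ℕ) (Q : ℝ) (ε : ℝ) (a : ℕ → ℝ) (F : ℂ → ℂ),
    0 < Q ∧ (ε = 1 ∨ ε = -1) ∧ a 1 = 1 ∧ (∀ n, |a n| ≤ 1) ∧ Differentiable ℂ F ∧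
    (∀ s : ℂ, 1 < s.re → LSeriesSummable (fun n => (a n : ℂ)) s ∧ F s = LSeries (fun n => (a n : ℂ)) s) ∧
    (∀ σ₁ σ₂ : ℝ, ∃ M C : ℝ, ∀ s : ℂ, σ₁ ≤ s.re → s.re ≤ σ₂ → ‖F s‖ ≤ C * (1 + |s.im|) ^ M) ∧
    (∀ s : ℂ, (∀ n : ℕ, ((lamOf m : ℝ) : ℂ) * s + 1 / 6 ≠ -(n : ℂ)) →
      (∀ n : ℕ, ((lamOf m : ℝ) : ℂ) * (1 - starRingEnd ℂ s) + 1 / 6 ≠ -(n : ℂ)) →
      F s * (Q : ℂ) ^ s * Gamma (((lamOf m : ℝ) : ℂ) * s + 1 / 6) =
        ε * starRingEnd ℂ (F (1 - starRingEnd ℂ s) * (Q : ℂ) ^ (1 - starRingEnd ℂ s) *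
          Gamma (((lamOf m : ℝ) : ℂ) * (1 - starRingEnd ℂ s) + 1 / 6))) := by
  have hF := Pool.Agent.H144R3.T469F.taskF
  have hG := Pool.Agent.H853R3.Bol.taskG
  obtain ⟨m, c, β, α, σ, hm, hc, hσ, hβ, hα, hsum, hrel⟩ := core
  have hl := lam_pos m
  have hl1 := lam_ge m
  -- the theta relation
  have hrel2 := hG m hm α (uu c (lamOf m)) hsum (uu_zero hl) (fun n hn => uu_pos hc hn) σ hσ hrel
  obtain ⟨ε, hε⟩ : ∃ ε : ℝ, ε = (-1) ^ (m + 1) * σ := ⟨_, rfl⟩
  have hε1 : ε = 1 ∨ ε = -1 := by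
    rw [hε]
    rcases neg_one_pow_eq_or ℝ (m + 1) with h | h <;> rcases hσ with h' | h' <;> rw [h, h'] <;> norm_num
  have hεε : ε * ε = 1 := by
    rcases hε1 with h | h <;> rw [h] <;> norm_num
  obtain ⟨Λ, hΛd, hΛfe, hΛc, hΛs, C, hΛg⟩ := hF c (lamOf m) (2 * m + 2) hc (by linarith)
    (by have : (0 : ℝ) ≤ m := Nat.cast_nonneg m
        linarith)
    (fun n => α n * uu c (lamOf m) n ^ (2 * m + 1))
    (by rw [uu_zero hl]; simp)
    (by
      refine Summable.of_nonneg_of_le (fun n => by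
        apply mul_nonneg (abs_nonneg _)
        apply Real.rpow_nonneg
        rcases Nat.eq_zero_or_pos n with h | h
        · rw [h, uu_zero hl]
        · exact (uu_pos hc h).le) (fun n => ?_) hsum
      rcases Nat.eq_zero_or_pos n with h | h
      · subst h
        rw [uu_zero hl]
        simp
      · have hu := uu_pos (lam := lamOf m) hc h
        rw [abs_mul, abs_of_pos (pow_pos hu _), mul_assoc, ← Real.rpow_natCast,
          ← Real.rpow_add hu]
        have : ((2 * m + 1 : ℕ) : ℝ) + -((2 * (m : ℝ) + 2) - 1) = 0 := by push_cast; ring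
        rw [this, Real.rpow_zero, mul_one])
    ε hε1
    (by
      intro t ht
      have h1 := hrel2 t ht
      rw [hε]
      have h2 : t ^ (2 * (m : ℝ) + 2) = t ^ (2 * m + 2) := by
        rw [← Real.rpow_natCast]
        push_cast
        rfl
      rw [h2]
      exact h1)
  have hFser : ∀ s : ℂ, 2 < s.re → FF m c Λ s = LSeries (ff m β) s := by
    intro s hs
    apply FF_series hc hα
    apply hΛs
    have hm0 : (0 : ℝ) ≤ m := Nat.cast_nonneg m
    have h1 : (((lamOf m : ℝ) : ℂ) * s + 1 / 6).re = lamOf m * s.re + 1 / 6 := by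
      simp
    rw [h1]
    have h2 : lamOf m * 2 ≤ lamOf m * s.re := by
      apply mul_le_mul_of_nonneg_left hs.le hl.le
    have h3 : lamOf m = 2 * m + 2 - 1 / 3 := rfl
    nlinarith
  have hgr := FF_growth (m := m) (c := c) hΛg
  have hser : ∀ s : ℂ, 1 < s.re → FF m c Λ s = LSeries (ff m β) s :=
    fun s hs => FF_eq hΛd hβ hFser hs
  refine ⟨m, Real.exp (-(lamOf m * Real.log c)), ε, fr m β, FF m c Λ, Real.exp_pos _, hε1, fr_one,
    abs_fr_le hβ, FF_diff hΛd, fun s hs => ⟨summable_term hβ hs, hser s hs⟩, ?_, ?_⟩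
  · exact FF_strip hε1 (FF_diff hΛd) hgr hβ hser hΛfe
  · intro s hs1 hs2
    have g1 := FF_completed (m := m) (c := c) (Λ := Λ) (s := s) hs1
    have g2 := FF_completed (m := m) (c := c) (Λ := Λ) (s := 1 - starRingEnd ℂ s) hs2
    rw [g1, g2, map_mul, Complex.conj_ofReal, ← hΛc]
    have h3 : starRingEnd ℂ (((lamOf m : ℝ) : ℂ) * (1 - starRingEnd ℂ s) + 1 / 6) =
        (((2 * (m : ℝ) + 2 : ℝ)) : ℂ) - (((lamOf m : ℝ) : ℂ) * s + 1 / 6) := by
      rw [map_add, map_mul, map_sub, map_one, Complex.conj_conj, Complex.conj_ofReal, map_div₀,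
        map_one]
      have h4 : starRingEnd ℂ (6 : ℂ) = 6 := Complex.conj_ofNat 6
      rw [h4]
      unfold lamOf
      push_cast
      ring
    rw [h3, hΛfe]
    have h5 : (ε : ℂ) * ε = 1 := by exact_mod_cast hεε
    linear_combination (-((Real.exp (Real.log c * (1 / 6 - 2 * m - 1)) : ℝ) : ℂ) *
      Λ (((lamOf m : ℝ) : ℂ) * s + 1 / 6)) * h5

end Pool.Agent.W505.AS
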