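import Mathlib
import Pool.Agent.W979.TE.Defs3

/-!
TE3-DICH: a nice tuple is rich, or a connector is popular.
-/

set_option autoImplicit false

open Classical

namespace Pool.Agent.W505.TE3

open Pool.Agent.W979.TE3

theorem rich_zero {A B : Type} [Fintype B] (r : A → B → Prop) (L k : ℕ) (Q : Fin k → A) :
    Rich r L 0 Q :=
  ⟨fun i => i.elim0, fun i => i.elim0, fun i => i.elim0, fun p => p.1.elim0, fun j => j.elim0⟩

theorem dich : S_DICH := by
  intro A B _ _ r L M k Q hk hN hR hF
  -- maximal family
  obtain ⟨m, hmM, hm, hm1⟩ : ∃ m, m < M ∧ Rich r L m Q ∧ ¬ Rich r L (m + 1) Q := by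
    by_contra hcon
    push Not at hcon
    have : ∀ m, m ≤ M → Rich r L m Q := by
      intro m
      induction m with
      | zero => intro _; exact rich_zero r L k Q
      | succ m ih => intro h; exact hcon m (by omega) (ih (by omega))
    exact hR (this M le_rfl)
  obtain ⟨u, y, hu, hy, hst⟩ := hm
  set Z : Finset B := Finset.univ.image (fun p : Fin m × Fin k => y p.1 p.2) with hZ
  set Y : Finset B := (Finset.univ.filter (fun p : Fin k × Fin k => p.1 ≠ p.2)).biUnion
    (fun p => cn r (Q p.1) (Q p.2)) with hY
  set W := Z ∪ Y with hW
  have hWc : W.card ≤ M * k + k ^ 2 * L := by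
    refine (Finset.card_union_le _ _).trans (Nat.add_le_add ?_ ?_)
    · refine Finset.card_image_le.trans ?_
      rw [Finset.card_univ, Fintype.card_prod, Fintype.card_fin, Fintype.card_fin]
      exact Nat.mul_le_mul_right _ hmM.le
    · refine (Finset.card_biUnion_le_card_mul _ _ L ?_).trans ?_
      · intro p hp
        rw [Finset.mem_filter] at hp
        exact (hN p.1 p.2 hp.2).2.le
      · apply Nat.mul_le_mul_right
        refine (Finset.card_filter_le _ _).trans ?_
        rw [Finset.card_univ, Fintype.card_prod, Fintype.card_fin, pow_two]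
  have hcov : ∀ a ∈ Ft r L Q, ∃ w ∈ W, r a w := by
    intro a ha
    unfold Ft at ha
    rw [Finset.mem_filter] at ha
    have ha2 := ha.2
    have hex : ∀ i, ∃ b, r a b ∧ r (Q i) b := by
      intro i
      obtain ⟨b, hb⟩ := (ha2 i).2.1
      unfold cn at hb
      rw [Finset.mem_filter] at hb
      exact ⟨b, hb.2⟩
    choose yy hyy using hex
    by_cases hinj : Function.Injective yy
    · by_cases hau : ∃ c, u c = a
      · obtain ⟨c, hc⟩ := hau
        refine ⟨y c ⟨0, hk⟩, ?_, ?_⟩
        · rw [hW, Finset.mem_union]
          left
          rw [hZ, Finset.mem_image]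
          exact ⟨(c, ⟨0, hk⟩), Finset.mem_univ _, rfl⟩
        · rw [← hc]
          exact ((hst c).1 ⟨0, hk⟩).1
      · by_cases hyZ : ∃ i, yy i ∈ Z
        · obtain ⟨i, hi⟩ := hyZ
          exact ⟨yy i, Finset.mem_union_left _ hi, (hyy i).1⟩
        · exfalso
          apply hm1
          push Not at hau hyZ
          refine ⟨Fin.cons a u, Fin.cons yy y, ?_, ?_, ?_⟩
          · rw [Fin.cons_injective_iff]
            refine ⟨?_, hu⟩
            rintro ⟨c, hc⟩
            exact hau c hc
          · rintro ⟨c, i⟩ ⟨c', i'⟩ h
            simp only at h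
            induction c using Fin.cases with
            | zero =>
              induction c' using Fin.cases with
              | zero =>
                simp only [Fin.cons_zero] at h
                rw [hinj h]
              | succ c' =>
                simp only [Fin.cons_zero, Fin.cons_succ] at h
                exfalso
                apply hyZ i
                rw [hZ, Finset.mem_image]
                exact ⟨(c', i'), Finset.mem_univ _, h.symm⟩
            | succ c =>
              induction c' using Fin.cases with
              | zero =>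
                simp only [Fin.cons_zero, Fin.cons_succ] at h
                exfalso
                apply hyZ i'
                rw [hZ, Finset.mem_image]
                exact ⟨(c, i), Finset.mem_univ _, h⟩
              | succ c' =>
                simp only [Fin.cons_succ] at h
                have := @hy (c, i) (c', i') h
                simp only [Prod.mk.injEq] at this
                rw [this.1, this.2]
          · intro c
            induction c using Fin.cases with
            | zero =>
              simp only [Fin.cons_zero]
              exact ⟨hyy, hinj, ha2⟩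
            | succ c =>
              simp only [Fin.cons_succ]
              exact hst c
    · unfold Function.Injective at hinj
      push Not at hinj
      obtain ⟨i, j, hij, hne⟩ := hinj
      refine ⟨yy i, ?_, (hyy i).1⟩
      rw [hW, Finset.mem_union]
      right
      rw [hY, Finset.mem_biUnion]
      refine ⟨(i, j), by simp [hne], ?_⟩
      unfold cn
      rw [Finset.mem_filter]
      refine ⟨Finset.mem_univ _, (hyy i).2, ?_⟩
      rw [hij]
      exact (hyy j).2
  have hadj : ∀ w ∈ W, ∃ i, r (Q i) w := by
    intro w hw
    rw [hW, Finset.mem_union] at hw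
    rcases hw with hw | hw
    · rw [hZ, Finset.mem_image] at hw
      obtain ⟨p, _, rfl⟩ := hw
      exact ⟨p.2, ((hst p.1).1 p.2).2⟩
    · rw [hY, Finset.mem_biUnion] at hw
      obtain ⟨p, _, hp⟩ := hw
      unfold cn at hp
      rw [Finset.mem_filter] at hp
      exact ⟨p.1, hp.2.1⟩
  have hWne : W.Nonempty := by
    obtain ⟨a, ha⟩ := hF
    obtain ⟨w, hw, _⟩ := hcov a ha
    exact ⟨w, hw⟩
  obtain ⟨w, hw, hmax⟩ := Finset.exists_max_image W
    (fun w => ((Ft r L Q).filter (fun a => r a w)).card) hWne
  obtain ⟨i, hi⟩ := hadj w hw
  refine ⟨w, i, hi, ?_⟩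
  have h1 : Ft r L Q ⊆ W.biUnion (fun w => (Ft r L Q).filter (fun a => r a w)) := by
    intro a ha
    obtain ⟨w', hw', hr⟩ := hcov a ha
    rw [Finset.mem_biUnion]
    exact ⟨w', hw', Finset.mem_filter.2 ⟨ha, hr⟩⟩
  calc (Ft r L Q).card ≤ (W.biUnion (fun w => (Ft r L Q).filter (fun a => r a w))).card :=
        Finset.card_le_card h1
    _ ≤ W.card * ((Ft r L Q).filter (fun a => r a w)).card :=
        Finset.card_biUnion_le_card_mul _ _ _ hmax
    _ ≤ (M * k + k ^ 2 * L) * ((Ft r L Q).filter (fun a => r a w)).card :=
        Nat.mul_le_mul_right _ hWc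

end Pool.Agent.W505.TE3
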