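import Mathlib
import Pool.Agent.W979.TE.Defs3

/-!
TE3-NB, TE3-E1: few non-nice tuples; second moment bound.
-/

set_option autoImplicit false

open Classical

namespace Pool.Agent.W505.TE3

open Pool.Agent.W979.TE3

theorem card_tuples {A : Type} [Fintype A] (k : ℕ) (i j : Fin k) (hij : i ≠ j) (X : Finset A)
    (P : Finset (A × A)) :
    (Finset.univ.filter (fun Q : Fin k → A => (∀ l, Q l ∈ X) ∧ (Q i, Q j) ∈ P)).card ≤
      P.card * X.card ^ (k - 2) := by
  have hcard : Fintype.card {l : Fin k // l ≠ i ∧ l ≠ j} = k - 2 := by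
    rw [Fintype.card_subtype]
    have : (Finset.univ.filter (fun l : Fin k => l ≠ i ∧ l ≠ j)) =
        Finset.univ \ ({i, j} : Finset (Fin k)) := by
      ext l
      simp
    rw [this, Finset.card_sdiff_of_subset (Finset.subset_univ _), Finset.card_univ, Fintype.card_fin,
      Finset.card_pair hij]
  have h1 : (Finset.univ.filter (fun Q : Fin k → A => (∀ l, Q l ∈ X) ∧ (Q i, Q j) ∈ P)).card ≤
      (P ×ˢ (Fintype.piFinset (fun _ : {l : Fin k // l ≠ i ∧ l ≠ j} => X))).card := by
    apply Finset.card_le_card_of_injOn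
      (fun Q => ((Q i, Q j), fun l : {l : Fin k // l ≠ i ∧ l ≠ j} => Q l.1))
    · intro Q hQ
      rw [Finset.mem_coe, Finset.mem_filter] at hQ
      rw [Finset.mem_coe, Finset.mem_product]
      refine ⟨hQ.2.2, ?_⟩
      rw [Fintype.mem_piFinset]
      intro l
      exact hQ.2.1 l.1
    · intro Q _ Q' _ h
      simp only [Prod.mk.injEq] at h
      obtain ⟨⟨h1, h2⟩, h3⟩ := h
      funext l
      by_cases hi : l = i
      · rw [hi]; exact h1
      by_cases hj : l = j
      · rw [hj]; exact h2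
      exact congrFun h3 ⟨l, hi, hj⟩
  rw [Finset.card_product, Fintype.card_piFinset, Finset.prod_const, Finset.card_univ, hcard] at h1
  exact h1

theorem nb : S_E0 → S_NB := by
  intro hE s q t k β hβ
  have hk0 : (0 : ℝ) < (k : ℝ) ^ 2 + 1 := by positivity
  obtain ⟨N0, hN0⟩ := hE s q t (β / ((k : ℝ) ^ 2 + 1)) (by positivity)
  refine ⟨N0, ?_⟩
  intro A B _ _ r X hS hX
  set P := (X ×ˢ X).filter (fun p : A × A => p.1 = p.2 ∨ LT s q t ≤ (cn r p.1 p.2).card) with hP
  have hPc : (P.card : ℝ) ≤ β / ((k : ℝ) ^ 2 + 1) * (X.card : ℝ) ^ 2 := by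
    by_contra hcon
    push Not at hcon
    exact hS (hN0 A B r X hX hcon.le)
  set 𝒬 := Finset.univ.filter (fun Q : Fin k → A => (∀ i, Q i ∈ X) ∧ ¬ Nice r (LT s q t) Q) with h𝒬
  have hsub : 𝒬 ⊆ (Finset.univ.filter (fun p : Fin k × Fin k => p.1 ≠ p.2)).biUnion
      (fun p => Finset.univ.filter (fun Q : Fin k → A => (∀ l, Q l ∈ X) ∧ (Q p.1, Q p.2) ∈ P)) := by
    intro Q hQ
    rw [h𝒬, Finset.mem_filter] at hQ
    obtain ⟨_, hQX, hQn⟩ := hQ
    unfold Nice at hQn
    push Not at hQn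
    obtain ⟨i, j, hij, hn⟩ := hQn
    rw [Finset.mem_biUnion]
    refine ⟨(i, j), by simp [hij], ?_⟩
    rw [Finset.mem_filter]
    refine ⟨Finset.mem_univ _, hQX, ?_⟩
    rw [hP, Finset.mem_filter, Finset.mem_product]
    refine ⟨⟨hQX i, hQX j⟩, ?_⟩
    by_cases h : Q i = Q j
    · exact Or.inl h
    · exact Or.inr (hn h)
  have hcard : 𝒬.card ≤ k ^ 2 * (P.card * X.card ^ (k - 2)) := by
    refine (Finset.card_le_card hsub).trans ?_
    refine (Finset.card_biUnion_le_card_mul _ _ (P.card * X.card ^ (k - 2)) ?_).trans ?_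
    · intro p hp
      rw [Finset.mem_filter] at hp
      exact card_tuples k p.1 p.2 hp.2 X P
    · apply Nat.mul_le_mul_right
      refine (Finset.card_filter_le _ _).trans ?_
      rw [Finset.card_univ, Fintype.card_prod, Fintype.card_fin, pow_two]
  by_cases hk : k ≤ 1
  · -- no pairs
    have h0 : 𝒬 = ∅ := by
      rw [Finset.eq_empty_iff_forall_notMem]
      intro Q hQ
      have := hsub hQ
      rw [Finset.mem_biUnion] at this
      obtain ⟨p, hp, _⟩ := this
      rw [Finset.mem_filter] at hp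
      apply hp.2
      apply Fin.ext
      have h1 := p.1.2
      have h2 := p.2.2
      omega
    rw [h0]
    simp
    positivity
  · have hcard' : (𝒬.card : ℝ) ≤ (k : ℝ) ^ 2 * ((P.card : ℝ) * (X.card : ℝ) ^ (k - 2)) := by
      exact_mod_cast hcard
    refine hcard'.trans ?_
    have e1 : (X.card : ℝ) ^ k = (X.card : ℝ) ^ 2 * (X.card : ℝ) ^ (k - 2) := by
      rw [← pow_add]
      congr 1
      omega
    rw [e1]
    calc (k : ℝ) ^ 2 * ((P.card : ℝ) * (X.card : ℝ) ^ (k - 2)) ≤
          (k : ℝ) ^ 2 * ((β / ((k : ℝ) ^ 2 + 1) * (X.card : ℝ) ^ 2) * (X.card : ℝ) ^ (k - 2)) := by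
          gcongr
      _ = ((k : ℝ) ^ 2 / ((k : ℝ) ^ 2 + 1)) * (β * ((X.card : ℝ) ^ 2 * (X.card : ℝ) ^ (k - 2))) := by
          ring
      _ ≤ 1 * (β * ((X.card : ℝ) ^ 2 * (X.card : ℝ) ^ (k - 2))) := by
          gcongr
          rw [div_le_one hk0]
          linarith
      _ = β * ((X.card : ℝ) ^ 2 * (X.card : ℝ) ^ (k - 2)) := one_mul _

theorem e1 : S_E0 → S_E1 := by
  intro hE s q t
  obtain ⟨N0, hN0⟩ := hE s q t (1 / 2) (by norm_num)
  refine ⟨max N0 1, by omega, ?_⟩
  intro A B _ _ r X hS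
  set L := LT s q t with hL
  -- good pairs
  set G : B → Finset (A × A) := fun y => ((X ×ˢ X).filter (fun p : A × A =>
    (cn r p.1 p.2).card < L)).filter (fun p => y ∈ cn r p.1 p.2) with hG
  have h1 : ∀ y ∈ Finset.univ.filter (fun y : B => max N0 1 ≤ (X.filter (fun x => r x y)).card),
      (X.filter (fun x => r x y)).card ^ 2 ≤ 2 * (G y).card := by
    intro y hy
    rw [Finset.mem_filter] at hy
    set F := X.filter (fun x => r x y) with hF
    have h2 : ¬ ((1 / 2 : ℝ) * (F.card : ℝ) ^ 2 ≤ (((F ×ˢ F).filter (fun p : A × A =>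
      p.1 = p.2 ∨ LT s q t ≤ (cn r p.1 p.2).card)).card : ℝ)) := fun hcon =>
      hS (hN0 A B r F ((le_max_left _ _).trans hy.2) hcon)
    push Not at h2
    have h3 : ((F ×ˢ F).filter (fun p : A × A =>
        ¬ (p.1 = p.2 ∨ LT s q t ≤ (cn r p.1 p.2).card))) ⊆ G y := by
      intro p hp
      rw [Finset.mem_filter, Finset.mem_product, hF, Finset.mem_filter, Finset.mem_filter] at hp
      obtain ⟨⟨⟨a1, a2⟩, b1, b2⟩, hp2⟩ := hp
      push Not at hp2
      simp only [hG]
      rw [Finset.mem_filter, Finset.mem_filter, Finset.mem_product]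
      refine ⟨⟨⟨a1, b1⟩, hp2.2⟩, ?_⟩
      unfold cn
      rw [Finset.mem_filter]
      exact ⟨Finset.mem_univ _, a2, b2⟩
    have h4 := Finset.card_le_card h3
    have h5 := Finset.card_filter_add_card_filter_not (s := F ×ˢ F) (fun p : A × A =>
      p.1 = p.2 ∨ LT s q t ≤ (cn r p.1 p.2).card)
    rw [Finset.card_product] at h5
    have h6 : (((F ×ˢ F).filter (fun p : A × A =>
      p.1 = p.2 ∨ LT s q t ≤ (cn r p.1 p.2).card)).card : ℝ) + ((F ×ˢ F).filter (fun p : A × A =>
        ¬ (p.1 = p.2 ∨ LT s q t ≤ (cn r p.1 p.2).card))).card = (F.card : ℝ) * F.card := by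
      exact_mod_cast h5
    have h7 : (((F ×ˢ F).filter (fun p : A × A =>
        ¬ (p.1 = p.2 ∨ LT s q t ≤ (cn r p.1 p.2).card))).card : ℝ) ≤ (G y).card := by
      exact_mod_cast h4
    have h8 : (F.card : ℝ) ^ 2 ≤ 2 * (G y).card := by nlinarith
    exact_mod_cast h8
  refine (Finset.sum_le_sum h1).trans ?_
  rw [← Finset.mul_sum]
  have h2 : ∑ y ∈ Finset.univ.filter (fun y : B => max N0 1 ≤ (X.filter (fun x => r x y)).card),
      (G y).card ≤ ∑ y : B, (G y).card :=
    Finset.sum_le_sum_of_subset (Finset.filter_subset _ _)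
  have h3 : ∑ y : B, (G y).card = ∑ p ∈ (X ×ˢ X).filter (fun p : A × A =>
      (cn r p.1 p.2).card < L), (cn r p.1 p.2).card := by
    simp only [hG, Finset.card_filter]
    rw [Finset.sum_comm]
    apply Finset.sum_congr rfl
    intro p _
    rw [← Finset.card_filter]
    congr 1
    ext y
    simp
  have h4 : ∑ p ∈ (X ×ˢ X).filter (fun p : A × A => (cn r p.1 p.2).card < L),
      (cn r p.1 p.2).card ≤ L * X.card ^ 2 := by
    calc ∑ p ∈ (X ×ˢ X).filter (fun p : A × A => (cn r p.1 p.2).card < L), (cn r p.1 p.2).card ≤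
        ∑ p ∈ (X ×ˢ X).filter (fun p : A × A => (cn r p.1 p.2).card < L), L := by
          apply Finset.sum_le_sum
          intro p hp
          rw [Finset.mem_filter] at hp
          exact hp.2.le
      _ = ((X ×ˢ X).filter (fun p : A × A => (cn r p.1 p.2).card < L)).card * L := by
          rw [Finset.sum_const, smul_eq_mul]
      _ ≤ (X.card * X.card) * L := by
          apply Nat.mul_le_mul_right
          refine (Finset.card_filter_le _ _).trans ?_
          rw [Finset.card_product]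
      _ = L * X.card ^ 2 := by ring
  calc 2 * ∑ y ∈ Finset.univ.filter (fun y : B => max N0 1 ≤ (X.filter (fun x => r x y)).card),
        (G y).card ≤ 2 * (L * X.card ^ 2) := by
        apply Nat.mul_le_mul_left
        exact (h2.trans h3.le).trans h4
    _ = 2 * L * X.card ^ 2 := by ring

end Pool.Agent.W505.TE3
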