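import Pool.Agent.W894.HT.Gr

/-!
# HT-CLEAN: the parity of the number of paths is the parity of the number of clean paths
-/

set_option autoImplicit false

namespace Pool.Agent.W505.HTClean
open Pool.Agent.W894.HT

/-! ## infixes -/

section
variable {N : Type}

/-- consecutive elements across a cut -/
theorem pair_append (s t u v : N) (A B : List N) :
    [s, t] <:+: A ++ u :: v :: B ↔ [s, t] <:+: A ++ [u] ∨ (s = u ∧ t = v) ∨ [s, t] <:+: v :: B := by
  induction A with
  | nil =>
    simp only [List.nil_append]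
    rw [List.infix_cons_iff]
    constructor
    · rintro (h | h)
      · rw [List.cons_prefix_cons, List.cons_prefix_cons] at h
        exact Or.inr (Or.inl ⟨h.1, h.2.1⟩)
      · exact Or.inr (Or.inr h)
    · rintro (h | ⟨rfl, rfl⟩ | h)
      · exfalso
        have := h.length_le
        simp at this
      · left
        rw [List.cons_prefix_cons, List.cons_prefix_cons]
        exact ⟨rfl, rfl, List.nil_prefix⟩
      · exact Or.inr h
  | cons a A ih =>
    simp only [List.cons_append]
    have h2 : [s, t] <:+: a :: (A ++ [u]) ↔ [s, t] <+: a :: (A ++ [u]) ∨ [s, t] <:+: A ++ [u] :=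
      List.infix_cons_iff
    rw [List.infix_cons_iff, ih, h2]
    have h1 : [s, t] <+: a :: (A ++ u :: v :: B) ↔ [s, t] <+: a :: (A ++ [u]) := by
      rw [List.cons_prefix_cons, List.cons_prefix_cons]
      cases A with
      | nil => simp [List.cons_prefix_cons]
      | cons b A => simp [List.cons_prefix_cons]
    rw [h1]
    tauto

theorem pair_cons (s t u : N) (L : List N) :
    [s, t] <:+: u :: L ↔ (s = u ∧ L.head? = some t) ∨ [s, t] <:+: L := by
  rw [List.infix_cons_iff]
  constructor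
  · rintro (h | h)
    · left
      rw [List.cons_prefix_cons] at h
      refine ⟨h.1, ?_⟩
      cases L with
      | nil => simp at h
      | cons v L =>
        rw [List.cons_prefix_cons] at h
        simp [h.2.1]
    · exact Or.inr h
  · rintro (⟨rfl, h⟩ | h)
    · left
      cases L with
      | nil => simp at h
      | cons v L =>
        simp only [List.head?_cons, Option.some.injEq] at h
        subst h
        rw [List.cons_prefix_cons, List.cons_prefix_cons]
        exact ⟨rfl, rfl, List.nil_prefix⟩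
    · exact Or.inr h

theorem pair_mem {s t : N} {l : List N} (h : [s, t] <:+: l) : s ∈ l ∧ t ∈ l :=
  ⟨h.subset (by simp), h.subset (by simp)⟩

/-- a pair is not changed by the insertion of a block -/
theorem pair_toggle {s t u v : N} {w A B : List N} (hw : w ≠ []) (h1 : s ∉ w) (h2 : t ∉ w)
    (h3 : ¬ (s = u ∧ t = v)) :
    [s, t] <:+: A ++ u :: v :: B ↔ [s, t] <:+: A ++ u :: (w ++ v :: B) := by
  rw [pair_append]
  have e1 : [s, t] <:+: A ++ u :: (w ++ v :: B) ↔ [s, t] <:+: A ++ [u] ∨ [s, t] <:+: v :: B := by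
    have key : ∀ (w : List N) (u : N), w ≠ [] → s ∉ w → t ∉ w →
        ([s, t] <:+: u :: (w ++ v :: B) ↔ [s, t] <:+: v :: B) := by
      intro w
      induction w with
      | nil => intro u h; exact absurd rfl h
      | cons a w ih =>
        intro u _ hs ht
        rw [List.mem_cons, not_or] at hs ht
        rw [List.cons_append, pair_cons]
        have e2 : ¬ (s = u ∧ (a :: (w ++ v :: B)).head? = some t) := by
          rintro ⟨_, h⟩
          simp only [List.head?_cons, Option.some.injEq] at h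
          exact ht.1 h.symm
        rw [or_iff_right e2]
        rcases eq_or_ne w [] with rfl | hw
        · rw [List.nil_append, pair_cons]
          have e3 : ¬ (s = a ∧ (v :: B).head? = some t) := fun h => hs.1 h.1
          rw [or_iff_right e3]
        · exact ih a hw hs.2 ht.2
    obtain ⟨a, w', rfl⟩ := List.exists_cons_of_ne_nil hw
    rw [List.cons_append, pair_append]
    rw [List.mem_cons, not_or] at h1 h2
    have e2 : ¬ (s = u ∧ t = a) := fun h => h2.1 h.2
    rw [or_iff_right e2]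
    rcases eq_or_ne w' [] with rfl | hw'
    · rw [List.nil_append, pair_cons]
      have e3 : ¬ (s = a ∧ (v :: B).head? = some t) := fun h => h1.1 h.1
      rw [or_iff_right e3]
    · rw [key w' a hw' h1.2 h2.2]
  rw [e1, or_iff_right h3]

/-- in a list without repetitions a word is an infix iff its pairs are -/
theorem infix_cons_cons {l : List N} (hl : l.Nodup) (s t : N) (W : List N) :
    s :: t :: W <:+: l ↔ [s, t] <:+: l ∧ t :: W <:+: l := by
  constructor
  · intro h
    refine ⟨List.IsInfix.trans ⟨[], W, by simp⟩ h, List.IsInfix.trans ⟨[s], [], by simp⟩ h⟩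
  · rintro ⟨⟨A, B, h1⟩, ⟨C, D, h2⟩⟩
    have e1 : (A ++ [s]) ++ t :: B = l := by rw [← h1]; simp
    have e2 : C ++ t :: (W ++ D) = l := by rw [← h2]; simp
    have n1 : t ∉ A ++ [s] := by
      rw [← e1, List.nodup_middle, List.nodup_cons] at hl
      intro h
      exact hl.1 (List.mem_append_left _ h)
    have n2 : t ∉ B := by
      rw [← e1, List.nodup_middle, List.nodup_cons] at hl
      intro h
      exact hl.1 (List.mem_append_right _ h)
    have e3 : (A ++ [s]) ++ t :: B = C ++ t :: (W ++ D) := by rw [e1, e2]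
    have e4 := (List.append_cons_inj_of_notMem n1 n2).1 e3
    refine ⟨A, D, ?_⟩
    rw [← e1, e4.2.2]
    simp

/-- the toggle of a block does not change a pattern of five -/
theorem five_toggle {l l' : List N} (hl : l.Nodup) (hl' : l'.Nodup) {a b c d e : N}
    (h1 : [a, b] <:+: l ↔ [a, b] <:+: l') (h2 : [b, c] <:+: l ↔ [b, c] <:+: l')
    (h3 : [c, d] <:+: l ↔ [c, d] <:+: l') (h4 : [d, e] <:+: l ↔ [d, e] <:+: l') :
    [a, b, c, d, e] <:+: l ↔ [a, b, c, d, e] <:+: l' := by
  rw [infix_cons_cons hl a b [c, d, e], infix_cons_cons hl b c [d, e], infix_cons_cons hl c d [e],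
    infix_cons_cons hl' a b [c, d, e], infix_cons_cons hl' b c [d, e],
    infix_cons_cons hl' c d [e], h1, h2, h3, h4]

theorem CL_toggle {p q a x y u v : N} {w A B : List N} (hw : w ≠ [])
    (hnd : (A ++ u :: (w ++ v :: B)).Nodup) (hp : p ∉ w) (hq : q ∉ w) (ha : a ∉ w) (hx : x ∉ w)
    (hy : y ∉ w) (hux : u ≠ x) (huy : u ≠ y) (hvx : v ≠ x) (hvy : v ≠ y)
    (hpq : ¬ (p = u ∧ q = v)) (hqp : ¬ (q = u ∧ p = v)) :
    CL p q a x y (A ++ u :: v :: B) ↔ CL p q a x y (A ++ u :: (w ++ v :: B)) := by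
  have hsub : (A ++ u :: v :: B).Sublist (A ++ u :: (w ++ v :: B)) :=
    List.Sublist.append_left (List.Sublist.cons_cons u (List.sublist_append_right w (v :: B))) A
  have hnd' : (A ++ u :: v :: B).Nodup := hnd.sublist hsub
  have hm : ∀ z, z ∉ w → (z ∈ A ++ u :: v :: B ↔ z ∈ A ++ u :: (w ++ v :: B)) := by
    intro z hz
    simp only [List.mem_append, List.mem_cons]
    tauto
  have P : ∀ s t : N, s ∉ w → t ∉ w → ¬ (s = u ∧ t = v) →
      ([s, t] <:+: A ++ u :: v :: B ↔ [s, t] <:+: A ++ u :: (w ++ v :: B)) :=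
    fun s t h1 h2 h3 => pair_toggle hw h1 h2 h3
  unfold CL
  rw [hm x hx, hm y hy, P p q hp hq hpq, P q p hq hp hqp,
    five_toggle hnd' hnd (P p y hp hy (fun h => hvy h.2.symm)) (P y a hy ha (fun h => huy h.1.symm))
      (P a x ha hx (fun h => hvx h.2.symm)) (P x q hx hq (fun h => hux h.1.symm)),
    five_toggle hnd' hnd (P q x hq hx (fun h => hvx h.2.symm)) (P x a hx ha (fun h => hux h.1.symm))
      (P a y ha hy (fun h => hvy h.2.symm)) (P y p hy hp (fun h => huy h.1.symm))]

end

/-! ## the edges -/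

/-- a route of a stage -/
def rt (α : Bool) (st : List Lb × List Lb) : List Lb := if α = true then st.2 else st.1

theorem mem_rE {k : ℕ} {α : Bool} {L : List Lb} {e : Nm × Nm} : e ∈ rE k α L ↔
    e = (hub k, rv k α 0) ∨ (∃ i a, L[i]? = some a ∧ e ∈ gE k α i a) ∨
      e = (rv k α L.length, hub (k + 1)) := by
  unfold rE
  rw [List.cons_append, List.mem_cons, List.mem_append, List.mem_flatMap, List.mem_singleton]
  refine or_congr Iff.rfl (or_congr ?_ Iff.rfl)
  constructor
  · rintro ⟨⟨a, i⟩, h1, h2⟩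
    rw [List.mem_zipIdx_iff_getElem?] at h1
    exact ⟨i, a, h1, h2⟩
  · rintro ⟨i, a, h1, h2⟩
    exact ⟨(a, i), List.mem_zipIdx_iff_getElem?.2 h1, h2⟩

theorem mem_EE {S : Stg} {e : Nm × Nm} : e ∈ EE S ↔
    ∃ k st α, S[k]? = some st ∧ e ∈ rE k α (rt α st) := by
  unfold EE
  rw [List.mem_flatMap]
  constructor
  · rintro ⟨⟨st, k⟩, h1, h2⟩
    rw [List.mem_zipIdx_iff_getElem?] at h1
    rw [List.mem_append] at h2
    rcases h2 with h2 | h2
    · exact ⟨k, st, false, h1, h2⟩
    · exact ⟨k, st, true, h1, h2⟩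
  · rintro ⟨k, st, α, h1, h2⟩
    refine ⟨(st, k), List.mem_zipIdx_iff_getElem?.2 h1, ?_⟩
    rw [List.mem_append]
    cases α
    · exact Or.inl h2
    · exact Or.inr h2

theorem mem_gads {S : Stg} {k i : ℕ} {α : Bool} {a : Lb} : (k, α, i, a) ∈ gads S ↔
    ∃ st, S[k]? = some st ∧ (rt α st)[i]? = some a := by
  unfold gads
  rw [List.mem_flatMap]
  constructor
  · rintro ⟨⟨st, k'⟩, h1, h2⟩
    rw [List.mem_zipIdx_iff_getElem?] at h1
    rw [List.mem_append, List.mem_map, List.mem_map] at h2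
    rcases h2 with ⟨⟨b, j⟩, h3, h4⟩ | ⟨⟨b, j⟩, h3, h4⟩
    · rw [List.mem_zipIdx_iff_getElem?] at h3
      simp only [Prod.mk.injEq] at h4
      obtain ⟨rfl, rfl, rfl, rfl⟩ := h4
      exact ⟨st, h1, h3⟩
    · rw [List.mem_zipIdx_iff_getElem?] at h3
      simp only [Prod.mk.injEq] at h4
      obtain ⟨rfl, rfl, rfl, rfl⟩ := h4
      exact ⟨st, h1, h3⟩
  · rintro ⟨st, h1, h2⟩
    refine ⟨(st, k), List.mem_zipIdx_iff_getElem?.2 h1, ?_⟩
    rw [List.mem_append, List.mem_map, List.mem_map]
    cases α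
    · exact Or.inl ⟨(a, i), List.mem_zipIdx_iff_getElem?.2 h2, rfl⟩
    · exact Or.inr ⟨(a, i), List.mem_zipIdx_iff_getElem?.2 h2, rfl⟩

theorem gE_mem {S : Stg} {k i : ℕ} {α : Bool} {a : Lb} (h : (k, α, i, a) ∈ gads S)
    {e : Nm × Nm} (he : e ∈ gE k α i a) : e ∈ EE S := by
  obtain ⟨st, h1, h2⟩ := mem_gads.1 h
  exact mem_EE.2 ⟨k, st, α, h1, mem_rE.2 (Or.inr (Or.inl ⟨i, a, h2, he⟩))⟩

theorem adS_symm (S : Stg) (u v : Nm) : adS S u v = adS S v u := by
  unfold adS
  rw [Bool.or_comm]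

theorem adS_iff {S : Stg} {u v : Nm} : adS S u v = true ↔ (u, v) ∈ EE S ∨ (v, u) ∈ EE S := by
  unfold adS
  rw [Bool.or_eq_true, decide_eq_true_eq, decide_eq_true_eq]

theorem adS_of {S : Stg} {k i : ℕ} {α : Bool} {a : Lb} (h : (k, α, i, a) ∈ gads S)
    {u v : Nm} (he : (u, v) ∈ gE k α i a) : adS S u v = true ∧ adS S v u = true :=
  ⟨adS_iff.2 (Or.inl (gE_mem h he)), adS_iff.2 (Or.inr (gE_mem h he))⟩

/-- the neighbours of `xv` -/
theorem nb_xv {S : Stg} {k i : ℕ} {α : Bool} {a : Lb} (h : (k, α, i, a) ∈ gads S) {b : Nm}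
    (hb : adS S b (xv k α i) = true) : b = yv k α i ∨ b = rv k α (i + 1) ∨ b = sh a := by
  obtain ⟨st, h1, h2⟩ := mem_gads.1 h
  rw [adS_iff] at hb
  rcases hb with hb | hb
  · obtain ⟨k', st', α', h3, h4⟩ := mem_EE.1 hb
    rcases mem_rE.1 h4 with h5 | ⟨i', a', h5, h6⟩ | h5
    · simp [xv, rv] at h5
    · unfold gE at h6
      simp only [List.mem_cons, Prod.mk.injEq, List.not_mem_nil, or_false] at h6
      rcases h6 with h6 | h6 | h6 | h6 | h6 | h6
      · simp [xv, rv] at h6
      · simp [xv, yv] at h6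
      · obtain ⟨rfl, h6⟩ := h6
        simp only [xv, Prod.mk.injEq, true_and] at h6
        obtain ⟨rfl, rfl, rfl⟩ := h6
        exact Or.inl rfl
      · simp [xv, rv] at h6
      · obtain ⟨rfl, h6⟩ := h6
        simp only [xv, Prod.mk.injEq, true_and] at h6
        obtain ⟨rfl, rfl, rfl⟩ := h6
        rw [h1] at h3
        obtain rfl := Option.some.inj h3
        rw [h2] at h5
        obtain rfl := Option.some.inj h5
        exact Or.inr (Or.inr rfl)
      · simp [xv, yv] at h6
    · simp [xv, hub] at h5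
  · obtain ⟨k', st', α', h3, h4⟩ := mem_EE.1 hb
    rcases mem_rE.1 h4 with h5 | ⟨i', a', h5, h6⟩ | h5
    · simp [xv, hub] at h5
    · unfold gE at h6
      simp only [List.mem_cons, Prod.mk.injEq, List.not_mem_nil, or_false] at h6
      rcases h6 with h6 | h6 | h6 | h6 | h6 | h6
      · simp [xv, rv] at h6
      · simp [xv, rv] at h6
      · simp [xv, yv] at h6
      · obtain ⟨h6, rfl⟩ := h6
        simp only [xv, Prod.mk.injEq, true_and] at h6
        obtain ⟨rfl, rfl, rfl⟩ := h6
        exact Or.inr (Or.inl rfl)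
      · simp [xv, sh] at h6
      · simp [xv, sh] at h6
    · simp [xv, rv] at h5

/-- the neighbours of `yv` -/
theorem nb_yv {S : Stg} {k i : ℕ} {α : Bool} {a : Lb} (h : (k, α, i, a) ∈ gads S) {b : Nm}
    (hb : adS S b (yv k α i) = true) : b = xv k α i ∨ b = rv k α i ∨ b = sh a := by
  obtain ⟨st, h1, h2⟩ := mem_gads.1 h
  rw [adS_iff] at hb
  rcases hb with hb | hb
  · obtain ⟨k', st', α', h3, h4⟩ := mem_EE.1 hb
    rcases mem_rE.1 h4 with h5 | ⟨i', a', h5, h6⟩ | h5
    · simp [yv, rv] at h5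
    · unfold gE at h6
      simp only [List.mem_cons, Prod.mk.injEq, List.not_mem_nil, or_false] at h6
      rcases h6 with h6 | h6 | h6 | h6 | h6 | h6
      · simp [yv, rv] at h6
      · obtain ⟨rfl, h6⟩ := h6
        simp only [yv, Prod.mk.injEq, true_and] at h6
        obtain ⟨rfl, rfl, rfl⟩ := h6
        exact Or.inr (Or.inl rfl)
      · simp [xv, yv] at h6
      · simp [yv, rv] at h6
      · simp [xv, yv] at h6
      · obtain ⟨rfl, h6⟩ := h6
        simp only [yv, Prod.mk.injEq, true_and] at h6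
        obtain ⟨rfl, rfl, rfl⟩ := h6
        rw [h1] at h3
        obtain rfl := Option.some.inj h3
        rw [h2] at h5
        obtain rfl := Option.some.inj h5
        exact Or.inr (Or.inr rfl)
    · simp [yv, hub] at h5
  · obtain ⟨k', st', α', h3, h4⟩ := mem_EE.1 hb
    rcases mem_rE.1 h4 with h5 | ⟨i', a', h5, h6⟩ | h5
    · simp [yv, hub] at h5
    · unfold gE at h6
      simp only [List.mem_cons, Prod.mk.injEq, List.not_mem_nil, or_false] at h6
      rcases h6 with h6 | h6 | h6 | h6 | h6 | h6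
      · simp [yv, rv] at h6
      · simp [yv, rv] at h6
      · obtain ⟨h6, rfl⟩ := h6
        simp only [yv, Prod.mk.injEq, true_and] at h6
        obtain ⟨rfl, rfl, rfl⟩ := h6
        exact Or.inl rfl
      · simp [xv, yv] at h6
      · simp [yv, sh] at h6
      · simp [yv, sh] at h6
    · simp [yv, rv] at h5

/-! ## the paths -/

/-- toggling a block keeps `isP` -/
theorem isP_toggle {S : Stg} {u v z : Nm} (h1 : adS S u v = true) (h2 : adS S u z = true)
    (h3 : adS S z v = true) (A B : List Nm) :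
    (isP S (A ++ u :: v :: B) ∧ z ∉ A ++ u :: v :: B) ↔ isP S (A ++ u :: z :: v :: B) := by
  have e1 : A ++ u :: z :: v :: B = (A ++ [u]) ++ z :: (v :: B) := by simp
  have e2 : A ++ u :: v :: B = (A ++ [u]) ++ (v :: B) := by simp
  have hn : (A ++ u :: z :: v :: B).Nodup ↔ z ∉ A ++ u :: v :: B ∧ (A ++ u :: v :: B).Nodup := by
    rw [e1, List.nodup_middle, List.nodup_cons, ← e2]
  have hh : (A ++ u :: z :: v :: B).head? = (A ++ u :: v :: B).head? := by
    cases A <;> simp
  have hl : (A ++ u :: z :: v :: B).getLast? = (A ++ u :: v :: B).getLast? := by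
    rw [e1, e2, List.getLast?_append_of_ne_nil _ (by simp),
      List.getLast?_append_of_ne_nil _ (by simp), List.getLast?_cons_cons]
  have hc : (A ++ u :: z :: v :: B).IsChain (fun u v => adS S u v = true) ↔
      (A ++ u :: v :: B).IsChain (fun u v => adS S u v = true) := by
    rw [List.isChain_append_cons_cons, List.isChain_append_cons_cons, List.isChain_cons_cons]
    tauto
  unfold isP
  rw [hn, hh, hl, hc]
  tauto

theorem isP_toggle2 {S : Stg} {u v z w : Nm} (h1 : adS S u v = true) (h2 : adS S u z = true)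
    (h3 : adS S z w = true) (h4 : adS S w v = true) (hzw : z ≠ w) (A B : List Nm) :
    (isP S (A ++ u :: v :: B) ∧ z ∉ A ++ u :: v :: B ∧ w ∉ A ++ u :: v :: B) ↔
      isP S (A ++ u :: z :: w :: v :: B) := by
  have e1 : A ++ u :: z :: w :: v :: B = (A ++ [u]) ++ z :: w :: (v :: B) := by simp
  have e2 : A ++ u :: v :: B = (A ++ [u]) ++ (v :: B) := by simp
  have e3 : (A ++ [u]) ++ w :: (v :: B) = (A ++ [u]) ++ w :: (v :: B) := rfl
  have hn : (A ++ u :: z :: w :: v :: B).Nodup ↔
      z ∉ A ++ u :: v :: B ∧ w ∉ A ++ u :: v :: B ∧ (A ++ u :: v :: B).Nodup := by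
    rw [e1, List.nodup_middle, List.nodup_cons, List.nodup_middle, List.nodup_cons, ← e2]
    have : z ∉ A ++ [u] ++ w :: v :: B ↔ z ∉ A ++ u :: v :: B := by
      simp only [List.mem_append, List.mem_cons, List.not_mem_nil, or_false]
      tauto
    rw [this]
  have hh : (A ++ u :: z :: w :: v :: B).head? = (A ++ u :: v :: B).head? := by
    cases A <;> simp
  have hl : (A ++ u :: z :: w :: v :: B).getLast? = (A ++ u :: v :: B).getLast? := by
    rw [e1, e2, List.getLast?_append_of_ne_nil _ (by simp),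
      List.getLast?_append_of_ne_nil _ (by simp), List.getLast?_cons_cons, List.getLast?_cons_cons]
  have hc : (A ++ u :: z :: w :: v :: B).IsChain (fun u v => adS S u v = true) ↔
      (A ++ u :: v :: B).IsChain (fun u v => adS S u v = true) := by
    rw [List.isChain_append_cons_cons, List.isChain_append_cons_cons, List.isChain_cons_cons,
      List.isChain_cons_cons]
    tauto
  unfold isP
  rw [hn, hh, hl, hc]
  tauto

theorem adS_of_pair {S : Stg} {l : List Nm} (hl : isP S l) {b c : Nm} (h : [b, c] <:+: l) :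
    adS S b c = true := by
  obtain ⟨A, B, rfl⟩ := h
  have h1 := hl.2.2.2
  have h2 : (A ++ [b, c] ++ B) = A ++ b :: c :: B := by simp
  rw [h2, List.isChain_append_cons_cons] at h1
  exact h1.2.1

/-! ## finiteness -/

theorem finite_isP (S : Stg) : {l : List Nm | isP S l}.Finite := by
  classical
  obtain ⟨V, hV⟩ : ∃ V : Finset Nm, V = insert (hub 0)
      ((EE S).map Prod.fst ++ (EE S).map Prod.snd).toFinset := ⟨_, rfl⟩
  have h1 : {l : List Nm | isP S l} ⊆
      ⋃ t ∈ V.powerset, {l | l ∈ t.toList.permutations} := by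
    intro l hl
    have h2 : ∀ v ∈ l, v ∈ V := by
      have h3 := hl.2.2.2
      have h4 := hl.2.1
      cases l with
      | nil => simp
      | cons c l =>
        simp only [List.head?_cons, Option.some.injEq] at h4
        subst h4
        clear hl
        have key : ∀ (l : List Nm) (c : Nm), c ∈ V →
            (c :: l).IsChain (fun u v => adS S u v = true) → ∀ v ∈ c :: l, v ∈ V := by
          intro l
          induction l with
          | nil =>
            intro c hc _ v hv
            rw [List.mem_singleton] at hv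
            exact hv ▸ hc
          | cons d l ih =>
            intro c hc hch v hv
            rw [List.isChain_cons_cons] at hch
            have hd : d ∈ V := by
              rw [hV, Finset.mem_insert, List.mem_toFinset, List.mem_append, List.mem_map,
                List.mem_map]
              rcases adS_iff.1 hch.1 with h | h
              · exact Or.inr (Or.inr ⟨_, h, rfl⟩)
              · exact Or.inr (Or.inl ⟨_, h, rfl⟩)
            rcases List.mem_cons.1 hv with rfl | hv
            · exact hc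
            · exact ih d hd hch.2 v hv
        exact key l (hub 0) (by rw [hV]; exact Finset.mem_insert_self _ _) h3
    rw [Set.mem_iUnion₂]
    refine ⟨l.toFinset, ?_, ?_⟩
    · rw [Finset.mem_powerset]
      intro v hv
      exact h2 v (List.mem_toFinset.1 hv)
    · show l ∈ l.toFinset.toList.permutations
      rw [List.mem_permutations]
      refine (List.perm_ext_iff_of_nodup hl.1 (Finset.nodup_toList _)).2 ?_
      intro v
      simp
  refine Set.Finite.subset ?_ h1
  refine Set.Finite.biUnion (Finset.finite_toSet _) ?_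
  intro t _
  exact List.finite_toSet _

/-! ## the induction -/

/-- different gadgets have different positions -/
theorem gads_inj {S : Stg} {k i : ℕ} {α : Bool} {a a' : Lb} (h : (k, α, i, a) ∈ gads S)
    (h' : (k, α, i, a') ∈ gads S) : a = a' := by
  obtain ⟨st, h1, h2⟩ := mem_gads.1 h
  obtain ⟨st', h3, h4⟩ := mem_gads.1 h'
  rw [h1] at h3
  obtain rfl := Option.some.inj h3
  rw [h2] at h4
  exact Option.some.inj h4

/-- toggles at the gadget `g` do not change cleanness at the gadget `h` -/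
theorem cln_toggle {k i k' i' : ℕ} {α α' : Bool} {a' : Lb}
    (hne : ¬ (k = k' ∧ α = α' ∧ i = i')) {u v : Nm} {w A B : List Nm} (hw : w ≠ [])
    (hwx : ∀ z ∈ w, z = xv k α i ∨ z = yv k α i)
    (huv : (u = rv k α i ∧ v = rv k α (i + 1)) ∨ (u = rv k α (i + 1) ∧ v = rv k α i) ∨
      (∃ a, (u = sh a ∧ (v = xv k α i ∨ v = yv k α i)) ∨
        (v = sh a ∧ (u = xv k α i ∨ u = yv k α i))))
    (hnd : (A ++ u :: (w ++ v :: B)).Nodup) :
    cln (k', α', i', a') (A ++ u :: v :: B) ↔
      cln (k', α', i', a') (A ++ u :: (w ++ v :: B)) := by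
  have hW : ∀ z, z ≠ xv k α i → z ≠ yv k α i → z ∉ w := by
    intro z h1 h2 h3
    rcases hwx z h3 with h | h
    · exact h1 h
    · exact h2 h
  have hx' : xv k' α' i' ≠ xv k α i := by
    intro h
    simp only [xv, Prod.mk.injEq, true_and] at h
    exact hne ⟨h.1.symm, h.2.2.symm, h.2.1.symm⟩
  have hy' : yv k' α' i' ≠ yv k α i := by
    intro h
    simp only [yv, Prod.mk.injEq, true_and] at h
    exact hne ⟨h.1.symm, h.2.2.symm, h.2.1.symm⟩
  unfold cln
  simp only
  apply CL_toggle hw hnd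
  · exact hW _ (by simp [rv, xv]) (by simp [rv, yv])
  · exact hW _ (by simp [rv, xv]) (by simp [rv, yv])
  · exact hW _ (by simp [sh, xv]) (by simp [sh, yv])
  · exact hW _ hx' (by simp [xv, yv])
  · exact hW _ (by simp [xv, yv]) hy'
  · rcases huv with ⟨rfl, rfl⟩ | ⟨rfl, rfl⟩ | ⟨a, ⟨rfl, rfl | rfl⟩ | ⟨rfl, rfl | rfl⟩⟩
    · simp [rv, xv]
    · simp [rv, xv]
    · simp [sh, xv]
    · simp [sh, xv]
    · exact hx'.symm
    · simp [xv, yv]
  · rcases huv with ⟨rfl, rfl⟩ | ⟨rfl, rfl⟩ | ⟨a, ⟨rfl, rfl | rfl⟩ | ⟨rfl, rfl | rfl⟩⟩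
    · simp [rv, yv]
    · simp [rv, yv]
    · simp [sh, yv]
    · simp [sh, yv]
    · simp [xv, yv]
    · exact hy'.symm
  · rcases huv with ⟨rfl, rfl⟩ | ⟨rfl, rfl⟩ | ⟨a, ⟨rfl, rfl | rfl⟩ | ⟨rfl, rfl | rfl⟩⟩
    · simp [rv, xv]
    · simp [rv, xv]
    · exact hx'.symm
    · simp [xv, yv]
    · simp [sh, xv]
    · simp [sh, xv]
  · rcases huv with ⟨rfl, rfl⟩ | ⟨rfl, rfl⟩ | ⟨a, ⟨rfl, rfl | rfl⟩ | ⟨rfl, rfl | rfl⟩⟩
    · simp [rv, yv]
    · simp [rv, yv]
    · simp [xv, yv]
    · exact hy'.symm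
    · simp [sh, yv]
    · simp [sh, yv]
  · rintro ⟨h1, h2⟩
    rcases huv with ⟨rfl, rfl⟩ | ⟨rfl, rfl⟩ | ⟨a, ⟨rfl, _⟩ | ⟨rfl, _⟩⟩
    · simp only [rv, Prod.mk.injEq, true_and] at h1
      exact hne ⟨h1.1.symm, h1.2.2.symm, h1.2.1.symm⟩
    · simp only [rv, Prod.mk.injEq, true_and] at h1 h2
      omega
    · simp [rv, sh] at h1
    · simp [rv, sh] at h2
  · rintro ⟨h1, h2⟩
    rcases huv with ⟨rfl, rfl⟩ | ⟨rfl, rfl⟩ | ⟨a, ⟨rfl, _⟩ | ⟨rfl, _⟩⟩
    · simp only [rv, Prod.mk.injEq, true_and] at h1 h2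
      omega
    · simp only [rv, Prod.mk.injEq, true_and] at h2
      exact hne ⟨h2.1.symm, h2.2.2.symm, h2.2.1.symm⟩
    · simp [rv, sh] at h1
    · simp [rv, sh] at h2

open Classical in
theorem step (hG : S_GAD) (S : Stg) (P : Finset (List Nm)) (hP : ∀ l, l ∈ P ↔ isP S l)
    (H : Finset (ℕ × Bool × ℕ × Lb)) (hH : ∀ h ∈ H, h ∈ gads S)
    (g : ℕ × Bool × ℕ × Lb) (hg : g ∈ gads S) (hgH : g ∉ H) :
    (P.filter fun l => ∀ h ∈ H, cln h l).card % 2 =
      ((P.filter fun l => ∀ h ∈ H, cln h l).filter fun l => cln g l).card % 2 := by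
  obtain ⟨k, α, i, a⟩ := g
  have hmem : ∀ l, l ∈ P.filter (fun l => ∀ h ∈ H, cln h l) ↔ isP S l ∧ ∀ h ∈ H, cln h l := by
    intro l
    rw [Finset.mem_filter, hP]
  have hdiff : ∀ h ∈ H, ¬ (k = h.1 ∧ α = h.2.1 ∧ i = h.2.2.1) := by
    rintro ⟨k', α', i', a'⟩ hh ⟨rfl, rfl, rfl⟩
    have := gads_inj hg (hH _ hh)
    subst this
    exact hgH hh
  -- adjacency
  have ea1 := adS_of hg (u := sh a) (v := xv k α i) (by simp [gE])
  have ea2 := adS_of hg (u := sh a) (v := yv k α i) (by simp [gE])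
  have ea3 := adS_of hg (u := yv k α i) (v := xv k α i) (by simp [gE])
  have ea4 := adS_of hg (u := rv k α i) (v := rv k α (i + 1)) (by simp [gE])
  have ea5 := adS_of hg (u := rv k α i) (v := yv k α i) (by simp [gE])
  have ea6 := adS_of hg (u := xv k α i) (v := rv k α (i + 1)) (by simp [gE])
  -- one toggle
  have T1 : ∀ (u v z : Nm), adS S u v = true → adS S u z = true → adS S z v = true →
      (z = xv k α i ∨ z = yv k α i) →
      (∃ a, (u = sh a ∧ (v = xv k α i ∨ v = yv k α i)) ∨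
        (v = sh a ∧ (u = xv k α i ∨ u = yv k α i))) → ∀ A B : List Nm,
      (A ++ u :: v :: B ∈ P.filter (fun l => ∀ h ∈ H, cln h l) ∧ z ∉ A ++ u :: v :: B) ↔
        A ++ u :: z :: v :: B ∈ P.filter (fun l => ∀ h ∈ H, cln h l) := by
    intro u v z h1 h2 h3 hz huv A B
    rw [hmem, hmem]
    have key := isP_toggle h1 h2 h3 A B
    have hc : isP S (A ++ u :: z :: v :: B) → ∀ h ∈ H,
        (cln h (A ++ u :: v :: B) ↔ cln h (A ++ u :: z :: v :: B)) := by
      rintro hp ⟨k', α', i', a'⟩ hh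
      exact cln_toggle (hdiff _ hh) (w := [z]) (by simp)
        (by intro z' hz'; rw [List.mem_singleton] at hz'; exact hz' ▸ hz) (Or.inr (Or.inr huv)) hp.1
    constructor
    · rintro ⟨⟨h4, h5⟩, h6⟩
      have h7 := key.1 ⟨h4, h6⟩
      exact ⟨h7, fun h hh => (hc h7 h hh).1 (h5 h hh)⟩
    · rintro ⟨h4, h5⟩
      have h7 := key.2 h4
      exact ⟨⟨h7.1, fun h hh => (hc h4 h hh).2 (h5 h hh)⟩, h7.2⟩
  have T2 : ∀ (u v z w : Nm), adS S u v = true → adS S u z = true → adS S z w = true →
      adS S w v = true → z ≠ w → (z = xv k α i ∨ z = yv k α i) → (w = xv k α i ∨ w = yv k α i) →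
      ((u = rv k α i ∧ v = rv k α (i + 1)) ∨ (u = rv k α (i + 1) ∧ v = rv k α i)) →
      ∀ A B : List Nm,
      (A ++ u :: v :: B ∈ P.filter (fun l => ∀ h ∈ H, cln h l) ∧ z ∉ A ++ u :: v :: B ∧
        w ∉ A ++ u :: v :: B) ↔
        A ++ u :: z :: w :: v :: B ∈ P.filter (fun l => ∀ h ∈ H, cln h l) := by
    intro u v z w h1 h2 h3 h3' hzw hz hw huv A B
    rw [hmem, hmem]
    have key := isP_toggle2 h1 h2 h3 h3' hzw A B
    have hc : isP S (A ++ u :: z :: w :: v :: B) → ∀ h ∈ H,
        (cln h (A ++ u :: v :: B) ↔ cln h (A ++ u :: z :: w :: v :: B)) := by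
      rintro hp ⟨k', α', i', a'⟩ hh
      refine cln_toggle (hdiff _ hh) (w := [z, w]) (by simp) ?_ ?_ hp.1
      · intro z' hz'
        rw [List.mem_cons, List.mem_singleton] at hz'
        rcases hz' with rfl | rfl
        · exact hz
        · exact hw
      · rcases huv with h | h
        · exact Or.inl h
        · exact Or.inr (Or.inl h)
    constructor
    · rintro ⟨⟨h4, h5⟩, h6⟩
      have h7 := key.1 ⟨h4, h6⟩
      exact ⟨h7, fun h hh => (hc h7 h hh).1 (h5 h hh)⟩
    · rintro ⟨h4, h5⟩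
      have h7 := key.2 h4
      exact ⟨⟨h7.1, fun h hh => (hc h4 h hh).2 (h5 h hh)⟩, h7.2⟩
  have main := hG Nm (P.filter fun l => ∀ h ∈ H, cln h l) (rv k α i) (rv k α (i + 1)) (sh a)
    (xv k α i) (yv k α i) (by simp [rv, xv, yv, sh]) (fun l hl => ((hmem l).1 hl).1.1)
    (by
      intro l hl
      obtain ⟨⟨_, h1, h2, _⟩, _⟩ := (hmem l).1 hl
      rw [h1, h2]
      simp [hub, xv, yv])
    (by
      intro l hl b hb
      have hp := ((hmem l).1 hl).1
      apply nb_xv hg
      rcases hb with hb | hb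
      · exact adS_of_pair hp hb
      · rw [adS_symm]
        exact adS_of_pair hp hb)
    (by
      intro l hl b hb
      have hp := ((hmem l).1 hl).1
      apply nb_yv hg
      rcases hb with hb | hb
      · exact adS_of_pair hp hb
      · rw [adS_symm]
        exact adS_of_pair hp hb)
    (T1 _ _ _ ea2.2 ea3.1 ea1.2 (Or.inl rfl) ⟨a, Or.inr ⟨rfl, Or.inr rfl⟩⟩)
    (T1 _ _ _ ea2.1 ea1.1 ea3.2 (Or.inl rfl) ⟨a, Or.inl ⟨rfl, Or.inr rfl⟩⟩)
    (T1 _ _ _ ea1.2 ea3.2 ea2.2 (Or.inr rfl) ⟨a, Or.inr ⟨rfl, Or.inl rfl⟩⟩)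
    (T1 _ _ _ ea1.1 ea2.1 ea3.1 (Or.inr rfl) ⟨a, Or.inl ⟨rfl, Or.inl rfl⟩⟩)
    (by
      intro A B
      have := T2 _ _ _ _ ea4.1 ea5.1 ea3.1 ea6.1 (by simp [xv, yv]) (Or.inr rfl) (Or.inl rfl)
        (Or.inl ⟨rfl, rfl⟩) A B
      rw [← this]
      tauto)
    (by
      intro A B
      have := T2 _ _ _ _ ea4.2 ea6.2 ea3.2 ea5.2 (by simp [xv, yv]) (Or.inl rfl) (Or.inr rfl)
        (Or.inr ⟨rfl, rfl⟩) A B
      rw [← this])
  exact main

theorem main (h : S_GAD) : S_CLEAN := by
  classical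
  intro S _
  have hfin := finite_isP S
  set P := hfin.toFinset with hPdef
  have hP : ∀ l, l ∈ P ↔ isP S l := by
    intro l
    rw [hPdef, Set.Finite.mem_toFinset]
    rfl
  have key : ∀ H : Finset (ℕ × Bool × ℕ × Lb), (∀ h ∈ H, h ∈ gads S) →
      P.card % 2 = (P.filter fun l => ∀ h ∈ H, cln h l).card % 2 := by
    intro H
    induction H using Finset.induction_on with
    | empty =>
      intro _
      congr 2
      ext l
      simp
    | insert g H hg ih =>
      intro hH
      rw [ih fun h hh => hH h (Finset.mem_insert_of_mem hh)]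
      have h1 := step h S P hP H (fun h hh => hH h (Finset.mem_insert_of_mem hh)) g
        (hH g (Finset.mem_insert_self _ _)) hg
      have h2 : (P.filter fun l => ∀ h ∈ H, cln h l).card =
          (P.filter fun l => ∀ h ∈ H, cln h l).card := rfl
      rw [Finset.filter_filter] at h1
      convert h1 using 3
      ext l
      simp only [Finset.mem_filter, Finset.mem_insert, forall_eq_or_imp]
      tauto
  have h1 : Nat.card {l : List Nm // isP S l} = P.card := by
    rw [Nat.subtype_card]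
    exact hP
  have h2 : Nat.card {l : List Nm // isP S l ∧ ∀ g ∈ gads S, cln g l} =
      (P.filter fun l => ∀ h ∈ (gads S).toFinset, cln h l).card := by
    rw [Nat.subtype_card]
    intro l
    rw [Finset.mem_filter, hP]
    simp
  rw [h1, h2]
  exact key _ (fun h hh => List.mem_toFinset.1 hh)

end Pool.Agent.W505.HTClean
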