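import Pool.Agent.W275.US.Stm

/-!
# Decomposition of the second moment into angular and radial part
-/

set_option autoImplicit false

namespace Pool.Agent.W505.USDec

open MeasureTheory Set Pool.Agent.W275.US
open scoped ENNReal InnerProductSpace

variable {b d : ℕ}

theorem cat_cont : Continuous (cat : (Fin b → E d) → X b d) := by
  unfold cat
  refine (PiLp.continuous_toLp 2 _).comp (continuous_pi fun q => ?_)
  exact (PiLp.continuous_apply 2 _ q.2).comp (continuous_apply q.1)

theorem blk_cont (i : Fin b) : Continuous (blk i : X b d → E d) := by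
  unfold blk
  exact (PiLp.continuous_toLp 2 _).comp (continuous_pi fun k => PiLp.continuous_apply 2 _ (i, k))

theorem p_dir_le (p : Seminorm ℝ (E d)) (u : E d) : p (dir p u) ≤ 1 := by
  unfold dir
  rw [map_smul_eq_mul, Real.norm_eq_abs, abs_of_nonneg (inv_nonneg.2 (apply_nonneg p u))]
  rcases (apply_nonneg p u).lt_or_eq with h | h
  · rw [inv_mul_cancel₀ h.ne']
  · rw [← h]
    simp

/-- the sets on which everything is bounded -/
def KR (p : Fin b → Seminorm ℝ (E d)) (r : ℝ) : Set (X b d) := {x | ∀ i, p i (blk i x) ≤ r}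

theorem turn_norm_le (p : Fin b → Seminorm ℝ (E d)) (u : Fin b → E d) (x : X b d) (i : Fin b) :
    p i (blk i (turn p u x)) ≤ p i (blk i x) := by
  unfold turn
  rw [blk_cat, map_smul_eq_mul, Real.norm_eq_abs, abs_of_nonneg (apply_nonneg _ _)]
  exact mul_le_of_le_one_right (apply_nonneg _ _) (p_dir_le _ _)

theorem turn_mem {p : Fin b → Seminorm ℝ (E d)} {r : ℝ} {x : X b d} (hx : x ∈ KR p r)
    (u : Fin b → E d) : turn p u x ∈ KR p r := fun i => (turn_norm_le p u x i).trans (hx i)

theorem f_bdd {p : Fin b → Seminorm ℝ (E d)} (hp : ∀ i, Def (p i)) {f : X b d → ℝ}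
    (hf : Continuous f) (r : ℝ) : ∃ M : ℝ, 0 ≤ M ∧ ∀ x ∈ KR p r, |f x| ≤ M := by
  choose C hC0 hC using fun i => norm_le (hp i)
  have hK : IsCompact (Set.pi univ fun i : Fin b => Metric.closedBall (0 : E d) (C i * |r|)) :=
    isCompact_univ_pi fun i => isCompact_closedBall 0 _
  obtain ⟨M, hM⟩ := (hK.image cat_cont).exists_bound_of_continuousOn hf.continuousOn
  refine ⟨max M 0, le_max_right _ _, fun x hx => ?_⟩
  have h1 : x ∈ cat '' (Set.pi univ fun i : Fin b => Metric.closedBall (0 : E d) (C i * |r|)) := by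
    refine ⟨fun i => blk i x, fun i _ => ?_, cat_blk x⟩
    rw [mem_closedBall_zero_iff]
    refine (hC i _).trans (mul_le_mul_of_nonneg_left ?_ (hC0 i).le)
    exact (hx i).trans (le_abs_self r)
  have h2 := hM x h1
  rw [Real.norm_eq_abs] at h2
  exact h2.trans (le_max_left _ _)

theorem ball_KR (p : Fin b → Seminorm ℝ (E d)) (R : ℝ) : ∃ r : ℝ, ∀ x : X b d, ‖x‖ ≤ R →
    x ∈ KR p r := by
  have h : ∀ i : Fin b, ∃ r : ℝ, ∀ x ∈ Metric.closedBall (0 : X b d) R, ‖p i (blk i x)‖ ≤ r := by
    intro i
    exact (isCompact_closedBall (0 : X b d) R).exists_bound_of_continuousOn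
      ((p_cont (p i)).comp (blk_cont i)).continuousOn
  choose r hr using h
  refine ⟨∑ i, |r i|, fun x hx i => ?_⟩
  have h1 := hr i x (by rwa [mem_closedBall_zero_iff])
  rw [Real.norm_eq_abs] at h1
  refine (le_abs_self _).trans (h1.trans ((le_abs_self _).trans ?_))
  exact Finset.single_le_sum (f := fun i => |r i|) (fun j _ => abs_nonneg _) (Finset.mem_univ i)

theorem turn_norm {p : Fin b → Seminorm ℝ (E d)} (hp : ∀ i, Def (p i)) {u : Fin b → E d}
    (hu : ∀ i, u i ≠ 0) (x : X b d) (i : Fin b) :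
    p i (blk i (turn p u x)) = p i (blk i x) := by
  unfold turn
  rw [blk_cat, map_smul_eq_mul, Real.norm_eq_abs, abs_of_nonneg (apply_nonneg _ _),
    p_dir (hp i) (hu i), mul_one]

theorem turn_turn {p : Fin b → Seminorm ℝ (E d)} (hp : ∀ i, Def (p i)) {u : Fin b → E d}
    (hu : ∀ i, u i ≠ 0) (v : Fin b → E d) (x : X b d) :
    turn p v (turn p u x) = turn p v x := by
  have h : ∀ i, p i (blk i (turn p u x)) = p i (blk i x) := turn_norm hp hu x
  show cat (fun i => p i (blk i (turn p u x)) • dir (p i) (v i)) = _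
  simp only [h]
  rfl

theorem uu_prob {p : Fin b → Seminorm ℝ (E d)} (hp : ∀ i, Def (p i)) :
    IsProbabilityMeasure (uu p) := by
  have : ∀ i, IsProbabilityMeasure (unif (p i)) := fun i => unif_prob (hp i)
  unfold uu
  infer_instance

theorem uu_ne {p : Fin b → Seminorm ℝ (E d)} (hp : ∀ i, Def (p i)) (hd : 1 ≤ d) :
    ∀ᵐ u ∂(uu p), ∀ i, u i ≠ 0 := by
  have : ∀ i, IsProbabilityMeasure (unif (p i)) := fun i => unif_prob (hp i)
  rw [ae_all_iff]
  intro i
  unfold uu
  exact (Measure.tendsto_eval_ae_ae (μ := fun i => unif (p i)) (i := i)).eventually (unif_ne hd)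

/-- decomposition of the second moment into angular and radial part (with the parentheses) -/
def S_dec2 : Prop := ∀ (b d : ℕ), 1 ≤ d → ∀ p : Fin b → Seminorm ℝ (E d), (∀ i, Def (p i)) →
  ∀ ρ : X b d → ℝ, Measurable ρ → (∀ x, 0 ≤ ρ x) → Integrable ρ →
  (∃ R : ℝ, ∀ x, R < ‖x‖ → ρ x = 0) → Rad p ρ → ∀ f : X b d → ℝ, Continuous f → ∀ c : ℝ,
  ∫ x, (f x - c) ^ 2 * ρ x =
    (∫ x, (f x - avg p f x) ^ 2 * ρ x) + (∫ x, (avg p f x - c) ^ 2 * ρ x)

theorem main (hmp : S_mp) : S_dec2 := by
  intro b d hd p hp ρ hρm hρ0 hρi ⟨R, hR⟩ hrad f hf c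
  have hprob := uu_prob hp
  have hT := hmp b d hd p hp
  obtain ⟨r, hr⟩ := ball_KR p R
  obtain ⟨M, hM0, hM⟩ := f_bdd hp hf r
  -- measurability of `avg`
  have hTm : Measurable (fun q : X b d × (Fin b → E d) => turn p q.2 q.1) := hT.measurable
  have hAm : StronglyMeasurable (avg p f) := by
    have h1 : StronglyMeasurable (fun q : X b d × (Fin b → E d) => f (turn p q.2 q.1)) :=
      (hf.measurable.comp hTm).stronglyMeasurable
    exact h1.integral_prod_right
  have hsec : ∀ x : X b d, Measurable (fun u : Fin b → E d => turn p u x) := fun x =>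
    hTm.comp measurable_prodMk_left
  -- integrability of sections
  have hint : ∀ x : X b d, Integrable (fun u => f (turn p u x)) (uu p) := by
    intro x
    obtain ⟨r', hr'⟩ := ball_KR p ‖x‖
    obtain ⟨M', hM0', hM'⟩ := f_bdd hp hf r'
    refine Integrable.of_bound ((hf.measurable.comp (hsec x)).aestronglyMeasurable) M' ?_
    refine Filter.Eventually.of_forall fun u => ?_
    rw [Real.norm_eq_abs]
    exact hM' _ (turn_mem (hr' x le_rfl) u)
  -- bound for the average
  have hA : ∀ x ∈ KR p r, |avg p f x| ≤ M := by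
    intro x hx
    unfold avg
    have h1 := norm_integral_le_of_norm_le_const (μ := uu p) (f := fun u => f (turn p u x)) (C := M)
      (Filter.Eventually.of_forall fun u => by
        rw [Real.norm_eq_abs]
        exact hM _ (turn_mem hx u))
    rw [Real.norm_eq_abs] at h1
    simpa using h1
  -- integrability of products
  have hI : ∀ F : X b d → ℝ, Measurable F → (∃ C : ℝ, ∀ x ∈ KR p r, |F x| ≤ C) →
      Integrable (fun x => F x * ρ x) := by
    intro F hF ⟨C, hC⟩
    refine Integrable.mono' (hρi.const_mul C) ((hF.mul hρm).aestronglyMeasurable) ?_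
    refine Filter.Eventually.of_forall fun x => ?_
    rw [norm_mul, Real.norm_eq_abs, Real.norm_eq_abs, abs_of_nonneg (hρ0 x)]
    by_cases hx : R < ‖x‖
    · rw [hR x hx]
      simp
    · exact mul_le_mul_of_nonneg_right (hC x (hr x (not_lt.1 hx))) (hρ0 x)
  have hfm : Measurable f := hf.measurable
  have hAm' : Measurable (avg p f) := hAm.measurable
  have b1 : ∀ x ∈ KR p r, |f x - avg p f x| ≤ 2 * M := by
    intro x hx
    have h1 := abs_sub (f x) (avg p f x)
    have h2 := hM x hx
    have h3 := hA x hx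
    linarith
  have b2 : ∀ x ∈ KR p r, |avg p f x - c| ≤ M + |c| := by
    intro x hx
    have h1 := abs_sub (avg p f x) c
    have h3 := hA x hx
    linarith
  have I1 : Integrable (fun x => (f x - avg p f x) ^ 2 * ρ x) := by
    refine hI _ ((hfm.sub hAm').pow_const 2) ⟨(2 * M) ^ 2, fun x hx => ?_⟩
    rw [abs_pow]
    exact pow_le_pow_left₀ (abs_nonneg _) (b1 x hx) 2
  have I2 : Integrable (fun x => (avg p f x - c) ^ 2 * ρ x) := by
    refine hI _ ((hAm'.sub measurable_const).pow_const 2) ⟨(M + |c|) ^ 2, fun x hx => ?_⟩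
    rw [abs_pow]
    exact pow_le_pow_left₀ (abs_nonneg _) (b2 x hx) 2
  have hgm : Measurable (fun x => (f x - avg p f x) * (avg p f x - c)) :=
    (hfm.sub hAm').mul (hAm'.sub measurable_const)
  have I3 : Integrable (fun x => (f x - avg p f x) * (avg p f x - c) * ρ x) := by
    refine hI _ hgm ⟨(2 * M) * (M + |c|), fun x hx => ?_⟩
    rw [abs_mul]
    exact mul_le_mul (b1 x hx) (b2 x hx) (abs_nonneg _) (by positivity)
  -- the cross term vanishes
  have hcross : ∫ x, (f x - avg p f x) * (avg p f x - c) * ρ x = 0 := by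
    have h1 : ∫ x, (f x - avg p f x) * (avg p f x - c) * ρ x =
        ∫ q : X b d × (Fin b → E d), (f (turn p q.2 q.1) - avg p f (turn p q.2 q.1)) *
          (avg p f (turn p q.2 q.1) - c) * ρ (turn p q.2 q.1)
          ∂((volume : Measure (X b d)).prod (uu p)) := by
      have h2 := integral_map (μ := (volume : Measure (X b d)).prod (uu p)) hTm.aemeasurable
        (f := fun x => (f x - avg p f x) * (avg p f x - c) * ρ x)
        ((hgm.mul hρm).aestronglyMeasurable)
      rw [hT.map_eq] at h2
      exact h2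
    have h3 : Integrable (fun q : X b d × (Fin b → E d) =>
        (f (turn p q.2 q.1) - avg p f (turn p q.2 q.1)) *
          (avg p f (turn p q.2 q.1) - c) * ρ (turn p q.2 q.1))
          ((volume : Measure (X b d)).prod (uu p)) :=
      hT.integrable_comp_of_integrable I3
    rw [h1, integral_prod _ h3]
    have h4 : ∀ x : X b d, ∫ u, (f (turn p u x) - avg p f (turn p u x)) *
        (avg p f (turn p u x) - c) * ρ (turn p u x) ∂(uu p) = 0 := by
      intro x
      have h5 : ∫ u, (f (turn p u x) - avg p f (turn p u x)) *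
          (avg p f (turn p u x) - c) * ρ (turn p u x) ∂(uu p) =
          ∫ u, (f (turn p u x) - avg p f x) * ((avg p f x - c) * ρ x) ∂(uu p) := by
        apply integral_congr_ae
        filter_upwards [uu_ne hp hd] with u hu
        have e1 : ρ (turn p u x) = ρ x := hrad _ _ (turn_norm hp hu x)
        have e2 : avg p f (turn p u x) = avg p f x := by
          unfold avg
          simp only [turn_turn hp hu]
        rw [e1, e2]
        ring
      rw [h5, integral_mul_const, integral_sub (hint x) (integrable_const _)]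
      have h6 : ∫ u, f (turn p u x) ∂(uu p) = avg p f x := rfl
      rw [h6]
      simp
    simp only [h4, integral_zero]
  have hsum : ∫ x, (f x - c) ^ 2 * ρ x = ∫ x, ((f x - avg p f x) ^ 2 * ρ x +
      (avg p f x - c) ^ 2 * ρ x + 2 * ((f x - avg p f x) * (avg p f x - c) * ρ x)) := by
    congr 1
    ext x
    ring
  have I12 : Integrable (fun x => (f x - avg p f x) ^ 2 * ρ x + (avg p f x - c) ^ 2 * ρ x) :=
    I1.add I2
  rw [hsum, integral_add I12 (I3.const_mul 2), integral_add I1 I2, integral_const_mul,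
    hcross, mul_zero, add_zero]

end Pool.Agent.W505.USDec
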