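import Pool.Agent.W894.HT.Gr

/-!
# HT-RUN1: the path given by a choice of routes is clean
-/

set_option autoImplicit false

namespace Pool.Agent.W505.HTRun1
open Pool.Agent.W894.HT

/-- the word of a route, recursively -/
def wd (k : ℕ) (α : Bool) : ℕ → List Lb → List Nm
  | i, [] => [rv k α i]
  | i, a :: L => rv k α i :: yv k α i :: sh a :: xv k α i :: wd k α (i + 1) L

theorem wd_eq (k : ℕ) (α : Bool) (L : List Lb) : ∀ i : ℕ,
    (rv k α i :: (L.zipIdx i).flatMap fun p =>
      [yv k α p.2, sh p.1, xv k α p.2, rv k α (p.2 + 1)]) = wd k α i L := by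
  induction L with
  | nil => intro i; rfl
  | cons a L ih =>
    intro i
    rw [List.zipIdx_cons, List.flatMap_cons, wd, ← ih (i + 1)]
    rfl

theorem word_eq (k : ℕ) (α : Bool) (L : List Lb) : word k α L = wd k α 0 L := wd_eq k α L 0

theorem mem_wd {k : ℕ} {α : Bool} {L : List Lb} : ∀ {i : ℕ} {v : Nm}, v ∈ wd k α i L →
    (∃ j, i ≤ j ∧ (v = rv k α j ∨ v = xv k α j ∨ v = yv k α j)) ∨ ∃ a ∈ L, v = sh a := by
  induction L with
  | nil =>
    intro i v hv
    rw [wd, List.mem_singleton] at hv
    exact Or.inl ⟨i, le_rfl, Or.inl hv⟩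
  | cons a L ih =>
    intro i v hv
    rw [wd] at hv
    simp only [List.mem_cons] at hv
    rcases hv with rfl | rfl | rfl | rfl | hv
    · exact Or.inl ⟨i, le_rfl, Or.inl rfl⟩
    · exact Or.inl ⟨i, le_rfl, Or.inr (Or.inr rfl)⟩
    · exact Or.inr ⟨a, by simp, rfl⟩
    · exact Or.inl ⟨i, le_rfl, Or.inr (Or.inl rfl)⟩
    · rcases ih hv with ⟨j, hj, h⟩ | ⟨b, hb, h⟩
      · exact Or.inl ⟨j, by omega, h⟩
      · exact Or.inr ⟨b, List.mem_cons_of_mem _ hb, h⟩

theorem nodup_wd {k : ℕ} {α : Bool} {L : List Lb} : ∀ {i : ℕ}, L.Nodup → (wd k α i L).Nodup := by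
  induction L with
  | nil =>
    intro i _
    rw [wd]
    exact List.nodup_singleton _
  | cons a L ih =>
    intro i hL
    rw [List.nodup_cons] at hL
    rw [wd]
    have h1 : ∀ v ∈ wd k α (i + 1) L, v ≠ rv k α i ∧ v ≠ yv k α i ∧ v ≠ sh a ∧ v ≠ xv k α i := by
      intro v hv
      rcases mem_wd hv with ⟨j, hj, rfl | rfl | rfl⟩ | ⟨b, hb, rfl⟩
      · refine ⟨?_, ?_, ?_, ?_⟩ <;> simp only [rv, xv, yv, sh, ne_eq, Prod.mk.injEq] <;> omega
      · refine ⟨?_, ?_, ?_, ?_⟩ <;> simp only [rv, xv, yv, sh, ne_eq, Prod.mk.injEq] <;> omega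
      · refine ⟨?_, ?_, ?_, ?_⟩ <;> simp only [rv, xv, yv, sh, ne_eq, Prod.mk.injEq] <;> omega
      · refine ⟨?_, ?_, ?_, ?_⟩
        · simp [rv, sh]
        · simp [yv, sh]
        · intro h
          have : b = a := congrArg Prod.snd h
          exact hL.1 (this ▸ hb)
        · simp [xv, sh]
    simp only [List.nodup_cons, List.mem_cons, not_or]
    refine ⟨⟨?_, ?_, ?_, fun h => (h1 _ h).1 rfl⟩, ⟨?_, ?_, fun h => (h1 _ h).2.1 rfl⟩,
      ⟨?_, fun h => (h1 _ h).2.2.1 rfl⟩, fun h => (h1 _ h).2.2.2 rfl, ih hL.2⟩ <;>
      simp [rv, xv, yv, sh]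

theorem wd_ne_nil (k : ℕ) (α : Bool) (i : ℕ) (L : List Lb) : wd k α i L ≠ [] := by
  cases L <;> simp [wd]

theorem head_wd (k : ℕ) (α : Bool) (i : ℕ) (L : List Lb) :
    (wd k α i L).head? = some (rv k α i) := by
  cases L <;> simp [wd]

theorem last_wd (k : ℕ) (α : Bool) (L : List Lb) : ∀ i : ℕ,
    (wd k α i L).getLast? = some (rv k α (i + L.length)) := by
  induction L with
  | nil => intro i; simp [wd]
  | cons a L ih =>
    intro i
    rw [wd]
    have h1 := ih (i + 1)
    have h2 := wd_ne_nil k α (i + 1) L
    rw [List.getLast?_cons_cons, List.getLast?_cons_cons, List.getLast?_cons_cons,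
      List.getLast?_cons_of_ne_nil h2, h1]
    congr 2
    simp only [List.length_cons]
    omega

theorem chain_wd {R : Nm → Nm → Prop} {k : ℕ} {α : Bool} {L : List Lb} : ∀ {i : ℕ},
    (∀ p ∈ L.zipIdx i, ∀ e ∈ gE k α p.2 p.1, R e.1 e.2 ∧ R e.2 e.1) →
    (wd k α i L).IsChain R := by
  induction L with
  | nil =>
    intro i _
    rw [wd]
    exact List.isChain_singleton _
  | cons a L ih =>
    intro i h
    rw [wd]
    have h1 : ∀ e ∈ gE k α i a, R e.1 e.2 ∧ R e.2 e.1 := h (a, i) (by
      rw [List.zipIdx_cons]
      exact List.mem_cons_self)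
    have h2 := ih (i := i + 1) (fun p hp => h p (by
      rw [List.zipIdx_cons]
      exact List.mem_cons_of_mem _ hp))
    have e1 := (h1 (rv k α i, yv k α i) (by simp [gE])).1
    have e2 := (h1 (sh a, yv k α i) (by simp [gE])).2
    have e3 := (h1 (sh a, xv k α i) (by simp [gE])).1
    have e4 := (h1 (xv k α i, rv k α (i + 1)) (by simp [gE])).1
    rw [List.isChain_cons_cons, List.isChain_cons_cons, List.isChain_cons_cons]
    refine ⟨e1, e2, e3, ?_⟩
    rw [List.isChain_cons]
    refine ⟨?_, h2⟩
    intro y hy
    rw [head_wd] at hy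
    obtain rfl : rv k α (i + 1) = y := Option.some.inj hy
    exact e4

/-- the edges, from the stage `k` on -/
def EEk (k : ℕ) (S : Stg) : List (Nm × Nm) :=
  (S.zipIdx k).flatMap fun p => rE p.2 false p.1.1 ++ rE p.2 true p.1.2

/-- the gadgets, from the stage `k` on -/
def gadk (k : ℕ) (S : Stg) : List (ℕ × Bool × ℕ × Lb) :=
  (S.zipIdx k).flatMap fun p => (p.1.1.zipIdx.map fun q => (p.2, false, q.2, q.1)) ++
    (p.1.2.zipIdx.map fun q => (p.2, true, q.2, q.1))

/-- the chosen route -/
def rt (b : Bool) (P Q : List Lb) : List Lb := if b = true then Q else P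

theorem mem_pth {S : Stg} : ∀ {k : ℕ} {bs : List Bool} {v : Nm}, v ∈ pth k S bs →
    (∃ j, k ≤ j ∧ v = hub j) ∨
    (∃ j α i, k ≤ j ∧ (v = rv j α i ∨ v = xv j α i ∨ v = yv j α i)) ∨
    ∃ a ∈ lbs S bs, v = sh a := by
  induction S with
  | nil =>
    intro k bs v hv
    rw [pth, List.mem_singleton] at hv
    · exact Or.inl ⟨k, le_rfl, hv⟩
    · intro P Q S b bs h
      cases h
  | cons PQ S ih =>
    intro k bs v hv
    obtain ⟨P, Q⟩ := PQ
    cases bs with
    | nil =>
      rw [pth, List.mem_singleton] at hv
      · exact Or.inl ⟨k, le_rfl, hv⟩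
      · intro P Q S b bs h h'
        cases h'
    | cons b bs =>
      rw [pth, List.mem_cons, List.mem_append, word_eq] at hv
      rcases hv with rfl | hv | hv
      · exact Or.inl ⟨k, le_rfl, rfl⟩
      · rcases mem_wd hv with ⟨j, _, h⟩ | ⟨a, ha, h⟩
        · exact Or.inr (Or.inl ⟨k, b, j, le_rfl, h⟩)
        · refine Or.inr (Or.inr ⟨a, ?_, h⟩)
          rw [lbs]
          exact List.mem_append_left _ ha
      · rcases ih hv with ⟨j, hj, h⟩ | ⟨j, α, i, hj, h⟩ | ⟨a, ha, h⟩
        · exact Or.inl ⟨j, by omega, h⟩
        · exact Or.inr (Or.inl ⟨j, α, i, by omega, h⟩)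
        · refine Or.inr (Or.inr ⟨a, ?_, h⟩)
          rw [lbs]
          exact List.mem_append_right _ ha

theorem head_pth (k : ℕ) (S : Stg) (bs : List Bool) : (pth k S bs).head? = some (hub k) := by
  cases S with
  | nil =>
    rw [pth]
    · rfl
    · intro P Q S b bs h
      cases h
  | cons PQ S =>
    obtain ⟨P, Q⟩ := PQ
    cases bs with
    | nil =>
      rw [pth]
      · rfl
      · intro P Q S b bs h h'
        cases h'
    | cons b bs =>
      rw [pth]
      rfl

theorem pth_ne_nil (k : ℕ) (S : Stg) (bs : List Bool) : pth k S bs ≠ [] := by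
  intro h
  have := head_pth k S bs
  rw [h] at this
  cases this

theorem pth_nil (k : ℕ) (bs : List Bool) : pth k [] bs = [hub k] := by
  rw [pth]
  intro P Q S b bs h
  cases h

theorem run1_aux {S : Stg} : ∀ {k : ℕ} {bs : List Bool}, bs.length = S.length →
    (lbs S bs).Nodup →
    (pth k S bs).Nodup ∧ (pth k S bs).getLast? = some (hub (k + S.length)) ∧
    (∀ R : Nm → Nm → Prop, (∀ e ∈ EEk k S, R e.1 e.2 ∧ R e.2 e.1) → (pth k S bs).IsChain R) ∧
    (∀ g ∈ gadk k S, k ≤ g.1 ∧ ((xv g.1 g.2.1 g.2.2.1 ∉ pth k S bs ∧
        yv g.1 g.2.1 g.2.2.1 ∉ pth k S bs ∧ rv g.1 g.2.1 g.2.2.1 ∉ pth k S bs) ∨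
      [rv g.1 g.2.1 g.2.2.1, yv g.1 g.2.1 g.2.2.1, sh g.2.2.2, xv g.1 g.2.1 g.2.2.1,
        rv g.1 g.2.1 (g.2.2.1 + 1)] <:+: pth k S bs)) := by
  induction S with
  | nil =>
    intro k bs _ _
    rw [pth_nil]
    refine ⟨List.nodup_singleton _, by simp, fun R _ => List.isChain_singleton _, ?_⟩
    intro g hg
    simp [gadk] at hg
  | cons PQ S ih =>
    intro k bs hlen hnd
    obtain ⟨P, Q⟩ := PQ
    cases bs with
    | nil => simp at hlen
    | cons b bs =>
      simp only [List.length_cons, Nat.add_right_cancel_iff] at hlen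
      rw [lbs] at hnd
      rw [List.nodup_append'] at hnd
      obtain ⟨hn1, hn2, hn3⟩ := hnd
      obtain ⟨i1, i2, i3, i4⟩ := ih (k := k + 1) hlen hn2
      obtain ⟨L, hL⟩ : ∃ L, L = (if b = true then Q else P) := ⟨_, rfl⟩
      rw [← hL] at hn1 hn3
      have hp : pth k ((P, Q) :: S) (b :: bs) = hub k :: (wd k b 0 L ++ pth (k + 1) S bs) := by
        rw [pth, word_eq, hL]
      rw [hp]
      -- the zipIdx lists
      have hE : EEk k ((P, Q) :: S) = (rE k false P ++ rE k true Q) ++ EEk (k + 1) S := by
        unfold EEk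
        rw [List.zipIdx_cons, List.flatMap_cons]
      have hG : gadk k ((P, Q) :: S) = ((P.zipIdx.map fun q => (k, false, q.2, q.1)) ++
          (Q.zipIdx.map fun q => (k, true, q.2, q.1))) ++ gadk (k + 1) S := by
        unfold gadk
        rw [List.zipIdx_cons, List.flatMap_cons]
      refine ⟨?_, ?_, ?_, ?_⟩
      · rw [List.nodup_cons, List.mem_append, not_or, List.nodup_append']
        refine ⟨⟨?_, ?_⟩, nodup_wd hn1, i1, ?_⟩
        · intro h
          rcases mem_wd h with ⟨j, _, h | h | h⟩ | ⟨a, _, h⟩
          all_goals simp [hub, rv, xv, yv, sh] at h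
        · intro h
          rcases mem_pth h with ⟨j, hj, h⟩ | ⟨j, α, i, hj, h | h | h⟩ | ⟨a, ha, h⟩
          · simp only [hub, Prod.mk.injEq] at h
            omega
          all_goals simp [hub, rv, xv, yv, sh] at h
        · intro v hv hv'
          rcases mem_wd hv with ⟨i, _, h⟩ | ⟨a, ha, h⟩
          · rcases mem_pth hv' with ⟨j, hj, h'⟩ | ⟨j, α, i', hj, h'⟩ | ⟨a, ha, h'⟩
            · rcases h with rfl | rfl | rfl <;> simp [hub, rv, xv, yv, sh] at h'
            · rcases h with rfl | rfl | rfl <;> rcases h' with h' | h' | h' <;>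
                simp only [rv, xv, yv, Prod.mk.injEq] at h' <;> omega
            · rcases h with rfl | rfl | rfl <;> simp [hub, rv, xv, yv, sh] at h'
          · rcases mem_pth hv' with ⟨j, hj, h'⟩ | ⟨j, α, i', hj, h' | h' | h'⟩ | ⟨a', ha', h'⟩
            · rw [h] at h'; simp [hub, rv, xv, yv, sh] at h'
            · rw [h] at h'; simp [hub, rv, xv, yv, sh] at h'
            · rw [h] at h'; simp [hub, rv, xv, yv, sh] at h'
            · rw [h] at h'; simp [hub, rv, xv, yv, sh] at h'
            · rw [h] at h'
              have : a = a' := congrArg Prod.snd h'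
              subst this
              exact hn3 ha ha'
      · have h1 := pth_ne_nil (k + 1) S bs
        rw [List.getLast?_cons_of_ne_nil (by simp [h1]), List.getLast?_append_of_ne_nil _ h1, i2]
        congr 2
        simp only [List.length_cons]
        omega
      · intro R hR
        rw [hE] at hR
        have hR1 : ∀ e ∈ rE k b L, R e.1 e.2 ∧ R e.2 e.1 := by
          intro e he
          apply hR
          apply List.mem_append_left
          cases b
          · simp only [Bool.false_eq_true, if_false] at hL
            subst hL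
            exact List.mem_append_left _ he
          · simp only [if_true] at hL
            subst hL
            exact List.mem_append_right _ he
        have c1 : (wd k b 0 L).IsChain R := by
          apply chain_wd
          intro p hp e he
          apply hR1
          unfold rE
          apply List.mem_append_left
          apply List.mem_cons_of_mem
          rw [List.mem_flatMap]
          exact ⟨p, hp, he⟩
        have c2 := i3 R (fun e he => hR e (List.mem_append_right _ he))
        have e1 : R (hub k) (rv k b 0) :=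
          (hR1 (hub k, rv k b 0) (by unfold rE; simp)).1
        have e2 : R (rv k b L.length) (hub (k + 1)) :=
          (hR1 (rv k b L.length, hub (k + 1)) (by unfold rE; simp)).1
        rw [List.isChain_cons]
        constructor
        · intro y hy
          rw [List.head?_append_of_ne_nil _ (wd_ne_nil k b 0 L), head_wd] at hy
          obtain rfl : rv k b 0 = y := Option.some.inj hy
          exact e1
        · rw [List.isChain_append]
          refine ⟨c1, c2, ?_⟩
          intro x hx y hy
          rw [last_wd] at hx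
          rw [head_pth] at hy
          obtain rfl : rv k b (0 + L.length) = x := Option.some.inj hx
          obtain rfl : hub (k + 1) = y := Option.some.inj hy
          rw [Nat.zero_add]
          exact e2
      · intro g hg
        rw [hG, List.mem_append] at hg
        rcases hg with hg | hg
        · -- a gadget of the stage `k`
          have hg' : ∃ α i a, g = (k, α, i, a) ∧ (a, i) ∈ (if α = true then Q else P).zipIdx := by
            rw [List.mem_append, List.mem_map, List.mem_map] at hg
            rcases hg with ⟨q, hq, rfl⟩ | ⟨q, hq, rfl⟩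
            · exact ⟨false, q.2, q.1, rfl, by simpa using hq⟩
            · exact ⟨true, q.2, q.1, rfl, by simpa using hq⟩
          obtain ⟨α, i, a, rfl, ha⟩ := hg'
          refine ⟨le_rfl, ?_⟩
          simp only
          by_cases hα : α = b
          · right
            subst hα
            rw [← hL] at ha
            have key : ∀ (L : List Lb) (j : ℕ), (a, i) ∈ L.zipIdx j →
                [rv k α i, yv k α i, sh a, xv k α i, rv k α (i + 1)] <:+: wd k α j L := by
              intro L
              induction L with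
              | nil => intro j h; simp at h
              | cons c L ih =>
                intro j h
                rw [List.zipIdx_cons, List.mem_cons] at h
                rcases h with h | h
                · obtain ⟨rfl, rfl⟩ := Prod.mk.inj h
                  rw [wd]
                  have h3 : ∃ t, wd k α (i + 1) L = rv k α (i + 1) :: t := by
                    cases L with
                    | nil => exact ⟨[], rfl⟩
                    | cons d L => exact ⟨_, rfl⟩
                  obtain ⟨t, ht⟩ := h3
                  rw [ht]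
                  exact ⟨[], t, rfl⟩
                · rw [wd]
                  exact (ih (j + 1) h).trans ⟨[rv k α j, yv k α j, sh c, xv k α j], [], by simp⟩
            have h4 := key L 0 ha
            exact h4.trans ⟨[hub k], pth (k + 1) S bs, by simp⟩
          · left
            have key : ∀ v, (v = rv k α i ∨ v = xv k α i ∨ v = yv k α i) →
                v ∉ hub k :: (wd k b 0 L ++ pth (k + 1) S bs) := by
              intro v hv hmem
              rw [List.mem_cons, List.mem_append] at hmem
              rcases hmem with h | h | h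
              · rcases hv with rfl | rfl | rfl <;> simp [hub, rv, xv, yv] at h
              · rcases mem_wd h with ⟨j, _, h'⟩ | ⟨c, _, h'⟩
                · rcases hv with rfl | rfl | rfl <;> rcases h' with h' | h' | h' <;>
                    simp only [rv, xv, yv, Prod.mk.injEq] at h' <;> first | omega | exact hα h'.2.2.2.2
                · rcases hv with rfl | rfl | rfl <;> simp [hub, rv, xv, yv, sh] at h'
              · rcases mem_pth h with ⟨j, hj, h'⟩ | ⟨j, β, i', hj, h'⟩ | ⟨c, hc, h'⟩
                · rcases hv with rfl | rfl | rfl <;> simp [hub, rv, xv, yv, sh] at h'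
                · rcases hv with rfl | rfl | rfl <;> rcases h' with h' | h' | h' <;>
                    simp only [rv, xv, yv, Prod.mk.injEq] at h' <;> omega
                · rcases hv with rfl | rfl | rfl <;> simp [hub, rv, xv, yv, sh] at h'
            exact ⟨key _ (Or.inr (Or.inl rfl)), key _ (Or.inr (Or.inr rfl)), key _ (Or.inl rfl)⟩
        · -- a gadget of a later stage
          obtain ⟨j1, j2⟩ := i4 g hg
          refine ⟨by omega, ?_⟩
          rcases j2 with ⟨h1, h2, h3⟩ | h
          · left
            have key : ∀ v, (v = rv g.1 g.2.1 g.2.2.1 ∨ v = xv g.1 g.2.1 g.2.2.1 ∨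
                v = yv g.1 g.2.1 g.2.2.1) → v ∉ pth (k + 1) S bs →
                v ∉ hub k :: (wd k b 0 L ++ pth (k + 1) S bs) := by
              intro v hv hv' hmem
              rw [List.mem_cons, List.mem_append] at hmem
              rcases hmem with h | h | h
              · rcases hv with rfl | rfl | rfl <;> simp [hub, rv, xv, yv] at h
              · rcases mem_wd h with ⟨j, _, h'⟩ | ⟨c, _, h'⟩
                · rcases hv with rfl | rfl | rfl <;> rcases h' with h' | h' | h' <;>
                    simp only [rv, xv, yv, Prod.mk.injEq] at h' <;> omega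
                · rcases hv with rfl | rfl | rfl <;> simp [hub, rv, xv, yv, sh] at h'
              · exact hv' h
            exact ⟨key _ (Or.inr (Or.inl rfl)) h1, key _ (Or.inr (Or.inr rfl)) h2,
              key _ (Or.inl rfl) h3⟩
          · right
            exact h.trans ⟨hub k :: wd k b 0 L, [], by simp⟩

theorem main : S_RUN1 := by
  intro S bs hlen hnd
  obtain ⟨h1, h2, h3, h4⟩ := run1_aux (k := 0) hlen hnd
  refine ⟨⟨h1, head_pth 0 S bs, ?_, ?_⟩, ?_⟩
  · rw [h2, Nat.zero_add]
  · apply h3
    intro e he
    have he' : e ∈ EE S := he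
    unfold adS
    simp only [Prod.mk.eta, Bool.or_eq_true, decide_eq_true_eq]
    exact ⟨Or.inl he', Or.inr he'⟩
  · intro g hg
    have hg' : g ∈ gadk 0 S := hg
    obtain ⟨_, h⟩ := h4 g hg'
    unfold cln CL
    rcases h with ⟨hx, hy, hr⟩ | h
    · left
      refine ⟨hx, hy, ?_, ?_⟩
      · intro h
        exact hr (h.subset (by simp))
      · intro h
        exact hr (h.subset (by simp))
    · right
      left
      exact h

end Pool.Agent.W505.HTRun1
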