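import Pool.Agent.W749.NM.Stm
import Pool.Agent.W505.SM.SMRC
import Pool.Agent.W505.SM.SMRC3
import Pool.Agent.W930.SM.RC1
import Pool.Agent.W475.SM.RC2

/-! Project NM, task RCW: the no-residue lemma with two weights. -/

set_option autoImplicit false

namespace Pool.Agent.W505.NMRCW

open MeasureTheory Filter Pool.Agent.W426.SM Pool.Agent.W749.NM
open Pool.Agent.W505.SM.RC (term)

theorem main' (h1 : S_RC1) (h2 : S_RC2) (h3 : S_RC3) : S_RCW := by
  classical
  intro B _ η η' p β L M P a ℓ ω hη hp hω hq ⟨ε₀, hε₀, hid⟩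
  -- the extra terms
  let m := Fintype.card B
  let eB : Fin m ≃ B := (Fintype.equivFin B).symm
  let PX : B → MvPolynomial B ℂ := fun b => MvPolynomial.C (η b : ℂ) *
    Polynomial.aeval (∑ b', MvPolynomial.C (η b' : ℂ) * MvPolynomial.X b') β.divX
  let aX : B → Fin m → ℝ := fun b q => if eB q = b then 1 else 0
  let lX : B → Fin m → B → ℝ := fun b q b' => if eB q = b then 0 else if b' = eB q then 1 else 0
  have hX : ∀ b, ∃ ε₁ : ℝ, 0 < ε₁ ∧ ∀ ε : ℝ, 0 < ε → ε < ε₁ →
      (∀ R : ℝ, Integrable (fun y : B → ℝ =>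
        EE η' R (PX b) (aX b) (lX b) (fun b => ((ε * p b : ℝ) : ℂ) + y b * Complex.I)) volume) ∧
      Tendsto (fun R : ℝ => ∫ y : B → ℝ,
        EE η' R (PX b) (aX b) (lX b) (fun b => ((ε * p b : ℝ) : ℂ) + y b * Complex.I)) atTop
          (nhds 0) := by
    intro b
    apply term h1 h2 η' p (PX b) (aX b) (lX b) (fun b' => if b' = b then -1 else 0)
    · simp only [mul_ite, mul_neg, mul_one, mul_zero, Finset.sum_ite_eq', Finset.mem_univ, if_true]
      linarith [hη b]
    · intro q
      by_cases h : eB q = b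
      · left; simp [aX, h]
      · right
        simp only [lX, if_neg h]
        constructor
        · simp only [ite_mul, one_mul, zero_mul, Finset.sum_ite_eq', Finset.mem_univ, if_true]
          exact hp _
        · apply le_of_eq
          symm
          apply Finset.sum_eq_zero
          intro b' _
          by_cases h' : b' = eB q
          · rw [if_neg (show ¬ b' = b from fun h'' => h (h' ▸ h''))]; simp
          · rw [if_neg h']; simp
  have hT := fun l => term h1 h2 η' p (P l) (a l) (ℓ l) (ω l) (hω l) (hq l)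
  choose εX hεX hεX' using hX
  choose εT hεT hεT' using hT
  obtain ⟨ε, hε, hεa, hεb, hεc⟩ : ∃ ε : ℝ, 0 < ε ∧ ε < ε₀ ∧ (∀ b, ε < εX b) ∧ (∀ l, ε < εT l) := by
    have : ∀ᶠ ε : ℝ in nhdsWithin 0 (Set.Ioi 0), ε < ε₀ ∧ (∀ b, ε < εX b) ∧ (∀ l, ε < εT l) := by
      refine Eventually.and ?_ (Eventually.and ?_ ?_)
      · exact nhdsWithin_le_nhds (gt_mem_nhds hε₀)
      · rw [Filter.eventually_all]
        exact fun b => nhdsWithin_le_nhds (gt_mem_nhds (hεX b))
      · rw [Filter.eventually_all]
        exact fun b => nhdsWithin_le_nhds (gt_mem_nhds (hεT b))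
    obtain ⟨ε, h1, h2⟩ := (this.and self_mem_nhdsWithin).exists
    exact ⟨ε, h2, h1⟩
  have hidε := hid ε hε hεa
  -- pointwise identity
  have hpt : ∀ (R : ℝ) (y : B → ℝ),
      β.eval 0 * (Complex.exp ((R : ℂ) * (∑ b, (η' b : ℂ) * (((ε * p b : ℝ) : ℂ) + y b * Complex.I)) +
        ∑ b, (((ε * p b : ℝ) : ℂ) + y b * Complex.I) ^ 2) /
          ∏ b, (((ε * p b : ℝ) : ℂ) + y b * Complex.I)) =
      (∑ l, EE η' R (P l) (a l) (ℓ l) (fun b => ((ε * p b : ℝ) : ℂ) + y b * Complex.I)) -
      ∑ b, EE η' R (PX b) (aX b) (lX b) (fun b => ((ε * p b : ℝ) : ℂ) + y b * Complex.I) := by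
    intro R y
    have h := hidε y
    set z : B → ℂ := fun b => ((ε * p b : ℝ) : ℂ) + y b * Complex.I with hz
    have hz0 : ∀ b, z b ≠ 0 := by
      intro b hb
      have := congrArg Complex.re hb
      simp [hz] at this
      rcases this with h | h
      · exact hε.ne' h
      · exact (hp b).ne' h
    change β.eval (∑ b, (η b : ℂ) * z b) / ∏ b, z b = _ at h
    change β.eval 0 * (Complex.exp ((R : ℂ) * (∑ b, (η' b : ℂ) * z b) + ∑ b, z b ^ 2) /
      ∏ b, z b) = _
    set K := Complex.exp ((R : ℂ) * (∑ b, (η' b : ℂ) * z b) + ∑ b, z b ^ 2) with hK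
    have hL : (∑ l, EE η' R (P l) (a l) (ℓ l) z) = K * (β.eval (∑ b, (η b : ℂ) * z b) / ∏ b, z b) := by
      rw [h, Finset.mul_sum]
      rfl
    have hXt : ∀ b, EE η' R (PX b) (aX b) (lX b) z =
        K * ((η b : ℂ) * z b * (β.divX.eval (∑ b, (η b : ℂ) * z b)) / ∏ b, z b) := by
      intro b
      unfold EE
      rw [← hK]
      congr 1
      have e1 : MvPolynomial.eval z (PX b) = (η b : ℂ) * β.divX.eval (∑ b, (η b : ℂ) * z b) := by
        simp only [PX, map_mul, MvPolynomial.eval_C]
        congr 1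
        have : MvPolynomial.eval z (Polynomial.aeval
            (∑ b', MvPolynomial.C (η b' : ℂ) * MvPolynomial.X b' : MvPolynomial B ℂ) β.divX) =
            Polynomial.eval (MvPolynomial.eval z
              (∑ b', MvPolynomial.C (η b' : ℂ) * MvPolynomial.X b' : MvPolynomial B ℂ)) β.divX := by
          rw [Polynomial.aeval_def, Polynomial.hom_eval₂]
          have hcomp : (MvPolynomial.eval z).comp (algebraMap ℂ (MvPolynomial B ℂ)) =
              RingHom.id ℂ := by
            ext c
            simp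
          rw [hcomp]
          rfl
        rw [this]
        simp
      have e2 : ∏ q, aff (aX b q) (lX b q) z = ∏ q, (if eB q = b then 1 else z (eB q)) := by
        apply Finset.prod_congr rfl
        intro q _
        unfold aff
        by_cases hb : eB q = b
        · simp [aX, lX, hb]
        · simp only [aX, lX, if_neg hb]
          rw [Complex.ofReal_zero, zero_add, Finset.sum_eq_single (eB q)]
          · simp
          · intro b' _ hb'
            rw [if_neg hb']
            simp
          · intro h'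
            exact absurd (Finset.mem_univ _) h'
      have e3 : ∏ q, (if eB q = b then 1 else z (eB q)) = ∏ b', (if b' = b then 1 else z b') :=
        Equiv.prod_comp eB (fun b' => if b' = b then 1 else z b')
      have e4 : (∏ b', z b') = z b * ∏ b', (if b' = b then 1 else z b') := by
        rw [← Finset.mul_prod_erase Finset.univ z (Finset.mem_univ b),
          ← Finset.mul_prod_erase Finset.univ (fun b' => if b' = b then 1 else z b')
            (Finset.mem_univ b)]
        simp only [if_true, one_mul]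
        congr 1
        apply Finset.prod_congr rfl
        intro b' hb'
        rw [if_neg (Finset.ne_of_mem_erase hb')]
      rw [e1, e2, e3, e4]
      have hb0 := hz0 b
      have hne : (∏ b', (if b' = b then 1 else z b')) ≠ 0 := by
        rw [Finset.prod_ne_zero_iff]
        intro b' _
        split_ifs
        · exact one_ne_zero
        · exact hz0 b'
      field_simp
    rw [hL, Finset.sum_congr rfl (fun b _ => hXt b), ← Finset.mul_sum, ← Finset.sum_div,
      ← Finset.sum_mul, ← mul_sub, ← sub_div]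
    have hβ : β.eval (∑ b, (η b : ℂ) * z b) =
        β.divX.eval (∑ b, (η b : ℂ) * z b) * (∑ b, (η b : ℂ) * z b) + β.eval 0 := by
      conv_lhs => rw [← Polynomial.divX_mul_X_add β]
      simp [Polynomial.coeff_zero_eq_eval_zero]
    rw [hβ]
    ring
  -- integrate
  have hint : ∀ R : ℝ, β.eval 0 * (∫ y : B → ℝ,
      Complex.exp ((R : ℂ) * (∑ b, (η' b : ℂ) * (((ε * p b : ℝ) : ℂ) + y b * Complex.I)) +
        ∑ b, (((ε * p b : ℝ) : ℂ) + y b * Complex.I) ^ 2) /
          ∏ b, (((ε * p b : ℝ) : ℂ) + y b * Complex.I)) =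
      (∑ l, ∫ y : B → ℝ, EE η' R (P l) (a l) (ℓ l) (fun b => ((ε * p b : ℝ) : ℂ) + y b * Complex.I)) -
      ∑ b, ∫ y : B → ℝ, EE η' R (PX b) (aX b) (lX b)
        (fun b => ((ε * p b : ℝ) : ℂ) + y b * Complex.I) := by
    intro R
    rw [← integral_const_mul]
    simp_rw [hpt R]
    rw [integral_sub, integral_finsetSum, integral_finsetSum]
    · exact fun b _ => (hεX' b ε hε (hεb b)).1 R
    · exact fun l _ => (hεT' l ε hε (hεc l)).1 R
    · exact integrable_finsetSum _ fun l _ => (hεT' l ε hε (hεc l)).1 R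
    · exact integrable_finsetSum _ fun b _ => (hεX' b ε hε (hεb b)).1 R
  have hlim1 := (h3 B η' (fun b => ε * p b) hη (fun b => mul_pos hε (hp b))).const_mul (β.eval 0)
  simp_rw [hint] at hlim1
  have hlim2 : Tendsto (fun R : ℝ =>
      (∑ l, ∫ y : B → ℝ, EE η' R (P l) (a l) (ℓ l) (fun b => ((ε * p b : ℝ) : ℂ) + y b * Complex.I)) -
      ∑ b, ∫ y : B → ℝ, EE η' R (PX b) (aX b) (lX b)
        (fun b => ((ε * p b : ℝ) : ℂ) + y b * Complex.I)) atTop (nhds (∑ _l : Fin L, (0 : ℂ) -
          ∑ _b : B, (0 : ℂ))) := by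
    apply Tendsto.sub
    · exact tendsto_finsetSum _ fun l _ => (hεT' l ε hε (hεc l)).2
    · exact tendsto_finsetSum _ fun b _ => (hεX' b ε hε (hεb b)).2
  have := tendsto_nhds_unique hlim1 hlim2
  simp only [Finset.sum_const_zero, sub_zero] at this
  rcases mul_eq_zero.mp this with h | h
  · exact h
  · exfalso
    have : (2 * Real.pi : ℂ) ≠ 0 := by
      norm_cast
      positivity
    exact pow_ne_zero _ this h

theorem main : S_RCW :=
  main' Pool.Agent.W930.SM.RC1.main Pool.Agent.W475.SM.main Pool.Agent.W505.SM.RC3.main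

end Pool.Agent.W505.NMRCW
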