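import Pool.Agent.W217.BE.Stm2

/-!
Project BE, part DEHOM: Betti numbers and reduction modulo the regular element `X - 1`.
-/

set_option autoImplicit false

namespace Pool.Agent.W505.BEDEHOM

open Pool.Agent.W217.BE

open Polynomial

section quotient

variable (C P : Type) [CommRing C] [AddCommGroup P] [Module C[X] P]

/-- the quotient of `P` by the multiples of `X - 1` -/
def Qt : Type := P ⧸ (LinearMap.range (LinearMap.lsmul C[X] P (X - 1 : C[X])))

noncomputable instance : AddCommGroup (Qt C P) :=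
  inferInstanceAs (AddCommGroup (P ⧸ (LinearMap.range (LinearMap.lsmul C[X] P (X - 1 : C[X])))))

/-- the structure of a module over the polynomials -/
@[instance_reducible] noncomputable def qtMod : Module C[X] (Qt C P) :=
  inferInstanceAs (Module C[X] (P ⧸ (LinearMap.range (LinearMap.lsmul C[X] P (X - 1 : C[X])))))

noncomputable instance : Module C (Qt C P) :=
  letI := qtMod C P
  Module.compHom (Qt C P) (Polynomial.C : C →+* C[X])

/-- the quotient map -/
noncomputable def qmk : P →+ Qt C P :=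
  ((LinearMap.range (LinearMap.lsmul C[X] P (X - 1 : C[X]))).mkQ).toAddMonoidHom

theorem qmk_surj : Function.Surjective (qmk C P) :=
  Submodule.mkQ_surjective _

theorem qmk_eq_zero {x : P} : qmk C P x = 0 ↔ ∃ z : P, x = (X - 1 : C[X]) • z := by
  have h : qmk C P x = 0 ↔ x ∈ LinearMap.range (LinearMap.lsmul C[X] P (X - 1 : C[X])) :=
    Submodule.Quotient.mk_eq_zero _
  rw [h]
  constructor
  · rintro ⟨z, hz⟩
    exact ⟨z, hz.symm⟩
  · rintro ⟨z, hz⟩
    exact ⟨z, hz.symm⟩

theorem qmk_C (c : C) (x : P) : qmk C P (Polynomial.C c • x) = c • qmk C P x := rfl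

theorem eval_split (s : C[X]) : ∃ t : C[X], s = Polynomial.C (s.eval 1) + (X - 1) * t := by
  obtain ⟨t, ht⟩ := Polynomial.X_sub_C_dvd_sub_C_eval (a := (1 : C)) (p := s)
  refine ⟨t, ?_⟩
  rw [map_one] at ht
  rw [← ht]
  ring

theorem qmk_smul (s : C[X]) (x : P) : qmk C P (s • x) = s.eval 1 • qmk C P x := by
  obtain ⟨t, ht⟩ := eval_split C s
  have h1 : qmk C P (((X - 1 : C[X]) * t) • x) = 0 := by
    rw [qmk_eq_zero]
    exact ⟨t • x, by rw [mul_smul]⟩
  conv_lhs => rw [ht, add_smul, map_add, h1, add_zero]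
  exact qmk_C C P _ _

end quotient

section desc

theorem desc {P Q T : Type} [AddCommGroup P] [AddCommGroup Q] [AddCommGroup T] (π : P →+ Q)
    (hπ : Function.Surjective π) (f : P →+ T) (h : ∀ x, π x = 0 → f x = 0) :
    ∃ g : Q →+ T, ∀ x, g (π x) = f x := by
  have h1 : ∀ x x', π x = π x' → f x = f x' := by
    intro x x' hx
    rw [← sub_eq_zero, ← map_sub] at hx ⊢
    exact h _ hx
  have h2 : ∀ q, π (Function.surjInv hπ q) = q := Function.surjInv_eq hπ
  refine ⟨⟨⟨fun q => f (Function.surjInv hπ q), ?_⟩, ?_⟩, ?_⟩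
  · refine h _ (h2 0)
  · intro a b
    simp only
    rw [← map_add]
    refine h1 _ _ ?_
    rw [h2, map_add, h2, h2]
  · intro x
    exact h1 _ _ (h2 _)

theorem descL {C P Q T : Type} [CommRing C] [AddCommGroup P] [Module C[X] P] [AddCommGroup Q]
    [Module C Q] [AddCommGroup T] [Module C T] (π : P →+ Q) (hπ : Function.Surjective π)
    (hπC : ∀ (c : C) x, π (Polynomial.C c • x) = c • π x) (f : P →+ T)
    (hf : ∀ (c : C) x, f (Polynomial.C c • x) = c • f x) (h : ∀ x, π x = 0 → f x = 0) :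
    ∃ g : Q →ₗ[C] T, ∀ x, g (π x) = f x := by
  obtain ⟨g, hg⟩ := desc π hπ f h
  refine ⟨⟨⟨g, g.map_add⟩, ?_⟩, hg⟩
  intro c q
  obtain ⟨x, rfl⟩ := hπ q
  change g (c • π x) = c • g (π x)
  rw [← hπC, hg, hg, hf]

end desc

section proj

variable {C P : Type} [CommRing C] [AddCommGroup P] [Module C[X] P]

theorem reg_of_proj (hP : Module.Projective C[X] P) (x : P) (hx : (X - 1 : C[X]) • x = 0) :
    x = 0 := by
  obtain ⟨s, hs⟩ := hP.out
  have h1 : (X - 1 : C[X]) • s x = 0 := by rw [← map_smul, hx, map_zero]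
  have h2 : s x = 0 := by
    ext1 p
    have h3 := DFunLike.congr_fun h1 p
    rw [Finsupp.smul_apply, Finsupp.zero_apply, smul_eq_mul] at h3
    rw [Finsupp.zero_apply]
    have h4 : (X - 1 : C[X]).Monic := by
      have := Polynomial.monic_X_sub_C (1 : C)
      rwa [map_one] at this
    exact (h4.isRegular.left) (by simpa using h3)
  rw [← hs x, h2, map_zero]

theorem qt_proj (hP : Module.Projective C[X] P) : Module.Projective C (Qt C P) := by
  obtain ⟨s, hs⟩ := hP.out
  let ev : C[X] →+ C := (Polynomial.evalRingHom (1 : C)).toAddMonoidHom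
  let F : P →+ (Qt C P →₀ C) :=
    (Finsupp.mapDomain.addMonoidHom (M := C) (qmk C P)).comp
      ((Finsupp.mapRange.addMonoidHom (ι := P) ev).comp s.toAddMonoidHom)
  have hF : ∀ x, F x = Finsupp.mapDomain (qmk C P) (Finsupp.mapRange ev (map_zero ev) (s x)) :=
    fun x => rfl
  have hFs : ∀ (t : C[X]) x, F (t • x) = t.eval 1 • F x := by
    intro t x
    rw [hF, hF, map_smul, ← Finsupp.mapDomain_smul]
    congr 1
    ext p
    simp [ev]
  have hker : ∀ x, qmk C P x = 0 → F x = 0 := by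
    intro x hx
    obtain ⟨z, rfl⟩ := (qmk_eq_zero C P).1 hx
    rw [hFs]
    simp
  obtain ⟨g, hg⟩ := descL (qmk C P) (qmk_surj C P) (qmk_C C P) F (fun c x => by
    rw [hFs, Polynomial.eval_C]) hker
  refine ⟨⟨g, ?_⟩⟩
  intro q
  obtain ⟨x, rfl⟩ := qmk_surj C P q
  rw [hg, hF, Finsupp.linearCombination_mapDomain]
  conv_rhs => rw [← hs x]
  rw [Finsupp.linearCombination_apply, Finsupp.linearCombination_apply,
    Finsupp.sum_mapRange_index (by simp), Finsupp.sum, Finsupp.sum, map_sum]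
  refine Finset.sum_congr rfl fun p _ => ?_
  rw [qmk_smul]
  rfl

end proj

theorem main : DEHOM := by
  intro C κ _ _ χ M M' _ _ _ _ ρ b hρ hρs hρk hreg hHB P _ _ _ d ε hres i
  obtain ⟨hε, hd0, hdd⟩ := hres
  have hy1 : (X - 1 : C[X]).eval 1 = 0 := by simp
  -- the differentials
  have hd' : ∀ i, ∃ g : Qt C (P (i + 1)) →ₗ[C] Qt C (P i),
      ∀ x, g (qmk C (P (i + 1)) x) = qmk C (P i) (d i x) := by
    intro i
    refine descL (qmk C (P (i + 1))) (qmk_surj C _) (qmk_C C _)
      ((qmk C (P i)).comp (d i).toAddMonoidHom) ?_ ?_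
    · intro c x
      change qmk C (P i) (d i (Polynomial.C c • x)) = c • qmk C (P i) (d i x)
      rw [map_smul, qmk_C]
    · intro x hx
      obtain ⟨z, rfl⟩ := (qmk_eq_zero C _).1 hx
      change qmk C (P i) (d i ((X - 1 : C[X]) • z)) = 0
      rw [map_smul, qmk_smul, hy1, zero_smul]
  choose d' hd' using hd'
  obtain ⟨ε', hε'⟩ : ∃ g : Qt C (P 0) →ₗ[C] M', ∀ x, g (qmk C (P 0) x) = ρ (ε x) := by
    refine descL (qmk C (P 0)) (qmk_surj C _) (qmk_C C _) (ρ.comp ε.toAddMonoidHom) ?_ ?_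
    · intro c x
      change ρ (ε (Polynomial.C c • x)) = c • ρ (ε x)
      rw [map_smul, hρs, Polynomial.eval_C]
    · intro x hx
      obtain ⟨z, rfl⟩ := (qmk_eq_zero C _).1 hx
      change ρ (ε ((X - 1 : C[X]) • z)) = 0
      rw [map_smul, hρs, hy1, zero_smul]
  have hεd : ∀ x, ε (d 0 x) = 0 := fun x => by
    have : d 0 x ∈ LinearMap.range (d 0) := ⟨x, rfl⟩
    rw [hd0] at this
    exact this
  have hdd0 : ∀ i x, d i (d (i + 1) x) = 0 := fun i x => by
    have : d (i + 1) x ∈ LinearMap.range (d (i + 1)) := ⟨x, rfl⟩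
    rw [hdd i] at this
    exact this
  have hyP : ∀ i (z : P i), qmk C (P i) ((X - 1 : C[X]) • z) = 0 := fun i z => by
    rw [qmk_smul, hy1, zero_smul]
  -- exactness
  have hlift : ∀ i (x : P (i + 1)) (z : P i), d i x = (X - 1 : C[X]) • z →
      ∃ w, z = d i w := by
    intro i x z hz
    cases i with
    | zero =>
      have h1 : (X - 1 : C[X]) • ε z = 0 := by rw [← map_smul, ← hz, hεd]
      have h2 : z ∈ LinearMap.ker ε := hreg _ h1
      rw [← hd0] at h2
      obtain ⟨w, hw⟩ := h2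
      exact ⟨w, hw.symm⟩
    | succ k =>
      have h1 : (X - 1 : C[X]) • d k z = 0 := by rw [← map_smul, ← hz, hdd0]
      have h2 : z ∈ LinearMap.ker (d k) := reg_of_proj inferInstance _ h1
      rw [← hdd k] at h2
      obtain ⟨w, hw⟩ := h2
      exact ⟨w, hw.symm⟩
  have hres' : IsRes (P := fun i => Qt C (P i)) d' ε' := by
    refine ⟨?_, ?_, ?_⟩
    · intro m'
      obtain ⟨m, rfl⟩ := hρ m'
      obtain ⟨x, rfl⟩ := hε m
      exact ⟨qmk C (P 0) x, hε' x⟩
    · apply le_antisymm
      · rintro _ ⟨q, rfl⟩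
        obtain ⟨x, rfl⟩ := qmk_surj C _ q
        rw [LinearMap.mem_ker, hd', hε', hεd, map_zero]
      · intro q hq
        obtain ⟨x, rfl⟩ := qmk_surj C _ q
        rw [LinearMap.mem_ker, hε'] at hq
        obtain ⟨m, hm⟩ := hρk _ hq
        obtain ⟨w, rfl⟩ := hε m
        have h1 : x - (X - 1 : C[X]) • w ∈ LinearMap.ker ε := by
          rw [LinearMap.mem_ker, map_sub, map_smul, hm, sub_self]
        rw [← hd0] at h1
        obtain ⟨v, hv⟩ := h1
        refine ⟨qmk C (P (0 + 1)) v, ?_⟩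
        rw [hd', hv, map_sub, hyP, sub_zero]
    · intro i
      apply le_antisymm
      · rintro _ ⟨q, rfl⟩
        obtain ⟨x, rfl⟩ := qmk_surj C _ q
        rw [LinearMap.mem_ker, hd', hd', hdd0, map_zero]
      · intro q hq
        obtain ⟨x, rfl⟩ := qmk_surj C _ q
        rw [LinearMap.mem_ker, hd', qmk_eq_zero] at hq
        obtain ⟨z, hz⟩ := hq
        obtain ⟨w, rfl⟩ := hlift i x z hz
        have h1 : x - (X - 1 : C[X]) • w ∈ LinearMap.ker (d i) := by
          rw [LinearMap.mem_ker, map_sub, map_smul, hz, sub_self]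
        rw [← hdd i] at h1
        obtain ⟨v, hv⟩ := h1
        refine ⟨qmk C (P (i + 1 + 1)) v, ?_⟩
        rw [hd', hv, map_sub, hyP, sub_zero]
  have hproj : ∀ i, Module.Projective C (Qt C (P i)) := fun i => qt_proj inferInstance
  obtain ⟨z', l', hz', hl1, hl2, hl3⟩ := hHB (fun i => Qt C (P i)) d' ε' hres' i
  choose z hz using fun j => qmk_surj C (P i) (z' j)
  refine ⟨z, fun j => (l' j).comp (qmk C (P i)), ?_, ?_, ?_, ?_⟩
  · intro j
    have h1 := hz' j
    rw [← hz j] at h1
    cases i with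
    | zero => exact trivial
    | succ k =>
      intro L hL
      obtain ⟨L', hL'⟩ := desc (qmk C (P k)) (qmk_surj C _) L (fun x hx => by
        obtain ⟨w, rfl⟩ := (qmk_eq_zero C _).1 hx
        rw [hL, RingHom.comp_apply, Polynomial.coe_evalRingHom, hy1, map_zero, zero_mul])
      have h2 := h1 L' (fun c q => by
        obtain ⟨x, rfl⟩ := qmk_surj C _ q
        rw [← qmk_C, hL', hL', hL, RingHom.comp_apply, Polynomial.coe_evalRingHom,
          Polynomial.eval_C])
      rw [hd', hL'] at h2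
      exact h2
  · intro j s x
    change l' j (qmk C (P i) (s • x)) = _ * l' j (qmk C (P i) x)
    rw [qmk_smul, hl1, RingHom.comp_apply, Polynomial.coe_evalRingHom]
  · intro j x
    change l' j (qmk C (P i) (d i x)) = 0
    rw [← hd', hl2]
  · intro j k
    change l' j (qmk C (P i) (z k)) = _
    rw [hz, hl3]

end Pool.Agent.W505.BEDEHOM
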