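import Pool.Agent.W996.EC.Stm

/-! EC project: compactness and diagonal sequences. -/

set_option autoImplicit false

namespace Pool.Agent.W505.EC

open Pool.Agent.W996.EC
open MvPolynomial Filter Topology

/-- the finite set of exponents of degree at most `d` -/
noncomputable def Dd (n d : ℕ) : Finset (Fin n →₀ ℕ) := (Finsupp.finite_of_degree_le (σ := Fin n) d).toFinset

theorem mem_Dd {n d : ℕ} {m : Fin n →₀ ℕ} : m ∈ Dd n d ↔ m.degree ≤ d := by
  unfold Dd
  simp

theorem coeff_zero' {n d : ℕ} {p : MvPolynomial (Fin n) ℂ} (hp : p.totalDegree ≤ d)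
    {m : Fin n →₀ ℕ} (hm : m ∉ Dd n d) : coeff m p = 0 := by
  rw [mem_Dd, not_le] at hm
  apply coeff_eq_zero_of_totalDegree_lt
  exact lt_of_le_of_lt hp hm

/-- degree bound from the vanishing of coefficients -/
theorem totalDegree_le' {n d : ℕ} {p : MvPolynomial (Fin n) ℂ}
    (h : ∀ m : Fin n →₀ ℕ, d < m.degree → coeff m p = 0) : p.totalDegree ≤ d := by
  rw [totalDegree]
  apply Finset.sup_le
  intro m hm
  by_contra hcon
  rw [not_le] at hcon
  rw [mem_support_iff] at hm
  exact hm (h m hcon)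

/-- the polynomial with given coefficients of degree at most `d` -/
noncomputable def ofC {n d : ℕ} (a : Dd n d → ℂ) : MvPolynomial (Fin n) ℂ :=
  ∑ m : Dd n d, monomial m.1 (a m)

theorem coeff_ofC {n d : ℕ} (a : Dd n d → ℂ) (m : Fin n →₀ ℕ) :
    coeff m (ofC a) = if h : m ∈ Dd n d then a ⟨m, h⟩ else 0 := by
  classical
  unfold ofC
  rw [coeff_sum]
  simp only [coeff_monomial]
  split_ifs with h
  · rw [Finset.sum_eq_single ⟨m, h⟩]
    · simp
    · intro b _ hb
      rw [if_neg]
      intro hbm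
      exact hb (Subtype.ext hbm)
    · intro h'
      exact absurd (Finset.mem_univ _) h'
  · apply Finset.sum_eq_zero
    intro b _
    rw [if_neg]
    intro hbm
    exact h (hbm ▸ b.2)

theorem t_cpt : S_cpt := by
  intro n d p hd hp
  classical
  -- coefficient vectors
  let v : ℕ → (Dd n d → ℂ) := fun j m => coeff m.1 (p j)
  have hv : ∀ j, v j ≠ 0 := by
    intro j h
    apply hp j
    ext m
    by_cases hm : m ∈ Dd n d
    · have := congrFun h ⟨m, hm⟩
      simpa [v] using this
    · rw [coeff_zero' (hd j) hm, coeff_zero]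
  have hvn : ∀ j, 0 < ‖v j‖ := fun j => norm_pos_iff.2 (hv j)
  let w : ℕ → (Dd n d → ℂ) := fun j => ((‖v j‖ : ℂ))⁻¹ • v j
  have hw : ∀ j, w j ∈ Metric.sphere (0 : Dd n d → ℂ) 1 := by
    intro j
    rw [mem_sphere_zero_iff_norm]
    simp only [w]
    rw [norm_smul, norm_inv, Complex.norm_real, norm_norm, inv_mul_cancel₀ (hvn j).ne']
  obtain ⟨a, ha, φ, hφ, hlim⟩ := (isCompact_sphere (0 : Dd n d → ℂ) 1).tendsto_subseq hw
  rw [mem_sphere_zero_iff_norm] at ha
  refine ⟨φ, hφ, fun j => ((‖v (φ j)‖ : ℂ))⁻¹, ofC a, ?_, ?_, ?_, ⟨d, ?_⟩, ?_⟩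
  · intro j
    apply inv_ne_zero
    exact_mod_cast (hvn (φ j)).ne'
  · intro h
    have ha0 : a = 0 := by
      funext m
      have h1 := coeff_ofC a m.1
      rw [h, coeff_zero, dif_pos m.2] at h1
      exact h1.symm
    rw [ha0, norm_zero] at ha
    exact zero_ne_one ha
  · apply totalDegree_le'
    intro m hm
    rw [coeff_ofC, dif_neg]
    rw [mem_Dd, not_le]
    exact hm
  · intro j
    refine (totalDegree_mul _ _).trans ?_
    rw [totalDegree_C, zero_add]
    exact hd _
  · intro m
    rw [coeff_ofC]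
    split_ifs with h
    · have h1 := (tendsto_pi_nhds.1 hlim) ⟨m, h⟩
      refine h1.congr fun j => ?_
      simp only [Function.comp, w, v, Pi.smul_apply, smul_eq_mul]
      rw [coeff_C_mul]
    · refine tendsto_const_nhds.congr fun j => ?_
      rw [coeff_C_mul, coeff_zero' (hd _) h, mul_zero]

theorem t_diag : S_diag := by
  intro n d p q r hd hpq hqr G hG
  classical
  have hev : ∀ i, ∀ᶠ j in atTop, G i j ∧ ∀ m ∈ Dd n d,
      ‖coeff m (p i j) - coeff m (q i)‖ < 1 / ((i : ℝ) + 1) := by
    intro i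
    refine (hG i).and ?_
    rw [Filter.eventually_all_finset]
    intro m _
    have h1 := (hpq i).2 m
    have h2 : (0 : ℝ) < 1 / ((i : ℝ) + 1) := by positivity
    have h3 := (Metric.tendsto_nhds.1 h1) _ h2
    filter_upwards [h3] with j hj
    rwa [dist_eq_norm] at hj
  choose φ hφ using fun i => (hev i).exists
  refine ⟨φ, fun i => (hφ i).1, ⟨d, fun i => hd i _⟩, ?_⟩
  intro m
  by_cases hm : m ∈ Dd n d
  · have h1 : Tendsto (fun i => coeff m (p i (φ i)) - coeff m (q i)) atTop (𝓝 0) := by
      apply squeeze_zero_norm (a := fun i : ℕ => 1 / ((i : ℝ) + 1))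
      · intro i
        exact ((hφ i).2 m hm).le
      · exact tendsto_one_div_add_atTop_nhds_zero_nat
    have h2 := h1.add (hqr.2 m)
    simpa using h2
  · have h1 : ∀ i j, coeff m (p i j) = 0 := fun i j => coeff_zero' (hd i j) hm
    have h2 : ∀ i, coeff m (q i) = 0 := by
      intro i
      have h3 := (hpq i).2 m
      simp only [h1] at h3
      exact (tendsto_nhds_unique h3 tendsto_const_nhds)
    have h4 := hqr.2 m
    simp only [h2] at h4
    have h5 : coeff m r = 0 := tendsto_nhds_unique h4 tendsto_const_nhds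
    rw [h5]
    simp only [h1]
    exact tendsto_const_nhds

end Pool.Agent.W505.EC
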