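import Pool.Agent.W505.ECCpt

/-! EC project: Ekeland descent from scaled to unscaled limits. -/

set_option autoImplicit false

namespace Pool.Agent.W505.EC

open Pool.Agent.W996.EC
open MvPolynomial Filter Topology

variable {n : ℕ}

/-! ### evaluation along convergent sequences -/

theorem eval_Dd {d : ℕ} {p : MvPolynomial (Fin n) ℂ} (hp : p.totalDegree ≤ d) (x : Fin n → ℂ) :
    eval x p = ∑ m ∈ Dd n d, coeff m p * ∏ i, x i ^ m i := by
  rw [eval_eq']
  apply Finset.sum_subset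
  · intro m hm
    by_contra hcon
    rw [mem_support_iff] at hm
    exact hm (coeff_zero' hp hcon)
  · intro m _ hm
    rw [notMem_support_iff] at hm
    rw [hm, zero_mul]

theorem conv_deg {p : ℕ → MvPolynomial (Fin n) ℂ} {q : MvPolynomial (Fin n) ℂ} {d : ℕ}
    (hd : ∀ j, (p j).totalDegree ≤ d) (hc : ∀ m, Tendsto (fun j => coeff m (p j)) atTop (𝓝 (coeff m q))) :
    q.totalDegree ≤ d := by
  apply totalDegree_le'
  intro m hm
  have h1 := hc m
  have h2 : ∀ j, coeff m (p j) = 0 := fun j => coeff_zero' (hd j) (by rw [mem_Dd, not_le]; exact hm)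
  simp only [h2] at h1
  exact tendsto_nhds_unique h1 tendsto_const_nhds

theorem conv_eval {p : ℕ → MvPolynomial (Fin n) ℂ} {q : MvPolynomial (Fin n) ℂ} (h : Conv p q)
    {x : ℕ → Fin n → ℂ} {x0 : Fin n → ℂ} (hx : Tendsto x atTop (𝓝 x0)) :
    Tendsto (fun j => eval (x j) (p j)) atTop (𝓝 (eval x0 q)) := by
  obtain ⟨⟨d, hd⟩, hc⟩ := h
  have hq := conv_deg hd hc
  rw [eval_Dd hq]
  have e : (fun j => eval (x j) (p j)) =
      fun j => ∑ m ∈ Dd n d, coeff m (p j) * ∏ i, x j i ^ m i := by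
    funext j
    exact eval_Dd (hd j) _
  rw [e]
  refine tendsto_finsetSum _ fun m _ => (hc m).mul ?_
  refine tendsto_finsetProd _ fun i _ => ?_
  exact ((tendsto_pi_nhds.1 hx) i).pow _

theorem conv_sub {p : ℕ → MvPolynomial (Fin n) ℂ} {q : MvPolynomial (Fin n) ℂ} (h : Conv p q)
    {ψ : ℕ → ℕ} (hψ : Tendsto ψ atTop atTop) : Conv (fun j => p (ψ j)) q := by
  obtain ⟨⟨d, hd⟩, hc⟩ := h
  exact ⟨⟨d, fun j => hd _⟩, fun m => (hc m).comp hψ⟩

/-! ### dilations -/

theorem tr_dil (lam : ℝ) (Q : MvPolynomial (Fin n) ℂ) :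
    tr lam 0 Q = ∑ m ∈ Q.support, monomial m ((lam : ℂ) ^ m.degree * coeff m Q) := by
  apply MvPolynomial.funext
  intro x
  rw [eval_tr, eval_eq', map_sum]
  apply Finset.sum_congr rfl
  intro m _
  rw [eval_monomial]
  have h1 : ∏ i, ((lam : ℂ) * x i + Complex.I * (((0 : Fin n → ℝ) i : ℝ) : ℂ)) ^ m i =
      (lam : ℂ) ^ m.degree * ∏ i, x i ^ m i := by
    have h2 : ∀ i, ((lam : ℂ) * x i + Complex.I * (((0 : Fin n → ℝ) i : ℝ) : ℂ)) ^ m i =
        (lam : ℂ) ^ m i * x i ^ m i := by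
      intro i
      simp [mul_pow]
    rw [Finset.prod_congr rfl (fun i _ => h2 i), Finset.prod_mul_distrib, Finset.prod_pow_eq_pow_sum]
    congr 2
    rw [Finsupp.degree_eq_sum]
  rw [h1, Finsupp.prod_fintype _ _ (fun i => pow_zero _)]
  ring

theorem coeff_dil (lam : ℝ) (Q : MvPolynomial (Fin n) ℂ) (m : Fin n →₀ ℕ) :
    coeff m (tr lam 0 Q) = (lam : ℂ) ^ m.degree * coeff m Q := by
  classical
  rw [tr_dil, coeff_sum]
  simp only [coeff_monomial]
  by_cases hm : m ∈ Q.support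
  · rw [Finset.sum_eq_single m]
    · rw [if_pos rfl]
    · intro b _ hb
      rw [if_neg hb]
    · intro h
      exact absurd hm h
  · rw [Finset.sum_eq_zero]
    · rw [notMem_support_iff] at hm
      rw [hm, mul_zero]
    · intro b hb
      rw [if_neg]
      intro h
      exact hm (h ▸ hb)

theorem coeff_tr (lam : ℝ) (k : Fin n → ℝ) (P : MvPolynomial (Fin n) ℂ) (m : Fin n →₀ ℕ) :
    coeff m (tr lam k P) = (lam : ℂ) ^ m.degree * coeff m (tr 1 k P) := by
  rw [← coeff_dil, tr_tr]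
  congr 2
  · ring
  · funext i
    simp

/-! ### the distance to the zero set -/

/-- imaginary vector -/
noncomputable def imv (k : Fin n → ℝ) : Fin n → ℂ := fun i => Complex.I * (k i : ℂ)

theorem imv_cont : Continuous (imv : (Fin n → ℝ) → (Fin n → ℂ)) := by
  refine continuous_pi fun i => ?_
  exact continuous_const.mul (Complex.continuous_ofReal.comp (continuous_apply i))

/-- the zero set -/
def ZZ (P : MvPolynomial (Fin n) ℂ) : Set (Fin n → ℂ) := {x | eval x P = 0}

theorem ZZ_closed (P : MvPolynomial (Fin n) ℂ) : IsClosed (ZZ P) :=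
  isClosed_eq (MvPolynomial.continuous_eval P) continuous_const

/-- the distance from `i k` to the zero set -/
noncomputable def rh (P : MvPolynomial (Fin n) ℂ) (k : Fin n → ℝ) : ℝ :=
  Metric.infDist (imv k) (ZZ P)

theorem rh_nonneg (P : MvPolynomial (Fin n) ℂ) (k : Fin n → ℝ) : 0 ≤ rh P k :=
  Metric.infDist_nonneg

theorem rh_cont (P : MvPolynomial (Fin n) ℂ) : Continuous (rh P) :=
  (Metric.continuous_infDist_pt _).comp imv_cont

theorem rh_le {P : MvPolynomial (Fin n) ℂ} {k : Fin n → ℝ} {z : Fin n → ℂ} (hz : eval z P = 0) :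
    rh P k ≤ ‖imv k - z‖ := by
  rw [← dist_eq_norm]
  exact Metric.infDist_le_dist_of_mem hz

/-- a zero of `tr r k P` of norm `rh P k / r` -/
theorem exists_zero {P : MvPolynomial (Fin n) ℂ} (hZ : (ZZ P).Nonempty) (k : Fin n → ℝ) {r : ℝ}
    (hr : 0 < r) : ∃ y : Fin n → ℂ, ‖y‖ = rh P k / r ∧ eval y (tr r k P) = 0 := by
  obtain ⟨z, hz, hd⟩ := (ZZ_closed P).exists_infDist_eq_dist hZ (imv k)
  have hrc : (r : ℂ) ≠ 0 := by exact_mod_cast hr.ne'
  refine ⟨(r : ℂ)⁻¹ • (z - imv k), ?_, ?_⟩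
  · rw [norm_smul, norm_inv, Complex.norm_real, Real.norm_eq_abs, abs_of_pos hr]
    unfold rh
    rw [hd, dist_eq_norm, norm_sub_rev]
    field_simp
  · rw [eval_tr]
    have : (fun i => (r : ℂ) * ((r : ℂ)⁻¹ • (z - imv k)) i + Complex.I * (k i : ℂ)) = z := by
      funext i
      simp only [Pi.smul_apply, Pi.sub_apply, smul_eq_mul, imv]
      field_simp
      ring
    rw [this]
    exact hz

/-- the minimiser -/
theorem exists_min (P : MvPolynomial (Fin n) ℂ) (k0 : Fin n → ℝ) :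
    ∃ k' : Fin n → ℝ, ∀ k, rh P k' + ‖k' - k0‖ / 2 ≤ rh P k + ‖k - k0‖ / 2 := by
  have hc : Continuous (fun k => rh P k + ‖k - k0‖ / 2) := by
    have := rh_cont P
    fun_prop
  have ht : Tendsto (fun k => rh P k + ‖k - k0‖ / 2) (cocompact (Fin n → ℝ)) atTop := by
    have h1 : Tendsto (fun k : Fin n → ℝ => (‖k‖ - ‖k0‖) / 2) (cocompact (Fin n → ℝ)) atTop := by
      apply Tendsto.atTop_div_const two_pos
      exact tendsto_atTop_add_const_right _ _ tendsto_norm_cocompact_atTop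
    refine tendsto_atTop_mono (fun k => ?_) h1
    have h2 := norm_sub_norm_le k k0
    have h3 := rh_nonneg P k
    linarith
  exact hc.exists_forall_le ht

/-- a nonconstant limit -/
theorem limit_zero {p : ℕ → MvPolynomial (Fin n) ℂ} {s : MvPolynomial (Fin n) ℂ} (h : Conv p s)
    {y : ℕ → Fin n → ℂ} {B : ℝ} (hy : ∀ j, ‖y j‖ ≤ B) (hz : ∀ j, eval (y j) (p j) = 0) :
    ∃ x, ‖x‖ ≤ B ∧ eval x s = 0 := by
  obtain ⟨x, hx, φ, hφ, hlim⟩ := (isCompact_closedBall (0 : Fin n → ℂ) B).tendsto_subseq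
    (x := y) (fun j => by rw [mem_closedBall_zero_iff]; exact hy j)
  rw [mem_closedBall_zero_iff] at hx
  refine ⟨x, hx, ?_⟩
  have h1 := conv_eval (conv_sub h hφ.tendsto_atTop) hlim
  simp only [Function.comp, hz] at h1
  exact tendsto_nhds_unique h1 tendsto_const_nhds

theorem one_le_deg {s : MvPolynomial (Fin n) ℂ} (hs : s ≠ 0) {x : Fin n → ℂ} (hx : eval x s = 0) :
    1 ≤ s.totalDegree := by
  by_contra hcon
  have h0 : s.totalDegree = 0 := by omega
  rw [totalDegree_eq_zero_iff_eq_C] at h0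
  rw [h0, eval_C] at hx
  apply hs
  rw [h0, hx, C_0]


/-- the degree bound of a limit, from the decay of the coefficients of high degree -/
theorem deg_bound {P : MvPolynomial (Fin n) ℂ} {k' : ℕ → Fin n → ℝ} {lam : ℕ → ℝ} {e : ℕ}
    {ms : Fin n →₀ ℕ} (hms : ms.degree = e)
    (hb0 : ∀ᶠ j in atTop, coeff ms (tr 1 (k' j) P) ≠ 0)
    (hsh : ∀ m : Fin n →₀ ℕ, e < m.degree → Tendsto (fun j =>
      coeff m (tr 1 (k' j) P) / coeff ms (tr 1 (k' j) P) * (lam j : ℂ) ^ (m.degree - e)) atTop (𝓝 0))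
    {idx : ℕ → ℕ} (hidx : Tendsto idx atTop atTop) {r : ℕ → ℝ} (hr0 : ∀ j, 0 ≤ r j)
    (hr : ∀ᶠ j in atTop, r j ≤ lam (idx j)) {d : ℕ → ℂ} {s : MvPolynomial (Fin n) ℂ}
    (hc : Conv (fun j => C (d j) * tr (r j) (k' (idx j)) P) s) : s.totalDegree ≤ e := by
  apply totalDegree_le'
  intro m hm
  have e1 : ∀ (m : Fin n →₀ ℕ) (j : ℕ), coeff m (C (d j) * tr (r j) (k' (idx j)) P) =
      d j * ((r j : ℂ) ^ m.degree * coeff m (tr 1 (k' (idx j)) P)) := by
    intro m j
    rw [coeff_C_mul, coeff_tr]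
  have c1 := hc.2 m
  have c2 := hc.2 ms
  simp only [e1] at c1 c2
  have c3 := (hsh m hm).comp hidx
  -- the ratio tends to zero
  have c4 : Tendsto (fun j => coeff m (tr 1 (k' (idx j)) P) / coeff ms (tr 1 (k' (idx j)) P) *
      (r j : ℂ) ^ (m.degree - e)) atTop (𝓝 0) := by
    refine squeeze_zero_norm' ?_ (tendsto_norm_zero.comp c3)
    filter_upwards [hr] with j hj
    simp only [Function.comp]
    rw [norm_mul, norm_mul, norm_pow, norm_pow, Complex.norm_real, Complex.norm_real,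
      Real.norm_eq_abs, Real.norm_eq_abs, abs_of_nonneg (hr0 j),
      abs_of_nonneg ((hr0 j).trans hj)]
    apply mul_le_mul_of_nonneg_left _ (norm_nonneg _)
    exact pow_le_pow_left₀ (hr0 j) hj _
  have c5 := c2.mul c4
  rw [mul_zero] at c5
  have c6 : (fun j => d j * ((r j : ℂ) ^ ms.degree * coeff ms (tr 1 (k' (idx j)) P)) *
      (coeff m (tr 1 (k' (idx j)) P) / coeff ms (tr 1 (k' (idx j)) P) *
      (r j : ℂ) ^ (m.degree - e))) =ᶠ[atTop]
      fun j => d j * ((r j : ℂ) ^ m.degree * coeff m (tr 1 (k' (idx j)) P)) := by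
    filter_upwards [hidx.eventually hb0] with j hj
    have e2 : (r j : ℂ) ^ m.degree = (r j : ℂ) ^ ms.degree * (r j : ℂ) ^ (m.degree - e) := by
      rw [hms, ← pow_add]
      congr 1
      omega
    rw [e2]
    field_simp
  exact tendsto_nhds_unique c1 (c5.congr' c6)

theorem t_ek (h1 : S_clos) (h2 : S_top) (h3 : S_class) (h4 : S_cpt) (h5 : S_hurN)
    (h6 : S_join) : S_ek := by
  intro n A P e hyp hmd ⟨q, hq, hqe⟩ hlt
  have he : 1 ≤ e := hmd.1
  have hP0 : P ≠ 0 := by
    rintro rfl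
    simp at hlt
  -- the form `f`
  obtain ⟨hf1, hf2⟩ := h2 n q hq.1
  rw [hqe] at hf1 hf2
  have hfP : LimInf P (homogeneousComponent e q) := by
    refine (h1 n P q _).1 hq ?_
    obtain ⟨h0, lam, k, c, a, _, b⟩ := hf1
    exact ⟨h0, lam, k, c, a, b⟩
  have hfc : ∀ m : Fin n →₀ ℕ, m.degree ≠ e → coeff m (homogeneousComponent e q) = 0 := by
    intro m hm
    rw [coeff_homogeneousComponent, if_neg hm]
  set f := homogeneousComponent e q with hfdef
  obtain ⟨hf0, lam, k, c, hlam, hlamT, hconv⟩ := hfP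
  obtain ⟨ms, hms0⟩ := exists_coeff_ne_zero hf0
  have hms : ms.degree = e := by
    by_contra hcon
    exact hms0 (hfc ms hcon)
  have hev0 : eval (0 : Fin n → ℂ) f = 0 := by
    rw [MvPolynomial.eval_zero, constantCoeff_eq]
    apply hfc
    rw [map_zero]
    omega
  -- zeros
  obtain ⟨x', hx', hz⟩ := h5 n _ f hconv hf0 0 hev0
  have hc0 : ∀ᶠ j in atTop, c j ≠ 0 := by
    have h7 := hconv.2 ms
    have h8 : ∀ᶠ j in atTop, coeff ms (C (c j) * tr (lam j) (k j) P) ≠ 0 :=
      h7.eventually_ne hms0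
    filter_upwards [h8] with j hj hcj
    apply hj
    rw [hcj, C_0, zero_mul, MvPolynomial.coeff_zero]
  have hzP : ∀ᶠ j in atTop, eval (fun i => (lam j : ℂ) * x' j i + Complex.I * (k j i : ℂ)) P = 0 := by
    filter_upwards [hz, hc0] with j hj hcj
    rw [map_mul, eval_C, eval_tr] at hj
    exact (mul_eq_zero.1 hj).resolve_left hcj
  have hZ : (ZZ P).Nonempty := by
    obtain ⟨j, hj⟩ := hzP.exists
    exact ⟨_, hj⟩
  -- minimisers
  choose k' hk' using fun j => exists_min P (k j)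
  have hrk : ∀ᶠ j in atTop, rh P (k j) ≤ lam j * ‖x' j‖ := by
    filter_upwards [hzP] with j hj
    refine (rh_le hj).trans (le_of_eq ?_)
    have : imv (k j) - (fun i => (lam j : ℂ) * x' j i + Complex.I * (k j i : ℂ)) =
        -((lam j : ℂ) • x' j) := by
      funext i
      simp only [imv, Pi.sub_apply, Pi.neg_apply, Pi.smul_apply, smul_eq_mul]
      ring
    rw [this, norm_neg, norm_smul, Complex.norm_real, Real.norm_eq_abs, abs_of_pos (hlam j)]
  have hk1 : ∀ᶠ j in atTop, rh P (k' j) + ‖k' j - k j‖ / 2 ≤ lam j * ‖x' j‖ := by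
    filter_upwards [hrk] with j hj
    have := hk' j (k j)
    rw [sub_self, norm_zero, zero_div, add_zero] at this
    exact this.trans hj
  have hstar : ∀ j κ, rh P (k' j) - ‖κ - k' j‖ / 2 ≤ rh P κ := by
    intro j κ
    have h7 := hk' j κ
    have h8 : ‖κ - k j‖ ≤ ‖κ - k' j‖ + ‖k' j - k j‖ := norm_sub_le_norm_sub_add_norm_sub _ _ _
    linarith
  have hx0 : Tendsto (fun j => ‖x' j‖) atTop (𝓝 0) := by
    have := hx'.norm
    simpa using this
  -- the translated sequence
  have hδ : Tendsto (fun j => (lam j)⁻¹ • (k' j - k j)) atTop (𝓝 0) := by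
    have h7 : Tendsto (fun j => 2 * ‖x' j‖) atTop (𝓝 0) := by
      simpa using hx0.const_mul 2
    refine squeeze_zero_norm' ?_ h7
    filter_upwards [hk1] with j hj
    rw [norm_smul, norm_inv, Real.norm_eq_abs, abs_of_pos (hlam j), inv_mul_le_iff₀ (hlam j)]
    have := rh_nonneg P (k' j)
    linarith
  have hconv' : Conv (fun j => C (c j) * tr (lam j) (k' j) P) f := by
    have h7 := h6 n _ f hconv (fun _ => 1) 1 (fun j => (lam j)⁻¹ • (k' j - k j)) 0 (fun _ => 1) 1
      tendsto_const_nhds hδ tendsto_const_nhds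
    rw [tr_one_zero, C_1, one_mul] at h7
    have h8 : (fun j => (1 : MvPolynomial (Fin n) ℂ) *
        tr 1 ((lam j)⁻¹ • (k' j - k j)) (C (c j) * tr (lam j) (k j) P)) =
        fun j => C (c j) * tr (lam j) (k' j) P := by
      funext j
      rw [one_mul, tr_mul, tr_C, tr_tr, mul_one]
      congr 2
      funext i
      simp only [Pi.smul_apply, Pi.sub_apply, smul_eq_mul]
      have := (hlam j).ne'
      field_simp
      ring
    rw [h8] at h7
    exact h7
  -- coefficients
  have hcoef : ∀ m : Fin n →₀ ℕ, Tendsto (fun j =>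
      c j * ((lam j : ℂ) ^ m.degree * coeff m (tr 1 (k' j) P))) atTop (𝓝 (coeff m f)) := by
    intro m
    refine (hconv'.2 m).congr fun j => ?_
    rw [coeff_C_mul, coeff_tr]
  have hb0 : ∀ᶠ j in atTop, coeff ms (tr 1 (k' j) P) ≠ 0 := by
    filter_upwards [(hcoef ms).eventually_ne hms0] with j hj hcj
    apply hj
    rw [hcj]
    ring
  have hsh : ∀ m : Fin n →₀ ℕ, e < m.degree → Tendsto (fun j =>
      coeff m (tr 1 (k' j) P) / coeff ms (tr 1 (k' j) P) * (lam j : ℂ) ^ (m.degree - e)) atTop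
        (𝓝 0) := by
    intro m hm
    have h7 := (hcoef m).div (hcoef ms) hms0
    rw [hfc m (by omega), zero_div] at h7
    refine h7.congr' ?_
    filter_upwards [hc0] with j hj
    have hl : (lam j : ℂ) ≠ 0 := by exact_mod_cast (hlam j).ne'
    have e2 : (lam j : ℂ) ^ m.degree = (lam j : ℂ) ^ e * (lam j : ℂ) ^ (m.degree - e) := by
      rw [← pow_add]
      congr 1
      omega
    simp only [Pi.div_apply]
    rw [hms, e2]
    have e3 : c j * ((lam j : ℂ) ^ e * (lam j : ℂ) ^ (m.degree - e) * coeff m (tr 1 (k' j) P)) =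
        (c j * (lam j : ℂ) ^ e) * ((lam j : ℂ) ^ (m.degree - e) * coeff m (tr 1 (k' j) P)) := by
      ring
    have e4 : c j * ((lam j : ℂ) ^ e * coeff ms (tr 1 (k' j) P)) =
        (c j * (lam j : ℂ) ^ e) * coeff ms (tr 1 (k' j) P) := by ring
    rw [e3, e4, mul_div_mul_left _ _ (mul_ne_zero hj (pow_ne_zero _ hl))]
    ring
  by_cases hT : Tendsto (fun j => rh P (k' j)) atTop atTop
  · -- case 2: contradiction
    exfalso
    have hev : ∀ᶠ j in atTop, 1 ≤ rh P (k' j) ∧ rh P (k' j) ≤ lam j := by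
      have h7 : ∀ᶠ j in atTop, ‖x' j‖ < 1 := hx0.eventually (gt_mem_nhds one_pos)
      filter_upwards [hT.eventually_ge_atTop 1, h7, hk1] with j a b c
      refine ⟨a, ?_⟩
      have h8 := norm_nonneg (k' j - k j)
      have h9 : lam j * ‖x' j‖ ≤ lam j * 1 := mul_le_mul_of_nonneg_left b.le (hlam j).le
      linarith
    obtain ⟨J, hJ⟩ := eventually_atTop.1 hev
    have hR1 : ∀ j, 1 ≤ rh P (k' (j + J)) := fun j => (hJ (j + J) (by omega)).1
    obtain ⟨φ, hφ, d, s, hd0, hs0, hsd, hsconv⟩ := h4 n P.totalDegree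
      (fun j => tr (rh P (k' (j + J))) (k' (j + J)) P)
      (fun j => totalDegree_tr_le _ _ _)
      (fun j => tr_ne_zero _ (by linarith [hR1 j]) _ hP0)
    have hidx : Tendsto (fun j => φ j + J) atTop atTop :=
      tendsto_atTop_mono (fun j => Nat.le_add_right _ _) hφ.tendsto_atTop
    have hR1' : ∀ j, 1 ≤ rh P (k' (φ j + J)) := fun j => hR1 (φ j)
    have hsP : LimInf P s := ⟨hs0, fun j => rh P (k' (φ j + J)), fun j => k' (φ j + J), d,
      fun j => by linarith [hR1' j], hT.comp hidx, hsconv⟩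
    have hse : s.totalDegree ≤ e := deg_bound hms hb0 hsh hidx
      (fun j => rh_nonneg P _) (Eventually.of_forall fun j => (hJ (φ j + J) (by omega)).2) hsconv
    -- a zero of `s`
    have hzer : ∀ j, ∃ y : Fin n → ℂ, ‖y‖ ≤ 1 ∧
        eval y (C (d j) * tr (rh P (k' (φ j + J))) (k' (φ j + J)) P) = 0 := by
      intro j
      obtain ⟨y, hy1, hy2⟩ := exists_zero hZ (k' (φ j + J)) (r := rh P (k' (φ j + J)))
        (by linarith [hR1' j])
      refine ⟨y, ?_, ?_⟩
      · rw [hy1, div_self (by linarith [hR1' j])]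
      · rw [map_mul, hy2, mul_zero]
    choose y hy1 hy2 using hzer
    obtain ⟨x, hx1, hx2⟩ := limit_zero hsconv hy1 hy2
    have hs1 : 1 ≤ s.totalDegree := one_le_deg hs0 hx2
    have hse' : s.totalDegree = e := le_antisymm hse (hmd.2 s hsP hs1)
    obtain ⟨c', l, η, hc', hl, hsl⟩ := (h3 n A P e hyp hmd).1 s hsP hse'
    -- the real vector
    set κ : Fin n → ℝ := fun i => (x i).im with hκ
    have hκn : ‖κ‖ ≤ 1 := by
      refine le_trans ?_ hx1
      rw [pi_norm_le_iff_of_nonneg (norm_nonneg x)]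
      intro i
      rw [Real.norm_eq_abs]
      exact (Complex.abs_im_le_norm (x i)).trans (norm_le_pi_norm x i)
    have hlx : ∑ i, (l i : ℂ) * x i = Complex.I * (η : ℂ) := by
      rw [hsl, map_mul, eval_C, map_pow, map_sub, eval_lin, eval_C] at hx2
      have h7 := (mul_eq_zero.1 hx2).resolve_left hc'
      have h8 := pow_eq_zero_iff (by omega : e ≠ 0) |>.1 h7
      exact sub_eq_zero.1 h8
    have hlκ : ∑ i, l i * κ i = η := by
      have h7 := congrArg Complex.im hlx
      rw [Complex.im_sum] at h7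
      simpa [hκ] using h7
    have hsκ : eval (imv κ) s = 0 := by
      rw [hsl, map_mul, eval_C, map_pow, map_sub, eval_lin, eval_C]
      have : ∑ i, (l i : ℂ) * imv κ i - Complex.I * (η : ℂ) = 0 := by
        rw [← hlκ]
        push_cast
        rw [Finset.mul_sum, sub_eq_zero]
        apply Finset.sum_congr rfl
        intro i _
        simp only [imv]
        ring
      rw [this, zero_pow (by omega), mul_zero]
    obtain ⟨y', hy', hyz⟩ := h5 n _ s hsconv hs0 (imv κ) hsκ
    -- contradiction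
    have hfar : ∀ᶠ j in atTop, (1 : ℝ) / 2 ≤ ‖imv κ - y' j‖ := by
      filter_upwards [hyz] with j hj
      rw [map_mul, eval_C, eval_tr] at hj
      have h7 := (mul_eq_zero.1 hj).resolve_left (hd0 j)
      set R := rh P (k' (φ j + J)) with hR
      have hRp : 0 < R := by linarith [hR1' j]
      have h8 := rh_le (k := k' (φ j + J) + R • κ) h7
      have h9 : imv (k' (φ j + J) + R • κ) -
          (fun i => (R : ℂ) * y' j i + Complex.I * (k' (φ j + J) i : ℂ)) =
          (R : ℂ) • (imv κ - y' j) := by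
        funext i
        simp only [imv, Pi.sub_apply, Pi.add_apply, Pi.smul_apply, smul_eq_mul]
        push_cast
        ring
      rw [h9, norm_smul, Complex.norm_real, Real.norm_eq_abs, abs_of_pos hRp] at h8
      have h10 := hstar (φ j + J) (k' (φ j + J) + R • κ)
      rw [add_sub_cancel_left, norm_smul, Real.norm_eq_abs, abs_of_pos hRp, ← hR] at h10
      have h11 : R * ‖κ‖ ≤ R * 1 := mul_le_mul_of_nonneg_left hκn hRp.le
      have h12 : R * (1 / 2) ≤ R * ‖imv κ - y' j‖ := by linarith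
      exact le_of_mul_le_mul_left h12 hRp
    have hnear : Tendsto (fun j => ‖imv κ - y' j‖) atTop (𝓝 0) := by
      have h7 : Tendsto (fun j => imv κ - y' j) atTop (𝓝 (imv κ - imv κ)) :=
        tendsto_const_nhds.sub hy'
      rw [sub_self] at h7
      simpa using h7.norm
    have h7 : ∀ᶠ j in atTop, ‖imv κ - y' j‖ < 1 / 2 := hnear.eventually (gt_mem_nhds (by norm_num))
    obtain ⟨j, hj1, hj2⟩ := (hfar.and h7).exists
    linarith
  · -- case 1
    rw [tendsto_atTop] at hT
    push Not at hT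
    obtain ⟨B, hB⟩ := hT
    obtain ⟨ψ, hψ, hψB⟩ := extraction_of_frequently_atTop hB
    obtain ⟨φ, hφ, d, s, hd0, hs0, hsd, hsconv⟩ := h4 n P.totalDegree
      (fun j => tr 1 (k' (ψ j)) P)
      (fun j => totalDegree_tr_le _ _ _)
      (fun j => tr_ne_zero _ one_ne_zero _ hP0)
    have hidx : Tendsto (fun j => ψ (φ j)) atTop atTop := hψ.tendsto_atTop.comp hφ.tendsto_atTop
    refine ⟨s, ⟨hs0, fun j => k' (ψ (φ j)), d, hsconv⟩, ?_, ?_⟩
    · have hzer : ∀ j, ∃ y : Fin n → ℂ, ‖y‖ ≤ B ∧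
          eval y (C (d j) * tr 1 (k' (ψ (φ j))) P) = 0 := by
        intro j
        obtain ⟨y, hy1, hy2⟩ := exists_zero hZ (k' (ψ (φ j))) one_pos
        refine ⟨y, ?_, ?_⟩
        · rw [hy1, div_one]
          exact (hψB _).le
        · rw [map_mul, hy2, mul_zero]
      choose y hy1 hy2 using hzer
      obtain ⟨x, hx1, hx2⟩ := limit_zero hsconv hy1 hy2
      exact one_le_deg hs0 hx2
    · exact deg_bound (r := fun _ => 1) hms hb0 hsh hidx (fun _ => zero_le_one)
        (hidx.eventually (hlamT.eventually_ge_atTop 1)) hsconv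

end Pool.Agent.W505.EC
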