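import Pool.Agent.W868.FI.Stms
import Pool.Agent.W868.FI.Stms2

/-!
Project FI (MP_d941c8_lc), part FI-STAGE: the stage lemma.
-/

set_option autoImplicit false

open MeasureTheory Set Pool.Agent.W868.FI

namespace Pool.Agent.W505.FIS

theorem meas_sh {Γ X : Type} [Group Γ] [MeasurableSpace X] (γ : Γ) :
    Measurable (sh γ : (Γ → X) → (Γ → X)) :=
  measurable_pi_lambda _ fun _ => measurable_pi_apply _

/-- the shift as a measurable equivalence -/
def shE (Γ X : Type) [Group Γ] [MeasurableSpace X] (γ : Γ) : (Γ → X) ≃ᵐ (Γ → X) where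
  toFun := sh γ
  invFun := sh γ⁻¹
  left_inv x := by rw [sh_sh]; simp [sh_one]
  right_inv x := by rw [sh_sh]; simp [sh_one]
  measurable_toFun := meas_sh γ
  measurable_invFun := meas_sh γ⁻¹

theorem iid_map_sh {Γ X : Type} [Group Γ] [MeasurableSpace X] (μ : Measure X)
    [IsProbabilityMeasure μ] (γ : Γ) : (iid Γ μ).map (sh γ) = iid Γ μ := by
  have h := Measure.infinitePi_map_piCongrLeft (fun _ : Γ => μ) (Equiv.mulRight γ).symm
  have e : (sh γ : (Γ → X) → (Γ → X)) =
      (MeasurableEquiv.piCongrLeft (fun _ : Γ => X) (Equiv.mulRight γ).symm) := by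
    funext x δ
    have h1 : δ = (Equiv.mulRight γ).symm (δ * γ) := by simp
    conv_rhs => rw [h1]
    rw [MeasurableEquiv.coe_piCongrLeft, Equiv.piCongrLeft_apply_apply]
    rfl
  rw [e]
  exact h

theorem meas_dep {ι Z : Type} (D : Finset ι) (z : (ι → Bool) → Z)
    (hz : DepOn (D : Set ι) z) (s : Set Z) : MeasurableSet (z ⁻¹' s) := by
  classical
  let r : (ι → Bool) → (D → Bool) := fun b i => b i
  let E : (D → Bool) → (ι → Bool) := fun v i => if h : i ∈ D then v ⟨i, h⟩ else false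
  have hr : Measurable r := measurable_pi_lambda _ fun _ => measurable_pi_apply _
  have h1 : z ⁻¹' s = r ⁻¹' ((z ∘ E) ⁻¹' s) := by
    ext b
    have h2 : z b = z (E (r b)) := by
      apply hz
      intro k hk
      simp only [E, r]
      rw [dif_pos (Finset.mem_coe.1 hk)]
    simp only [Set.mem_preimage, Function.comp_apply]
    rw [← h2]
  rw [h1]
  exact hr (Set.toFinite _).measurableSet

theorem stage (h₁ : S_STEP) (h₂ : S_PATCH) (h₃ : S_DEC) : S_STAGE := by
  classical
  intro Γ Sg X _ _ _ _ _ ν _ μ _ α hα F Pt t ht a f hf c hc ψ η hη hIP W fW hfW hdW ε hε hfe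
    N hN e C' hC'
  obtain ⟨d1, d2, -, -, d5, d6, d7⟩ := h₃ Γ Sg F Pt t e
  obtain ⟨-, -, -, -, c5, -, -⟩ := h₃ Γ Sg F Pt c e
  have hα0 : 0 < α := by
    by_contra hcon
    push Not at hcon
    have h0 : ∀ b, ν {b} = 0 := fun b => by
      have := hα b
      rw [ENNReal.ofReal_of_nonpos hcon] at this
      exact le_antisymm this bot_le
    have h1 : ν Set.univ = 0 := by
      have h2 : (Set.univ : Set Bool) = {true} ∪ {false} := by
        ext b; cases b <;> simp
      rw [h2]
      exact measure_union_null (h0 _) (h0 _)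
    rw [measure_univ] at h1
    exact one_ne_zero h1
  have hκ0 : 0 ≤ kap Sg α F t a e C' := by
    unfold kap
    positivity
  have hcell : ∀ k : Γ, cell c (sh k e) 1 = {x | x * k ∈ cell c e k} := by
    intro k
    ext g
    have h := c5 k k g
    rw [mul_inv_cancel] at h
    exact h
  let IC : Γ → Prop := fun k => (cell c e k).Nonempty ∧ cell c e k ⊆ C' ∧
    kap Sg α F t a (sh k e) (cell c (sh k e) 1) ≤ η
  have hIfin : Finite {k : Γ // IC k} := by
    have h1 : {k : Γ | IC k}.Finite := by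
      refine (hC'.image (ctr c e)).subset ?_
      rintro k ⟨⟨x, hx⟩, h, -⟩
      exact ⟨x, h hx, hx⟩
    exact h1.to_subtype
  have hIfin' : Fintype {k : Γ // IC k} := Fintype.ofFinite _
  have hL0 : ∀ k : {k : Γ // IC k}, ∃ L : Measure ((Γ → Bool) × (Γ → X)),
      L.map Prod.fst = iid Γ ν ∧ L.map Prod.snd = iid Γ μ ∧
      L {p | ∃ h ∈ Unk F t e (cell c e k.1),
        ψ (sh k.1 e) (sh k.1 p.1) (h * (k.1)⁻¹) ≠ f (sh h p.2)} ≤ ENNReal.ofReal η := by
    rintro ⟨k, hk⟩
    obtain ⟨L, hL1, hL2, hL3⟩ := (hIP (sh k e)).2 hk.2.2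
    have hT : Measurable (Prod.map (sh k⁻¹) (sh k⁻¹) :
        (Γ → Bool) × (Γ → X) → (Γ → Bool) × (Γ → X)) := (meas_sh _).prodMap (meas_sh _)
    refine ⟨L.map (Prod.map (sh k⁻¹) (sh k⁻¹)), ?_, ?_, ?_⟩
    · rw [Measure.map_map measurable_fst hT]
      have h1 : (Prod.fst ∘ (Prod.map (sh k⁻¹) (sh k⁻¹) :
        (Γ → Bool) × (Γ → X) → (Γ → Bool) × (Γ → X))) = sh k⁻¹ ∘ Prod.fst := rfl
      rw [h1, ← Measure.map_map (meas_sh _) measurable_fst, hL1, iid_map_sh]
    · rw [Measure.map_map measurable_snd hT]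
      have h1 : (Prod.snd ∘ (Prod.map (sh k⁻¹) (sh k⁻¹) :
        (Γ → Bool) × (Γ → X) → (Γ → Bool) × (Γ → X))) = sh k⁻¹ ∘ Prod.snd := rfl
      rw [h1, ← Measure.map_map (meas_sh _) measurable_snd, hL2, iid_map_sh]
    · have hTE : (Prod.map (sh k⁻¹) (sh k⁻¹) :
          (Γ → Bool) × (Γ → X) → (Γ → Bool) × (Γ → X)) =
          ((shE Γ Bool k⁻¹).prodCongr (shE Γ X k⁻¹)) := rfl
      rw [hTE, MeasurableEquiv.map_apply]
      refine (measure_mono ?_).trans hL3
      rintro p ⟨h, hh, hne⟩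
      refine ⟨h * k⁻¹, ?_, ?_⟩
      · rw [hcell k, d6, inv_mul_cancel_right]
        exact hh
      · have e1 : (((shE Γ Bool k⁻¹).prodCongr (shE Γ X k⁻¹)) p).1 = sh k⁻¹ p.1 := rfl
        have e2 : (((shE Γ Bool k⁻¹).prodCongr (shE Γ X k⁻¹)) p).2 = sh k⁻¹ p.2 := rfl
        rw [e1, e2, sh_sh, sh_sh, mul_inv_cancel, sh_one] at hne
        exact hne
  choose Λ hΛ1 hΛ2 hΛ3 using hL0
  have hdis : Pairwise (fun i j : {k : Γ // IC k} =>
      Disjoint (cell c e i.1) (cell c e j.1)) := by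
    intro i j hij
    rw [Set.disjoint_left]
    intro x hx hx'
    exact hij (Subtype.ext (Eq.trans (Eq.symm hx) hx'))
  obtain ⟨Ξ, _, θ, p, q, hp, hq, hp1, hp2, hq3, hagree⟩ :=
    h₂ Γ {k : Γ // IC k} Bool X ν μ (fun i => cell c e i.1) hdis Λ hΛ1 hΛ2
  have hL1 : (θ.map p).map Prod.fst = iid Γ ν := by
    rw [Measure.map_map measurable_fst hp]
    exact hp1
  have hL2 : (θ.map p).map Prod.snd = iid Γ μ := by
    rw [Measure.map_map measurable_snd hp]
    exact hp2
  have hU : (Unk F t e C').Finite := hC'.subset fun g hg => hg.1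
  have hA : (avl a e C').Finite := hC'.subset fun g hg => hg.1
  have hUfin' : Fintype (Unk F t e C') := hU.fintype
  let z : (Γ → Bool) → (Unk F t e C' → Sg) := fun b h =>
    if IC (ctr c e h.1) then
      ψ (sh (ctr c e h.1) e) (sh (ctr c e h.1) b) (h.1 * (ctr c e h.1)⁻¹)
    else Classical.arbitrary Sg
  have hz : DepOn (hA.toFinset : Set Γ) z := by
    intro b b' hbb
    rw [Set.Finite.coe_toFinset] at hbb
    funext h
    simp only [z]
    split_ifs with hk
    · refine congrFun ?_ _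
      apply (hIP (sh (ctr c e h.1) e)).1
      intro g hg
      apply hbb
      obtain ⟨hg1, hg2⟩ := hg
      rw [hcell] at hg1
      refine ⟨hk.2.1 hg1, ?_⟩
      rw [sh_sh] at hg2
      exact hg2
    · rfl
  let u : (Γ → X) → (Unk F t e C' → Sg) := fun ω h => f (sh h.1 ω)
  have hu : ∀ s, MeasurableSet (u ⁻¹' {s}) := by
    intro s
    have h1 : u ⁻¹' {s} = ⋂ h : Unk F t e C', (sh h.1) ⁻¹' (f ⁻¹' {s h}) := by
      ext ω
      simp only [Set.mem_preimage, Set.mem_singleton_iff, Set.mem_iInter, u]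
      exact funext_iff
    rw [h1]
    exact MeasurableSet.iInter fun h => meas_sh _ (hf _)
  obtain ⟨ψ₀, hψ1, hψ2, L', hL'1, hL'2, hL'3⟩ :=
    h₁ Γ (Γ → X) (Unk F t e C' → Sg) (Unk F t e C' → Sg) ν α hα (iid Γ μ) (θ.map p) hL1 hL2
      hA.toFinset z hz u hu
  have hcard : (2 * (Fintype.card (Unk F t e C' → Sg) : ℝ) * (Fintype.card (Unk F t e C' → Sg) : ℝ)
      * α ^ hA.toFinset.card) = kap Sg α F t a e C' := by
    unfold kap
    have h1 : Fintype.card (Unk F t e C') = (Unk F t e C').ncard := by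
      rw [← Nat.card_coe_set_eq, Nat.card_eq_fintype_card]
    have h2 : hA.toFinset.card = (avl a e C').ncard := (Set.ncard_eq_toFinset_card _ hA).symm
    rw [Fintype.card_fun, h1, h2]
    push_cast
    ring
  rw [hcard] at hψ2 hL'3
  let ψ' : (Γ → Bool) → Γ → Sg := fun b g =>
    if h : g ∈ Unk F t e C' then ψ₀ b ⟨g, h⟩ else Classical.arbitrary Sg
  have hψ' : ∀ b g (h : g ∈ Unk F t e C'), ψ' b g = ψ₀ b ⟨g, h⟩ := fun b g h => dif_pos h
  refine ⟨ψ', ?_, ⟨L', hL'1, hL'2, ?_⟩, ?_⟩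
  · intro b b' hbb
    have h1 : ψ₀ b = ψ₀ b' := by
      apply hψ1
      rw [Set.Finite.coe_toFinset]
      exact hbb
    funext g
    simp only [ψ', h1]
  · refine (measure_mono ?_).trans hL'3
    rintro x ⟨g, hg, hne⟩ heq
    apply hne
    rw [hψ' _ _ hg, heq]
  · intro g hg hfine
    obtain ⟨f1, f2, f3, f4⟩ := hfine
    set k := ctr c e g with hk
    have hkI : IC k := ⟨⟨g, hk.symm⟩, f1, f2⟩
    set τ := cell t e (ctr t e g) with hτ
    -- the reduction to the event on the unknown sites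
    let R : Set ((Unk F t e C' → Sg) × (Unk F t e C' → Sg)) :=
      {r | ∃ h : Unk F t e C', h.1 ∈ τ ∧ r.1 h ≠ r.2 h}
    have hfld : ∀ b, fld F Pt t c ψ e b g =
        dec F Pt t e C' (fun x => ψ (sh k e) (sh k b) (x * k⁻¹)) g := by
      intro b
      unfold fld
      rw [← hk, hcell k, ← (d2 (cell c e k) C' (fun x => ψ (sh k e) (sh k b) (x * k⁻¹)) g f3 f1).1,
        ← d7 (cell c e k) (fun x => ψ (sh k e) (sh k b) (x * k⁻¹)) k g]
      congr 1
      funext x
      simp [sh]
    have hzτ : ∀ b (h : Unk F t e C'), h.1 ∈ τ → z b h = ψ (sh k e) (sh k b) (h.1 * k⁻¹) := by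
      intro b h hh
      have h1 : ctr c e h.1 = k := f3 hh
      simp only [z, h1]
      rw [if_pos hkI]
    have hsub : {b | fld F Pt t c ψ e b g ≠ dec F Pt t e C' (ψ' b) g} ⊆
        {b | (z b, ψ₀ b) ∈ R} := by
      intro b hb
      by_contra hcon
      apply hb
      rw [hfld]
      apply d1 C' _ _ g hg
      intro h hh hor
      have hhτ : h ∈ τ := by
        rcases hor with h2 | h2
        · rw [h2]
          exact rfl
        · exact h2
      by_contra hne
      apply hcon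
      refine ⟨⟨h, hh⟩, hhτ, ?_⟩
      change z b ⟨h, hh⟩ ≠ ψ₀ b ⟨h, hh⟩
      rw [hzτ b ⟨h, hh⟩ hhτ, ← hψ' b h hh]
      exact hne
    refine (measure_mono hsub).trans ((hψ2 R).trans ?_)
    have hRm : MeasurableSet {x : (Γ → Bool) × (Γ → X) | (z x.1, u x.2) ∈ R} := by
      have h1 : {x : (Γ → Bool) × (Γ → X) | (z x.1, u x.2) ∈ R} =
          ⋃ r ∈ R, (Prod.fst ⁻¹' (z ⁻¹' {r.1}) ∩ Prod.snd ⁻¹' (u ⁻¹' {r.2})) := by
        ext x
        simp only [Set.mem_iUnion, Set.mem_inter_iff, Set.mem_preimage, Set.mem_singleton_iff,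
          exists_prop]
        constructor
        · intro hx
          exact ⟨_, hx, rfl, rfl⟩
        · rintro ⟨r, hr, h2, h3⟩
          have : (z x.1, u x.2) = r := Prod.ext h2 h3
          rw [Set.mem_ofPred_eq, this]
          exact hr
      rw [h1]
      refine Set.Finite.measurableSet_biUnion (Set.toFinite R) fun r _ => ?_
      exact (measurable_fst (meas_dep _ z hz _)).inter (measurable_snd (hu _))
    rw [Measure.map_apply hp hRm]
    -- the events
    set K : {k : Γ // IC k} := ⟨k, hkI⟩ with hK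
    let E0 : Set Ξ := (q K) ⁻¹' {p | ∃ h ∈ Unk F t e (cell c e k),
        ψ (sh k e) (sh k p.1) (h * k⁻¹) ≠ f (sh h p.2)}
    let E1 : Γ → Set Ξ := fun h => (fun ξ => (q K ξ).2) ⁻¹' {x | f (sh h x) ≠ fW (sh h x)}
    let E2 : Γ → Set Ξ := fun h => (fun ξ => (p ξ).2) ⁻¹' {x | f (sh h x) ≠ fW (sh h x)}
    have hτfin : τ.Finite := (hC'.subset f1).subset f3
    have hcov : p ⁻¹' {x : (Γ → Bool) × (Γ → X) | (z x.1, u x.2) ∈ R} ⊆
        E0 ∪ ⋃ h ∈ hτfin.toFinset, (E1 h ∪ E2 h) := by
      rintro ξ ⟨h, hhτ, hne⟩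
      have hne' : z (p ξ).1 h ≠ f (sh h.1 (p ξ).2) := hne
      rw [hzτ _ h hhτ] at hne'
      have hhk : h.1 ∈ cell c e k := f3 hhτ
      have hcellh : cell t e (ctr t e h.1) = τ := by
        rw [hτ]
        congr 1
      have hhU : h.1 ∈ Unk F t e (cell c e k) := by
        refine (d2 (cell c e k) C' (fun _ => Classical.arbitrary Sg) h.1 ?_ f1).2.2 h.2
        rw [hcellh]
        exact f3
      have hψeq : ψ (sh k e) (sh k (p ξ).1) = ψ (sh k e) (sh k (q K ξ).1) := by
        apply (hIP (sh k e)).1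
        intro g' hg'
        have h3 : g' * k ∈ cell c e k := by
          have := hg'.1
          rw [hcell] at this
          exact this
        exact ((hagree ξ K (g' * k) h3).1).symm
      rw [hψeq] at hne'
      have hfWeq : fW (sh h.1 (q K ξ).2) = fW (sh h.1 (p ξ).2) := by
        apply hdW
        intro w hw
        exact (hagree ξ K (w * h.1) (f4 h.1 hhτ w hw)).2
      by_cases h4 : ψ (sh k e) (sh k (q K ξ).1) (h.1 * k⁻¹) ≠ f (sh h.1 (q K ξ).2)
      · left
        exact ⟨h.1, hhU, h4⟩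
      · right
        rw [not_not] at h4
        rw [h4] at hne'
        simp only [Set.mem_iUnion, exists_prop]
        refine ⟨h.1, (Set.Finite.mem_toFinset _).2 hhτ, ?_⟩
        by_cases h5 : f (sh h.1 (q K ξ).2) = fW (sh h.1 (q K ξ).2)
        · right
          change f (sh h.1 (p ξ).2) ≠ fW (sh h.1 (p ξ).2)
          intro h6
          apply hne'
          rw [h5, hfWeq, h6]
        · left
          exact h5
    have hshift : ∀ h : Γ, iid Γ μ {x | f (sh h x) ≠ fW (sh h x)} ≤ ENNReal.ofReal ε := by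
      intro h
      have h1 : {x : Γ → X | f (sh h x) ≠ fW (sh h x)} = (shE Γ X h) ⁻¹' {x | f x ≠ fW x} := rfl
      have h2 : (iid Γ μ).map (shE Γ X h) = iid Γ μ := iid_map_sh μ h
      rw [h1, ← MeasurableEquiv.map_apply, h2]
      exact hfe
    have hE0 : θ E0 ≤ ENNReal.ofReal η := by
      refine (Measure.le_map_apply (hq K).aemeasurable _).trans ?_
      rw [hq3 K]
      exact hΛ3 K
    have hE1 : ∀ h, θ (E1 h) ≤ ENNReal.ofReal ε := by
      intro h
      have hm : Measurable fun ξ => (q K ξ).2 := (hq K).snd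
      refine (Measure.le_map_apply hm.aemeasurable _).trans ?_
      have h1 : θ.map (fun ξ => (q K ξ).2) = iid Γ μ := by
        have h2 : (θ.map (q K)).map Prod.snd = θ.map (fun ξ => (q K ξ).2) := by
          rw [Measure.map_map measurable_snd (hq K)]
          rfl
        rw [← h2, hq3 K, hΛ2 K]
      rw [h1]
      exact hshift h
    have hE2 : ∀ h, θ (E2 h) ≤ ENNReal.ofReal ε := by
      intro h
      have hm : Measurable fun ξ => (p ξ).2 := hp.snd
      refine (Measure.le_map_apply hm.aemeasurable _).trans ?_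
      rw [hp2]
      exact hshift h
    have hτN : (hτfin.toFinset.card : ℝ) ≤ N := by
      rw [← Set.ncard_eq_toFinset_card _ hτfin]
      exact_mod_cast hN e _
    have hsum : θ (p ⁻¹' {x : (Γ → Bool) × (Γ → X) | (z x.1, u x.2) ∈ R}) ≤
        ENNReal.ofReal (η + 2 * N * ε) := by
      refine (measure_mono hcov).trans ((measure_union_le _ _).trans ?_)
      have h1 : θ (⋃ h ∈ hτfin.toFinset, (E1 h ∪ E2 h)) ≤ ENNReal.ofReal (2 * N * ε) := by
        refine (measure_biUnion_finset_le _ _).trans ?_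
        have h2 : ∀ h ∈ hτfin.toFinset, θ (E1 h ∪ E2 h) ≤ ENNReal.ofReal (2 * ε) := by
          intro h _
          refine (measure_union_le _ _).trans ?_
          rw [two_mul, ENNReal.ofReal_add hε hε]
          exact add_le_add (hE1 h) (hE2 h)
        refine (Finset.sum_le_sum h2).trans ?_
        rw [Finset.sum_const, nsmul_eq_mul, ← ENNReal.ofReal_natCast,
          ← ENNReal.ofReal_mul (Nat.cast_nonneg _)]
        apply ENNReal.ofReal_le_ofReal
        nlinarith
      rw [ENNReal.ofReal_add hη (by positivity)]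
      exact add_le_add hE0 h1
    rw [ENNReal.ofReal_add (by positivity) hκ0]
    exact add_le_add hsum le_rfl

end Pool.Agent.W505.FIS
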