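import Pool.Agent.W426.LE.Stm2
import Pool.Agent.W493.LE.GK

set_option autoImplicit false

/-! LE-CP: the complete multipartite graph with `p` classes of size two. -/

namespace Pool.Agent.W505.LECP

open Finset
open Pool.Agent.W426.LE

theorem cast_ne {p : ℕ} : ∀ (n : ℕ) (h : p ∣ n), n = p → ∀ x : ZMod n, x ≠ 0 →
    ZMod.castHom h (ZMod p) x ≠ 0 := by
  rintro n h rfl x hx
  rwa [ZMod.castHom_self, RingHom.id_apply]

theorem main (h : S_GB) : S_CP := by
  classical
  intro p hp hp2 V _ G hV hG c
  have : Fact p.Prime := ⟨hp⟩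
  have : NeZero (p ^ 1) := ⟨pow_ne_zero _ hp.ne_zero⟩
  choose f hf hfu using hG
  have hf1 : ∀ v, f v ≠ v := fun v => (hf v).1
  have hf2 : ∀ v, ¬ G.Adj v (f v) := fun v => (hf v).2
  have hff : ∀ v, f (f v) = v := by
    intro v
    exact (hfu (f v) v ⟨(hf1 v).symm, fun hh => hf2 v hh.symm⟩).symm
  have g : V ≃ Fin (2 * p) := Fintype.equivFinOfCardEq hV
  let R : Type := {v : V // g v < g (f v)}
  let E : R × Bool → V := fun q => if q.2 = true then f q.1.1 else q.1.1
  have hE0 : ∀ r : R, E (r, false) = r.1 := fun r => by simp [E]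
  have hE1 : ∀ r : R, E (r, true) = f r.1 := fun r => by simp [E]
  have hEi : Function.Injective E := by
    rintro ⟨r, b⟩ ⟨s, b'⟩ hrs
    cases b <;> cases b'
    · rw [hE0, hE0] at hrs
      rw [Subtype.ext hrs]
    · rw [hE0, hE1] at hrs
      have h1 := r.2
      have h2 := s.2
      rw [hrs, hff] at h1
      exact absurd h1 (not_lt.mpr h2.le)
    · rw [hE0, hE1] at hrs
      have h1 := r.2
      have h2 := s.2
      rw [← hrs, hff] at h2
      exact absurd h1 (not_lt.mpr h2.le)
    · rw [hE1, hE1] at hrs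
      have : r.1 = s.1 := by rw [← hff r.1, hrs, hff]
      rw [Subtype.ext this]
  have hEs : Function.Surjective E := by
    intro v
    by_cases hv : g v < g (f v)
    · exact ⟨(⟨v, hv⟩, false), hE0 _⟩
    · have h1 : g (f v) < g v :=
        lt_of_le_of_ne (not_lt.mp hv) fun hh => hf1 v (g.injective hh)
      have h2 : g (f v) < g (f (f v)) := by rw [hff]; exact h1
      exact ⟨(⟨f v, h2⟩, true), by rw [hE1]; exact hff v⟩
  have hcR : Fintype.card R = p ^ 1 := by
    have h1 : Fintype.card (R × Bool) = 2 * p := by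
      rw [Fintype.card_of_bijective ⟨hEi, hEs⟩, hV]
    rw [Fintype.card_prod, Fintype.card_bool] at h1
    rw [pow_one]
    omega
  have e : ZMod (p ^ 1) ≃ R := Fintype.equivOfCardEq (by rw [ZMod.card, hcR])
  let EE : ZMod (p ^ 1) × Bool ≃ V :=
    (Equiv.prodCongr e (Equiv.refl Bool)).trans (Equiv.ofBijective E ⟨hEi, hEs⟩)
  have hEE : ∀ x b, EE (x, b) = E (e x, b) := fun _ _ => rfl
  -- adjacency
  have hadj : ∀ (x y : ZMod (p ^ 1)) (b b' : Bool), G.Adj (EE (x, b)) (EE (y, b')) ↔ x ≠ y := by
    intro x y b b'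
    constructor
    · rintro hA rfl
      rw [hEE, hEE] at hA
      cases b <;> cases b'
      · exact G.loopless.irrefl _ hA
      · rw [hE0, hE1] at hA
        exact hf2 _ hA
      · rw [hE0, hE1] at hA
        exact hf2 _ hA.symm
      · exact G.loopless.irrefl _ hA
    · intro hxy
      by_contra hA
      have hne : EE (y, b') ≠ EE (x, b) := by
        intro hh
        have := EE.injective hh
        simp only [Prod.mk.injEq] at this
        exact hxy this.1.symm
      have h1 := hfu (EE (x, b)) (EE (y, b')) ⟨hne, hA⟩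
      have h2 : f (EE (x, b)) = EE (x, !b) := by
        rw [hEE, hEE]
        cases b
        · rw [Bool.not_false, hE0, hE1]
        · rw [Bool.not_true, hE0, hE1, hff]
      rw [h2] at h1
      have := EE.injective h1
      simp only [Prod.mk.injEq] at this
      exact hxy this.1.symm
  have hS : (univ.erase (0 : ZMod (p ^ 1))).card + 1 = p := by
    rw [card_erase_of_mem (mem_univ _), card_univ, ZMod.card, pow_one]
    have := hp.pos
    omega
  let φ : BC (p ^ 1) (univ.erase 0) (univ.erase 0) (univ.erase 0) ≃g G :=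
    { toEquiv := EE
      map_rel_iff' := by
        rintro ⟨x, b⟩ ⟨y, b'⟩
        show G.Adj (EE (x, b)) (EE (y, b')) ↔ _
        rw [hadj]
        unfold BC
        rw [SimpleGraph.fromRel_adj]
        constructor
        · intro hxy
          have h1 : y - x ≠ 0 := sub_ne_zero.mpr hxy.symm
          have h2 : x - y ≠ 0 := sub_ne_zero.mpr hxy
          refine ⟨fun hh => hxy (Prod.mk.inj hh).1, ?_⟩
          cases b <;> cases b' <;> simp [h1, h2]
        · rintro ⟨h1, h2⟩ rfl
          cases b <;> cases b' <;> simp at h1 h2 }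
  refine Pool.Agent.W493.LE.GK.lecc_of_iso φ (h p 1 hp2 one_ne_zero _ _ _ ?_ ?_ hS hS ?_ ?_ ?_ ?_ c)
  · intro x hx
    rw [mem_erase] at hx ⊢
    exact ⟨neg_ne_zero.mpr hx.1, mem_univ _⟩
  · intro x hx
    rw [mem_erase] at hx ⊢
    exact ⟨neg_ne_zero.mpr hx.1, mem_univ _⟩
  · intro x hx
    exact cast_ne (p ^ 1) _ (pow_one p) x (mem_erase.mp hx).1
  · intro x hx
    exact cast_ne (p ^ 1) _ (pow_one p) x (mem_erase.mp hx).1
  · rw [← card_pos]
    have := hp.two_le
    omega
  · omega

end Pool.Agent.W505.LECP
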