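import Mathlib
import Pool.Agent.W25.UB.StmF

/-! Project UB (helper25), task UB-FLC (helper505): the fundamental lemma on the primes of `P1`
outside a small set, with error `ε₁ ^ 3`. -/

set_option autoImplicit false

namespace Pool.Agent.W505.UBFLC

open Finset Filter Topology
open Pool.Agent.W23.PL
open Pool.Agent.W25.UB

open Classical in
/-- restriction of coefficients to the numbers without prime factor in `Cl` -/
noncomputable def rs (Cl : Finset ℕ) (th : ℕ → ℝ) (e : ℕ) : ℝ :=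
  if ∀ p : ℕ, p.Prime → p ∣ e → p ∉ Cl then th e else 0

lemma rs_DW {P Cl : Finset ℕ} {D : ℕ} {U : ℝ} {th : ℕ → ℝ} (h : DW P D U th) :
    DW (P \ Cl) D U (rs Cl th) := by
  refine ⟨fun e => ?_, fun e he => ?_⟩
  · unfold rs
    split_ifs with hc
    · exact h.bd e
    · rw [abs_zero]; exact (abs_nonneg _).trans (h.bd e)
  · unfold rs at he
    split_ifs at he with hc
    · obtain ⟨a, b, c⟩ := h.supp e he
      exact ⟨a, b, fun p hp hpe => mem_sdiff.2 ⟨c p hp hpe, hc p hp hpe⟩⟩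
    · exact absurd rfl he

open Classical in
/-- the elements of `P` outside `Cl` dividing `m` -/
noncomputable def TT (P Cl : Finset ℕ) (m : ℤ) : Finset ℕ :=
  (P \ Cl).filter (fun p => (p : ℤ) ∣ m)

lemma prime_dvd_prod {T : Finset ℕ} (hT : ∀ p ∈ T, p.Prime) {q : ℕ} (hq : q.Prime) :
    q ∣ ∏ p ∈ T, p ↔ q ∈ T := by
  constructor
  · intro h
    obtain ⟨a, ha, hqa⟩ := (Prime.dvd_finsetProd_iff hq.prime (fun p => p)).1 h
    rw [(Nat.prime_dvd_prime_iff_eq hq (hT a ha)).1 hqa]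
    exact ha
  · intro h
    exact dvd_prod_of_mem (fun p => p) h

lemma TT_prime {P Cl : Finset ℕ} (hP : ∀ p ∈ P, p.Prime) (m : ℤ) : ∀ p ∈ TT P Cl m, p.Prime := by
  intro p hp
  unfold TT at hp
  exact hP p (mem_sdiff.1 (mem_filter.1 hp).1).1

lemma mem_TT {P Cl : Finset ℕ} {m : ℤ} {p : ℕ} :
    p ∈ TT P Cl m ↔ (p ∈ P ∧ p ∉ Cl) ∧ (p : ℤ) ∣ m := by
  unfold TT
  rw [Finset.mem_filter, Finset.mem_sdiff]

lemma prod_TT_dvd {P Cl : Finset ℕ} (hP : ∀ p ∈ P, p.Prime) (m : ℤ) :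
    ((∏ p ∈ TT P Cl m, p : ℕ) : ℤ) ∣ m := by
  rw [Int.natCast_dvd]
  apply Finset.prod_primes_dvd
  · intro a ha
    exact (TT_prime hP m a ha).prime
  · intro a ha
    exact Int.natCast_dvd.1 (mem_TT.1 ha).2

lemma dvd_iff {P Cl : Finset ℕ} (hP : ∀ p ∈ P, p.Prime) (m : ℤ) {e : ℕ} (hs : Squarefree e)
    (he : ∀ p : ℕ, p.Prime → p ∣ e → p ∈ P) :
    ((e : ℤ) ∣ ((∏ p ∈ TT P Cl m, p : ℕ) : ℤ)) ↔
      ((∀ p : ℕ, p.Prime → p ∣ e → p ∉ Cl) ∧ (e : ℤ) ∣ m) := by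
  constructor
  · intro h
    refine ⟨?_, h.trans (prod_TT_dvd hP m)⟩
    intro p hp hpe
    have h1 : p ∣ ∏ p ∈ TT P Cl m, p := hpe.trans (Int.natCast_dvd_natCast.1 h)
    have h2 := (prime_dvd_prod (TT_prime hP m) hp).1 h1
    exact (mem_TT.1 h2).1.2
  · rintro ⟨h1, h2⟩
    rw [Int.natCast_dvd_natCast, ← Nat.prod_primeFactors_of_squarefree hs]
    apply Finset.prod_dvd_prod_of_subset
    intro p hp
    have hpp := Nat.prime_of_mem_primeFactors hp
    have hpe := Nat.dvd_of_mem_primeFactors hp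
    rw [mem_TT]
    exact ⟨⟨he p hpp hpe, h1 p hpp hpe⟩, (Int.natCast_dvd_natCast.2 hpe).trans h2⟩

lemma Ev_rs {P Cl : Finset ℕ} (hP : ∀ p ∈ P, p.Prime) {D : ℕ} {U : ℝ} {th : ℕ → ℝ}
    (h : DW P D U th) (m : ℤ) :
    Ev (rs Cl th) D m = Ev th D ((∏ p ∈ TT P Cl m, p : ℕ) : ℤ) := by
  unfold Ev
  apply Finset.sum_congr rfl
  intro e _
  by_cases he : th e = 0
  · unfold rs
    rw [he]
    simp
  · obtain ⟨a, _, c⟩ := h.supp e he
    have hd := dvd_iff (Cl := Cl) hP m a c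
    unfold rs
    by_cases h1 : ∀ p : ℕ, p.Prime → p ∣ e → p ∉ Cl
    · rw [if_pos h1]
      by_cases h2 : (e : ℤ) ∣ m
      · rw [if_pos h2, if_pos (hd.2 ⟨h1, h2⟩)]
      · rw [if_neg h2, if_neg (fun h3 => h2 (hd.1 h3).2)]
    · rw [if_neg h1, if_neg (fun h3 => h1 (hd.1 h3).1)]
      simp

lemma xx_rs {P Cl : Finset ℕ} (hP : ∀ p ∈ P, p.Prime) (m : ℤ) :
    xx (P \ Cl) m = xx P ((∏ p ∈ TT P Cl m, p : ℕ) : ℤ) := by
  unfold xx
  have h : (∀ p ∈ P \ Cl, ¬ (p : ℤ) ∣ m) ↔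
      (∀ p ∈ P, ¬ (p : ℤ) ∣ ((∏ p ∈ TT P Cl m, p : ℕ) : ℤ)) := by
    constructor
    · intro h p hp hd
      have h2 := (prime_dvd_prod (TT_prime hP m) (hP p hp)).1 (Int.natCast_dvd_natCast.1 hd)
      have h3 := mem_TT.1 h2
      exact h p (mem_sdiff.2 h3.1) h3.2
    · intro h p hp hd
      have hp' := mem_sdiff.1 hp
      refine h p hp'.1 (Int.natCast_dvd_natCast.2 ?_)
      exact (prime_dvd_prod (TT_prime hP m) (hP p hp'.1)).2 (mem_TT.2 ⟨hp', hd⟩)
  by_cases h1 : ∀ p ∈ P \ Cl, ¬ (p : ℤ) ∣ m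
  · rw [if_pos h1, if_pos (h.1 h1)]
  · rw [if_neg h1, if_neg (fun h2 => h1 (h.2 h2))]

lemma sum_mult (D p : ℕ) (hp : 1 ≤ p) :
    ∑ e ∈ (Icc 1 D).filter (fun e => p ∣ e), (1 : ℝ) / e ≤ 1 / p * (1 + Real.log D) := by
  have hsub : (Icc 1 D).filter (fun e => p ∣ e) ⊆ (Icc 1 D).image (fun k => p * k) := by
    intro e he
    rw [mem_filter, mem_Icc] at he
    obtain ⟨⟨h1, h2⟩, k, rfl⟩ := he
    rw [mem_image]
    refine ⟨k, mem_Icc.2 ⟨?_, ?_⟩, rfl⟩
    · rcases Nat.eq_zero_or_pos k with rfl | hk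
      · simp at h1
      · exact hk
    · calc k ≤ p * k := Nat.le_mul_of_pos_left k hp
        _ ≤ D := h2
  have hinj : Set.InjOn (fun k => p * k) (Icc 1 D : Finset ℕ) := by
    intro a _ b _ hab
    exact Nat.eq_of_mul_eq_mul_left hp hab
  calc ∑ e ∈ (Icc 1 D).filter (fun e => p ∣ e), (1 : ℝ) / e
      ≤ ∑ e ∈ (Icc 1 D).image (fun k => p * k), (1 : ℝ) / e :=
        Finset.sum_le_sum_of_subset_of_nonneg hsub (fun i _ _ => by positivity)
    _ = ∑ k ∈ Icc 1 D, (1 : ℝ) / ((p * k : ℕ) : ℝ) := Finset.sum_image hinj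
    _ = 1 / p * ∑ k ∈ Icc 1 D, ((k : ℝ))⁻¹ := by
        rw [Finset.mul_sum]
        apply Finset.sum_congr rfl
        intro k _
        push_cast
        rw [one_div, mul_inv, one_div]
    _ ≤ 1 / p * (1 + Real.log D) := by
        apply mul_le_mul_of_nonneg_left _ (by positivity)
        have h := harmonic_le_one_add_log D
        rw [harmonic_eq_sum_Icc] at h
        push_cast at h
        exact h

lemma hat_rs {P Cl : Finset ℕ} (hP : ∀ p ∈ P, p.Prime) {D : ℕ} {U : ℝ} {th : ℕ → ℝ}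
    (h : DW P D U th) :
    |hat (rs Cl th) D - hat th D| ≤ ∑ p ∈ P ∩ Cl, U * (1 / p * (1 + Real.log D)) := by
  classical
  have hU : 0 ≤ U := (abs_nonneg _).trans (h.bd 0)
  unfold hat
  rw [← Finset.sum_sub_distrib]
  calc |∑ e ∈ Icc 1 D, (rs Cl th e / e - th e / e)|
      ≤ ∑ e ∈ Icc 1 D, |rs Cl th e / e - th e / e| := Finset.abs_sum_le_sum_abs _ _
    _ ≤ ∑ e ∈ Icc 1 D, ∑ p ∈ P ∩ Cl, (if p ∣ e then U * (1 / (e : ℝ)) else 0) := by
        apply Finset.sum_le_sum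
        intro e _
        have hnn : ∀ p ∈ P ∩ Cl, (0 : ℝ) ≤ (if p ∣ e then U * (1 / (e : ℝ)) else 0) := by
          intro p _
          split_ifs
          · positivity
          · exact le_refl _
        by_cases h1 : ∀ p : ℕ, p.Prime → p ∣ e → p ∉ Cl
        · have : rs Cl th e = th e := by unfold rs; rw [if_pos h1]
          rw [this, sub_self, abs_zero]
          exact Finset.sum_nonneg hnn
        · have h0 : rs Cl th e = 0 := by unfold rs; rw [if_neg h1]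
          by_cases he : th e = 0
          · rw [h0, he, sub_self, abs_zero]
            exact Finset.sum_nonneg hnn
          · push Not at h1
            obtain ⟨p, hp, hpe, hpC⟩ := h1
            obtain ⟨_, _, c⟩ := h.supp e he
            have hmem : p ∈ P ∩ Cl := mem_inter.2 ⟨c p hp hpe, hpC⟩
            have h2 := Finset.single_le_sum hnn hmem
            rw [if_pos hpe] at h2
            refine le_trans ?_ h2
            rw [h0, zero_div, zero_sub, abs_neg, abs_div, Nat.abs_cast, mul_one_div]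
            exact div_le_div_of_nonneg_right (h.bd e) (Nat.cast_nonneg e)
    _ = ∑ p ∈ P ∩ Cl, ∑ e ∈ Icc 1 D, (if p ∣ e then U * (1 / (e : ℝ)) else 0) := Finset.sum_comm
    _ ≤ ∑ p ∈ P ∩ Cl, U * (1 / p * (1 + Real.log D)) := by
        apply Finset.sum_le_sum
        intro p hp
        rw [← Finset.sum_filter, ← Finset.mul_sum]
        exact mul_le_mul_of_nonneg_left (sum_mult D p (hP p (mem_inter.1 hp).1).one_le) hU

lemma prod_ge (T : Finset ℕ) (hT : ∀ p ∈ T, (2 : ℝ) ≤ p) :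
    0 ≤ VV T ∧ VV T ≤ 1 ∧ 1 - ∑ p ∈ T, (1 : ℝ) / p ≤ VV T := by
  classical
  unfold VV
  induction T using Finset.induction_on with
  | empty => simp
  | insert a s ha ih =>
    obtain ⟨i1, i2, i3⟩ := ih (fun p hp => hT p (mem_insert_of_mem hp))
    have h2 : (2 : ℝ) ≤ a := hT a (mem_insert_self a s)
    have h3 : (0 : ℝ) ≤ 1 / a := by positivity
    have h4 : (1 : ℝ) / a ≤ 1 := by
      rw [div_le_one (by linarith)]; linarith
    rw [Finset.prod_insert ha, Finset.sum_insert ha]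
    refine ⟨mul_nonneg (by linarith) i1, ?_, ?_⟩
    · exact mul_le_one₀ (by linarith) i1 i2
    · nlinarith

/-- arithmetic of the errors -/
lemma fin_arith {e3 V V' h h0 dd d0 ER : ℝ} (he : 0 ≤ e3) (hV : 0 ≤ V) (hVV : V ≤ V')
    (h1 : |h0 - V| ≤ e3 / 8 * V) (h2 : |d0| ≤ e3 / 8 * V) (h3 : |h - h0| ≤ ER)
    (h4 : |dd - d0| ≤ ER) (h5 : ER ≤ e3 / 8 * V) (h6 : V' - V ≤ e3 / 8 * V') :
    |h - V'| ≤ e3 * V' ∧ |dd| ≤ e3 * V' := by
  have hV' : 0 ≤ V' := hV.trans hVV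
  have k1 : e3 / 8 * V ≤ e3 / 8 * V' := mul_le_mul_of_nonneg_left hVV (by linarith)
  have k2 : 0 ≤ e3 * V' := mul_nonneg he hV'
  rw [abs_le] at h1 h2 h3 h4
  obtain ⟨a1, a2⟩ := h1
  obtain ⟨b1, b2⟩ := h2
  obtain ⟨c1, c2⟩ := h3
  obtain ⟨d1, d2⟩ := h4
  constructor
  · rw [abs_le]
    constructor <;> linarith
  · rw [abs_le]
    constructor <;> linarith

lemma exp_small {ε : ℝ} (h0 : 0 < ε) : Real.exp (-(8 / ε)) ≤ ε ^ 3 / 8 := by
  have h1 : (8 / ε) ^ 3 / (Nat.factorial 3 : ℕ) ≤ Real.exp (8 / ε) :=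
    Real.pow_div_factorial_le_exp _ (by positivity) 3
  have h2 : (8 / ε) ^ 3 / (Nat.factorial 3 : ℕ) = 512 / 6 / ε ^ 3 := by
    have : (Nat.factorial 3 : ℕ) = 6 := by decide
    rw [this]
    field_simp
    norm_num
  rw [h2] at h1
  rw [Real.exp_neg]
  have h3 : 8 / ε ^ 3 ≤ Real.exp (8 / ε) := by
    refine le_trans ?_ h1
    apply div_le_div_of_nonneg_right _ (by positivity)
    norm_num
  calc (Real.exp (8 / ε))⁻¹ ≤ (8 / ε ^ 3)⁻¹ := inv_anti₀ (by positivity) h3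
    _ = ε ^ 3 / 8 := by rw [inv_div]

theorem main (hFLW : St_FLW) (hVLB : St_VLB) : St_FLC2 := by
  classical
  intro η₀ hη₀
  obtain ⟨εs, hεs, hF⟩ := hFLW η₀ 8 hη₀ (by norm_num)
  obtain ⟨c₂, hc₂, hV⟩ := hVLB
  refine ⟨min εs 1, lt_min hεs one_pos, ?_⟩
  intro ε₁ hε₁ hε₁s B hB
  have h1 : ε₁ ≤ εs := hε₁s.trans (min_le_left _ _)
  have h2 : ε₁ ≤ 1 := hε₁s.trans (min_le_right _ _)
  obtain ⟨N₁, hN₁⟩ := hF ε₁ hε₁ h1 B (by omega)
  obtain ⟨N₂, hN₂⟩ := hV B (by omega) ε₁ hε₁ h2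
  have ht : Tendsto (fun N : ℕ => Real.log N) atTop atTop :=
    Real.tendsto_log_atTop.comp tendsto_natCast_atTop_atTop
  obtain ⟨N₃, hN₃⟩ := eventually_atTop.1 (ht.eventually_ge_atTop
    (max (Real.exp 1) (max (8 / ε₁ ^ 3) (8 * (1 + η₀) / (c₂ * ε₁ ^ 3)))))
  refine ⟨max N₁ (max N₂ N₃), ?_⟩
  intro N hN D hD Cl hCl
  have hNa : N₁ ≤ N := (le_max_left _ _).trans hN
  have hNb : N₂ ≤ N := ((le_max_left _ _).trans (le_max_right _ _)).trans hN
  have hNc : N₃ ≤ N := ((le_max_right _ _).trans (le_max_right _ _)).trans hN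
  obtain ⟨th0, dl0, ht1, hd1, hm, hh1, hh2⟩ := hN₁ N hNa D hD
  obtain ⟨hv1, -⟩ := hN₂ N hNb
  have hL := hN₃ N hNc
  set L : ℝ := Real.log N with hLdef
  set P : Finset ℕ := P1 N B ε₁ with hPdef
  have hL1 : Real.exp 1 ≤ L := (le_max_left _ _).trans hL
  have hL2 : 8 / ε₁ ^ 3 ≤ L := ((le_max_left _ _).trans (le_max_right _ _)).trans hL
  have hL3 : 8 * (1 + η₀) / (c₂ * ε₁ ^ 3) ≤ L :=
    ((le_max_right _ _).trans (le_max_right _ _)).trans hL
  have he1 : (2 : ℝ) ≤ Real.exp 1 := by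
    have := Real.add_one_le_exp (1 : ℝ); linarith
  have hLge : (2 : ℝ) ≤ L := he1.trans hL1
  have hLpos : 0 < L := by linarith
  have hll : 1 ≤ Real.log L := by
    rw [Real.le_log_iff_exp_le hLpos]; exact hL1
  have hP : ∀ p ∈ P, p.Prime := by
    intro p hp
    rw [hPdef] at hp
    unfold P1 at hp
    exact (mem_filter.1 hp).2.1
  have hPge : ∀ p ∈ P, L ^ 6 ≤ (p : ℝ) := by
    intro p hp
    rw [hPdef] at hp
    unfold P1 at hp
    have h3 := (mem_filter.1 hp).2.2.1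
    exact (pow_le_pow_right₀ (by linarith) hB).trans h3
  have he3 : 0 < ε₁ ^ 3 := by positivity
  -- lower bound for `VV P`
  have hVP : c₂ / L ≤ VV P := by
    refine le_trans ?_ hv1
    rw [div_eq_mul_inv]
    apply mul_le_mul_of_nonneg_left _ hc₂.le
    rw [inv_eq_one_div, div_le_div_iff₀ hLpos (by positivity)]
    have hB1 : (1 : ℝ) ≤ B := by
      have : 1 ≤ B := by omega
      exact_mod_cast this
    have h4 : 1 ≤ (B : ℝ) * Real.log L := by nlinarith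
    have h5 : ε₁ * L ≤ L := by nlinarith
    nlinarith
  have hVpos : 0 < VV P := lt_of_lt_of_le (by positivity) hVP
  -- the sum of `1/p` over the exceptional primes
  have hsum : ∑ p ∈ P ∩ Cl, (1 : ℝ) / p ≤ 1 / L ^ 4 := by
    calc ∑ p ∈ P ∩ Cl, (1 : ℝ) / p ≤ ∑ p ∈ P ∩ Cl, 1 / L ^ 6 := by
          apply Finset.sum_le_sum
          intro p hp
          apply one_div_le_one_div_of_le (by positivity)
          exact hPge p (mem_inter.1 hp).1
      _ = ((P ∩ Cl).card : ℝ) * (1 / L ^ 6) := by rw [Finset.sum_const, nsmul_eq_mul]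
      _ ≤ L ^ 2 * (1 / L ^ 6) := by
          apply mul_le_mul_of_nonneg_right _ (by positivity)
          refine le_trans ?_ hCl
          exact_mod_cast Finset.card_le_card Finset.inter_subset_right
      _ = 1 / L ^ 4 := by field_simp
  have hT2 : ∀ p ∈ P ∩ Cl, (2 : ℝ) ≤ p := by
    intro p hp
    exact_mod_cast (hP p (mem_inter.1 hp).1).two_le
  have hT3 : ∀ p ∈ P \ Cl, (2 : ℝ) ≤ p := by
    intro p hp
    exact_mod_cast (hP p (mem_sdiff.1 hp).1).two_le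
  obtain ⟨w1, w2, w3⟩ := prod_ge (P ∩ Cl) hT2
  obtain ⟨v1, v2, -⟩ := prod_ge (P \ Cl) hT3
  have hVmul : VV (P ∩ Cl) * VV (P \ Cl) = VV P := by
    unfold VV
    exact Finset.prod_inter_mul_prod_sdiff _ _ _
  have hVle : VV P ≤ VV (P \ Cl) := by
    rw [← hVmul]
    exact mul_le_of_le_one_left v1 w2
  have h14 : 1 / L ^ 4 ≤ ε₁ ^ 3 / 8 := by
    have h5 : 8 / ε₁ ^ 3 ≤ L ^ 4 := by
      refine hL2.trans ?_
      calc L = L ^ 1 := (pow_one L).symm
        _ ≤ L ^ 4 := pow_le_pow_right₀ (by linarith) (by norm_num)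
    calc 1 / L ^ 4 ≤ 1 / (8 / ε₁ ^ 3) := one_div_le_one_div_of_le (by positivity) h5
      _ = ε₁ ^ 3 / 8 := one_div_div _ _
  have hVdiff : VV (P \ Cl) - VV P ≤ ε₁ ^ 3 / 8 * VV (P \ Cl) := by
    rw [← hVmul]
    have h5 : 1 - ε₁ ^ 3 / 8 ≤ VV (P ∩ Cl) := by linarith
    nlinarith
  -- the error of the restriction
  have hlogD : Real.log D ≤ η₀ * L := by
    have hN0 : (0 : ℝ) < N := by
      rcases Nat.eq_zero_or_pos N with h0 | h0
      · exfalso
        rw [hLdef, h0] at hLge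
        simp at hLge
        linarith
      · exact_mod_cast h0
    rcases Nat.eq_zero_or_pos D with h0 | h0
    · rw [h0]; simp; positivity
    · have h5 : (D : ℝ) ≤ (N : ℝ) ^ η₀ := by
        rw [hD]; exact Nat.floor_le (by positivity)
      calc Real.log D ≤ Real.log ((N : ℝ) ^ η₀) :=
            Real.log_le_log (by exact_mod_cast h0) h5
        _ = η₀ * L := by rw [Real.log_rpow hN0]
  have hER : ∑ p ∈ P ∩ Cl, L * (1 / (p : ℝ) * (1 + Real.log D)) ≤ ε₁ ^ 3 / 8 * VV P := by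
    have e1 : ∑ p ∈ P ∩ Cl, L * (1 / (p : ℝ) * (1 + Real.log D)) =
        L * (1 + Real.log D) * ∑ p ∈ P ∩ Cl, (1 : ℝ) / p := by
      rw [Finset.mul_sum]
      apply Finset.sum_congr rfl
      intro p _
      ring
    have hlD0 : 0 ≤ Real.log D := Real.log_natCast_nonneg D
    have hlD : 1 + Real.log D ≤ (1 + η₀) * L := by nlinarith
    have hS0 : 0 ≤ ∑ p ∈ P ∩ Cl, (1 : ℝ) / p :=
      Finset.sum_nonneg (fun p _ => by positivity)
    rw [e1]
    calc L * (1 + Real.log D) * ∑ p ∈ P ∩ Cl, (1 : ℝ) / p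
        ≤ L * ((1 + η₀) * L) * (1 / L ^ 4) := by
          apply mul_le_mul _ hsum hS0 (by positivity)
          exact mul_le_mul_of_nonneg_left hlD hLpos.le
      _ = (1 + η₀) / L / L := by field_simp
      _ ≤ ε₁ ^ 3 / 8 * (c₂ / L) := by
          rw [← mul_div_assoc]
          apply div_le_div_of_nonneg_right _ hLpos.le
          rw [div_le_iff₀ hLpos]
          rw [div_le_iff₀ (by positivity)] at hL3
          nlinarith
      _ ≤ ε₁ ^ 3 / 8 * VV P := mul_le_mul_of_nonneg_left hVP (by positivity)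
  have hexp := exp_small hε₁
  refine ⟨rs Cl th0, rs Cl dl0, rs_DW ht1, rs_DW hd1, ?_, ?_⟩
  · intro m
    rw [Ev_rs hP ht1, Ev_rs hP hd1, xx_rs hP]
    exact hm _
  · refine fin_arith he3.le hVpos.le hVle (hh1.trans ?_) (hh2.trans ?_) (hat_rs hP ht1)
      (hat_rs hP hd1) hER hVdiff
    · exact mul_le_mul_of_nonneg_right hexp hVpos.le
    · exact mul_le_mul_of_nonneg_right hexp hVpos.le

end Pool.Agent.W505.UBFLC
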